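import Pool.Agent.Wills.Steiner

set_option autoImplicit false

/-! Volume of the parallel bodies of the convex hull of a finite set: a polynomial with
nonnegative coefficients (helper7). -/

open MeasureTheory Set Module
open scoped RealInnerProductSpace Pointwise

namespace Pool.Agent.Wills

section Scale

variable {E : Type*} [NormedAddCommGroup E] [InnerProductSpace ℝ E] [FiniteDimensional ℝ E]

/-- the linear map which is the identity on `L` and multiplication by `s` on `Lᗮ` -/
noncomputable def scaleMap (L : Submodule ℝ E) (s : ℝ) : E →ₗ[ℝ] E :=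
  (L.prodEquivOfIsCompl _ L.isCompl_orthogonal).toLinearMap ∘ₗ
    (LinearMap.prodMap (LinearMap.id : L →ₗ[ℝ] L) (s • (LinearMap.id : Lᗮ →ₗ[ℝ] Lᗮ))) ∘ₗ
    (L.prodEquivOfIsCompl _ L.isCompl_orthogonal).symm.toLinearMap

lemma scaleMap_apply (L : Submodule ℝ E) (s : ℝ) {v w : E} (hv : v ∈ L) (hw : w ∈ Lᗮ) :
    scaleMap L s (v + w) = v + s • w := by
  have h : (L.prodEquivOfIsCompl _ L.isCompl_orthogonal).symm (v + w)
      = ((⟨v, hv⟩ : L), (⟨w, hw⟩ : Lᗮ)) := by
    rw [LinearEquiv.symm_apply_eq]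
    simp
  change (L.prodEquivOfIsCompl _ L.isCompl_orthogonal)
    ((LinearMap.prodMap (LinearMap.id : L →ₗ[ℝ] L) (s • (LinearMap.id : Lᗮ →ₗ[ℝ] Lᗮ)))
      ((L.prodEquivOfIsCompl _ L.isCompl_orthogonal).symm (v + w))) = v + s • w
  rw [h]
  simp

lemma det_scaleMap (L : Submodule ℝ E) (s : ℝ) :
    LinearMap.det (scaleMap L s) = s ^ finrank ℝ Lᗮ := by
  have h := LinearMap.det_conj (LinearMap.prodMap (LinearMap.id : L →ₗ[ℝ] L)
    (s • (LinearMap.id : Lᗮ →ₗ[ℝ] Lᗮ))) (L.prodEquivOfIsCompl _ L.isCompl_orthogonal)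
  rw [scaleMap, h, LinearMap.det_prodMap]
  simp

end Scale

variable {d : ℕ}

/-- nearest point map -/
noncomputable def npt {K : Set (EuclideanSpace ℝ (Fin d))} (hK : IsCompact K) (hc : Convex ℝ K)
    (hne : K.Nonempty) (x : EuclideanSpace ℝ (Fin d)) : EuclideanSpace ℝ (Fin d) :=
  (exists_nearest hK hc hne x).choose

section
variable {K : Set (EuclideanSpace ℝ (Fin d))} (hK : IsCompact K) (hc : Convex ℝ K)
    (hne : K.Nonempty)

lemma npt_mem (x : EuclideanSpace ℝ (Fin d)) : npt hK hc hne x ∈ K :=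
  (exists_nearest hK hc hne x).choose_spec.1

lemma npt_norm (x : EuclideanSpace ℝ (Fin d)) : ‖x - npt hK hc hne x‖ = Metric.infDist x K :=
  (exists_nearest hK hc hne x).choose_spec.2.1

lemma npt_inner (x : EuclideanSpace ℝ (Fin d)) {w : EuclideanSpace ℝ (Fin d)} (hw : w ∈ K) :
    ⟪x - npt hK hc hne x, w - npt hK hc hne x⟫ ≤ 0 :=
  (exists_nearest hK hc hne x).choose_spec.2.2 w hw

lemma npt_unique {x y : EuclideanSpace ℝ (Fin d)} (hy : y ∈ K)
    (h : ∀ w ∈ K, ⟪x - y, w - y⟫ ≤ 0) : npt hK hc hne x = y := by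
  set p := npt hK hc hne x with hp
  have h1 : ⟪x - p, y - p⟫ ≤ 0 := npt_inner hK hc hne x hy
  have h2 : ⟪x - y, p - y⟫ ≤ 0 := h p (npt_mem hK hc hne x)
  have h3 : ⟪x - p, y - p⟫ + ⟪x - y, p - y⟫ = ⟪y - p, y - p⟫ := by
    have e1 : p - y = -(y - p) := by abel
    rw [e1, inner_neg_right, ← sub_eq_add_neg, ← inner_sub_left]
    congr 1
    abel
  have h4 : ⟪y - p, y - p⟫ ≤ 0 := by linarith
  have h5 : y - p = 0 := by
    rw [real_inner_self_eq_norm_sq] at h4
    have : ‖y - p‖ = 0 := by nlinarith [norm_nonneg (y - p)]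
    exact norm_eq_zero.mp this
  exact (sub_eq_zero.mp h5).symm

lemma npt_lipschitz (x y : EuclideanSpace ℝ (Fin d)) :
    ‖npt hK hc hne x - npt hK hc hne y‖ ≤ ‖x - y‖ := by
  set p := npt hK hc hne x with hp
  set q := npt hK hc hne y with hq
  have h1 : ⟪x - p, q - p⟫ ≤ 0 := npt_inner hK hc hne x (npt_mem hK hc hne y)
  have h2 : ⟪y - q, p - q⟫ ≤ 0 := npt_inner hK hc hne y (npt_mem hK hc hne x)
  have h3 : ⟪x - p, q - p⟫ + ⟪y - q, p - q⟫ = ⟪p - q, p - q⟫ - ⟪x - y, p - q⟫ := by
    have e1 : q - p = -(p - q) := by abel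
    rw [e1, inner_neg_right, ← inner_sub_left, neg_add_eq_sub, ← inner_sub_left]
    congr 1
    abel
  have h4 : ‖p - q‖ ^ 2 ≤ ‖x - y‖ * ‖p - q‖ := by
    rw [← real_inner_self_eq_norm_sq]
    have := real_inner_le_norm (x - y) (p - q)
    linarith
  rcases eq_or_lt_of_le (norm_nonneg (p - q)) with h | h
  · rw [← h]; exact norm_nonneg _
  · have : ‖p - q‖ * ‖p - q‖ ≤ ‖x - y‖ * ‖p - q‖ := by rw [← sq]; exact h4
    exact le_of_mul_le_mul_right this h

lemma npt_continuous : Continuous (npt hK hc hne) := by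
  have : LipschitzWith 1 (npt hK hc hne) := by
    refine LipschitzWith.of_dist_le_mul (fun x y => ?_)
    rw [dist_eq_norm, dist_eq_norm, NNReal.coe_one, one_mul]
    exact npt_lipschitz hK hc hne x y
  exact this.continuous

/-- radial scaling around `K` keeps the nearest point -/
lemma npt_scale (x : EuclideanSpace ℝ (Fin d)) {s : ℝ} (hs : 0 ≤ s) :
    npt hK hc hne (npt hK hc hne x + s • (x - npt hK hc hne x)) = npt hK hc hne x := by
  refine npt_unique hK hc hne (npt_mem hK hc hne x) (fun w hw => ?_)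
  rw [add_sub_cancel_left, real_inner_smul_left]
  exact mul_nonpos_of_nonneg_of_nonpos hs (npt_inner hK hc hne x hw)

end

section Hull

variable (A : Finset (EuclideanSpace ℝ (Fin d))) (hA : A.Nonempty)

lemma hull_compact : IsCompact (convexHull ℝ (A : Set (EuclideanSpace ℝ (Fin d)))) :=
  Set.Finite.isCompact_convexHull (𝕜 := ℝ) A.finite_toSet

/-- nearest point of the hull -/
noncomputable def hp (x : EuclideanSpace ℝ (Fin d)) : EuclideanSpace ℝ (Fin d) :=
  npt (hull_compact A) (convex_convexHull ℝ _) (by simpa using hA : (convexHull ℝ (A : Set (EuclideanSpace ℝ (Fin d)))).Nonempty) x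

lemma hull_nonempty (A : Finset (EuclideanSpace ℝ (Fin d))) (hA : A.Nonempty) :
    (convexHull ℝ (A : Set (EuclideanSpace ℝ (Fin d)))).Nonempty := by simpa using hA

lemma hp_continuous : Continuous (hp A hA) :=
  npt_continuous (hull_compact A) (convex_convexHull ℝ _) (hull_nonempty A hA)

lemma hp_mem (x : EuclideanSpace ℝ (Fin d)) : hp A hA x ∈ convexHull ℝ (A : Set _) :=
  npt_mem _ _ _ x

lemma hp_norm (x : EuclideanSpace ℝ (Fin d)) :
    ‖x - hp A hA x‖ = Metric.infDist x (convexHull ℝ (A : Set _)) := npt_norm _ _ _ x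

lemma hp_inner (x : EuclideanSpace ℝ (Fin d)) {a : EuclideanSpace ℝ (Fin d)} (ha : a ∈ A) :
    ⟪x - hp A hA x, a - hp A hA x⟫ ≤ 0 :=
  npt_inner _ _ _ x (subset_convexHull ℝ _ ha)

lemma hp_scale (x : EuclideanSpace ℝ (Fin d)) {s : ℝ} (hs : 0 ≤ s) :
    hp A hA (hp A hA x + s • (x - hp A hA x)) = hp A hA x := npt_scale _ _ _ x hs

/-- the piece of space where the argmax set of the normal vector is `F` -/
def piece (F : Finset (EuclideanSpace ℝ (Fin d))) : Set (EuclideanSpace ℝ (Fin d)) :=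
  {x | (∀ a ∈ F, ⟪x - hp A hA x, a - hp A hA x⟫ = 0) ∧
    (∀ a ∈ A, a ∉ F → ⟪x - hp A hA x, a - hp A hA x⟫ < 0)}

lemma piece_measurable (F : Finset (EuclideanSpace ℝ (Fin d))) :
    MeasurableSet (piece A hA F) := by
  have hcont : ∀ a : EuclideanSpace ℝ (Fin d),
      Continuous (fun x => ⟪x - hp A hA x, a - hp A hA x⟫) := by
    intro a
    have := hp_continuous A hA
    fun_prop
  have : piece A hA F = (⋂ a ∈ F, {x | ⟪x - hp A hA x, a - hp A hA x⟫ = 0}) ∩
      (⋂ a ∈ A, {x | a ∉ F → ⟪x - hp A hA x, a - hp A hA x⟫ < 0}) := by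
    ext x
    simp [piece]
  rw [this]
  refine MeasurableSet.inter ?_ ?_
  · refine Finset.measurableSet_biInter _ (fun a _ => ?_)
    exact (isClosed_eq (hcont a) continuous_const).measurableSet
  · refine Finset.measurableSet_biInter _ (fun a _ => ?_)
    by_cases h : a ∈ F
    · have : {x : EuclideanSpace ℝ (Fin d) | a ∉ F → ⟪x - hp A hA x, a - hp A hA x⟫ < 0}
          = univ := by ext x; simp [h]
      rw [this]; exact MeasurableSet.univ
    · have : {x : EuclideanSpace ℝ (Fin d) | a ∉ F → ⟪x - hp A hA x, a - hp A hA x⟫ < 0}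
          = {x | ⟪x - hp A hA x, a - hp A hA x⟫ < 0} := by ext x; simp [h]
      rw [this]
      exact (isOpen_lt (hcont a) continuous_const).measurableSet

lemma piece_disjoint {F F' : Finset (EuclideanSpace ℝ (Fin d))} (hF : F ⊆ A) (hF' : F' ⊆ A)
    (hne : F ≠ F') : Disjoint (piece A hA F) (piece A hA F') := by
  rw [Set.disjoint_left]
  rintro x ⟨h1, h2⟩ ⟨h1', h2'⟩
  apply hne
  ext a
  constructor
  · intro ha
    by_contra hcon
    have := h2' a (hF ha) hcon
    rw [h1 a ha] at this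
    exact lt_irrefl _ this
  · intro ha
    by_contra hcon
    have := h2 a (hF' ha) hcon
    rw [h1' a ha] at this
    exact lt_irrefl _ this

lemma piece_cover : (⋃ F ∈ A.powerset, piece A hA F) = univ := by
  classical
  rw [Set.eq_univ_iff_forall]
  intro x
  simp only [Set.mem_iUnion, exists_prop]
  refine ⟨A.filter (fun a => ⟪x - hp A hA x, a - hp A hA x⟫ = 0),
    Finset.mem_powerset.mpr (Finset.filter_subset _ _), ?_, ?_⟩
  · intro a ha
    exact (Finset.mem_filter.mp ha).2
  · intro a ha hna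
    refine lt_of_le_of_ne (hp_inner A hA x ha) (fun h => hna ?_)
    exact Finset.mem_filter.mpr ⟨ha, h⟩

/-- on a piece, the nearest point is a convex combination of the points of `F` -/
lemma piece_comb {F : Finset (EuclideanSpace ℝ (Fin d))} (hF : F ⊆ A)
    {x : EuclideanSpace ℝ (Fin d)} (hx : x ∈ piece A hA F) :
    ∃ w : EuclideanSpace ℝ (Fin d) → ℝ, (∑ a ∈ F, w a = 1) ∧ hp A hA x = ∑ a ∈ F, w a • a := by
  classical
  obtain ⟨w, hw0, hw1, hw⟩ := Finset.mem_convexHull'.mp (hp_mem A hA x)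
  set p := hp A hA x with hp_def
  have h0 : ∑ a ∈ A, w a * ⟪x - p, a - p⟫ = 0 := by
    have : ∑ a ∈ A, w a * ⟪x - p, a - p⟫ = ⟪x - p, ∑ a ∈ A, w a • (a - p)⟫ := by
      rw [inner_sum]
      refine Finset.sum_congr rfl (fun a _ => by rw [real_inner_smul_right])
    rw [this]
    have h2 : ∑ a ∈ A, w a • (a - p) = 0 := by
      simp_rw [smul_sub]
      rw [Finset.sum_sub_distrib, hw, ← Finset.sum_smul, hw1, one_smul, sub_self]
    rw [h2, inner_zero_right]
  have hterm : ∀ a ∈ A, w a * ⟪x - p, a - p⟫ ≤ 0 := fun a ha =>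
    mul_nonpos_of_nonneg_of_nonpos (hw0 a ha) (hp_inner A hA x ha)
  have hzero : ∀ a ∈ A, w a * ⟪x - p, a - p⟫ = 0 := by
    intro a ha
    exact (Finset.sum_eq_zero_iff_of_nonpos hterm).mp h0 a ha
  have hwz : ∀ a ∈ A, a ∉ F → w a = 0 := by
    intro a ha hna
    have h3 := hx.2 a ha hna
    rcases mul_eq_zero.mp (hzero a ha) with h | h
    · exact h
    · exact absurd h (ne_of_lt h3)
  refine ⟨w, ?_, ?_⟩
  · rw [← hw1]
    exact Finset.sum_subset hF (fun a ha hna => hwz a ha hna)
  · rw [← hw]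
    exact (Finset.sum_subset hF (fun a ha hna => by rw [hwz a ha hna, zero_smul])).symm

/-- radial scaling -/
noncomputable def rs (s : ℝ) (x : EuclideanSpace ℝ (Fin d)) : EuclideanSpace ℝ (Fin d) :=
  hp A hA x + s • (x - hp A hA x)

lemma hp_rs {s : ℝ} (hs : 0 ≤ s) (x : EuclideanSpace ℝ (Fin d)) :
    hp A hA (rs A hA s x) = hp A hA x := hp_scale A hA x hs

lemma rs_sub {s : ℝ} (hs : 0 ≤ s) (x : EuclideanSpace ℝ (Fin d)) :
    rs A hA s x - hp A hA (rs A hA s x) = s • (x - hp A hA x) := by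
  rw [hp_rs A hA hs]
  simp [rs]

lemma rs_rs {s t : ℝ} (ht : 0 ≤ t) (x : EuclideanSpace ℝ (Fin d)) :
    rs A hA s (rs A hA t x) = rs A hA (s * t) x := by
  conv_lhs => rw [rs, rs_sub A hA ht, hp_rs A hA ht]
  rw [rs, mul_smul]

lemma rs_one (x : EuclideanSpace ℝ (Fin d)) : rs A hA 1 x = x := by simp [rs]

lemma rs_mem_piece {F : Finset (EuclideanSpace ℝ (Fin d))} {s : ℝ} (hs : 0 < s)
    {x : EuclideanSpace ℝ (Fin d)} (hx : x ∈ piece A hA F) : rs A hA s x ∈ piece A hA F := by
  refine ⟨fun a ha => ?_, fun a ha hna => ?_⟩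
  · rw [rs_sub A hA hs.le, hp_rs A hA hs.le, real_inner_smul_left, hx.1 a ha, mul_zero]
  · rw [rs_sub A hA hs.le, hp_rs A hA hs.le, real_inner_smul_left]
    exact mul_neg_of_pos_of_neg hs (hx.2 a ha hna)

/-- the truncated piece -/
def tpiece (F : Finset (EuclideanSpace ℝ (Fin d))) (r : ℝ) : Set (EuclideanSpace ℝ (Fin d)) :=
  piece A hA F ∩ {x | ‖x - hp A hA x‖ ≤ r}

lemma rs_image_tpiece (F : Finset (EuclideanSpace ℝ (Fin d))) {s : ℝ} (hs : 0 < s) :
    rs A hA s '' tpiece A hA F 1 = tpiece A hA F s := by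
  ext y
  constructor
  · rintro ⟨x, ⟨hx1, hx2⟩, rfl⟩
    refine ⟨rs_mem_piece A hA hs hx1, ?_⟩
    simp only [Set.mem_ofPred_eq] at hx2 ⊢
    rw [rs_sub A hA hs.le, norm_smul, Real.norm_eq_abs, abs_of_pos hs]
    nlinarith
  · rintro ⟨hy1, hy2⟩
    refine ⟨rs A hA s⁻¹ y, ⟨rs_mem_piece A hA (inv_pos.mpr hs) hy1, ?_⟩, ?_⟩
    · simp only [Set.mem_ofPred_eq] at hy2 ⊢
      rw [rs_sub A hA (inv_pos.mpr hs).le, norm_smul, Real.norm_eq_abs, abs_of_pos (inv_pos.mpr hs),
        inv_mul_le_iff₀ hs, mul_one]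
      exact hy2
    · rw [rs_rs A hA (inv_pos.mpr hs).le, mul_inv_cancel₀ hs.ne', rs_one]

lemma volume_tpiece {F : Finset (EuclideanSpace ℝ (Fin d))} (hF : F ⊆ A) :
    ∃ k : ℕ, k ≤ d ∧ ∀ s : ℝ, 0 < s →
      volume (tpiece A hA F s) = ENNReal.ofReal (s ^ k) * volume (tpiece A hA F 1) := by
  classical
  rcases F.eq_empty_or_nonempty with hemp | ⟨a0, ha0⟩
  · refine ⟨0, Nat.zero_le _, fun s hs => ?_⟩
    have hpe : ∀ r, tpiece A hA F r = ∅ := by
      intro r
      rw [Set.eq_empty_iff_forall_notMem]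
      rintro x ⟨hx, _⟩
      obtain ⟨w, hw, _⟩ := piece_comb A hA hF hx
      rw [hemp] at hw
      simp at hw
    rw [hpe, hpe]; simp
  · set L : Submodule ℝ (EuclideanSpace ℝ (Fin d)) :=
      Submodule.span ℝ ((fun a => a - a0) '' (F : Set (EuclideanSpace ℝ (Fin d)))) with hL
    refine ⟨finrank ℝ Lᗮ, ?_, fun s hs => ?_⟩
    · have := Submodule.finrank_le (Lᗮ)
      rwa [finrank_euclideanSpace_fin] at this
    · have hlin : ∀ x ∈ piece A hA F, rs A hA s x = a0 + scaleMap L s (x - a0) := by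
        intro x hx
        obtain ⟨w, hw1, hw⟩ := piece_comb A hA hF hx
        have h1 : hp A hA x - a0 ∈ L := by
          have : hp A hA x - a0 = ∑ a ∈ F, w a • (a - a0) := by
            simp_rw [smul_sub]
            rw [Finset.sum_sub_distrib, ← hw, ← Finset.sum_smul, hw1, one_smul]
          rw [this]
          refine Submodule.sum_mem _ (fun a ha => Submodule.smul_mem _ _ ?_)
          exact Submodule.subset_span ⟨a, ha, rfl⟩
        have h2 : x - hp A hA x ∈ Lᗮ := by
          rw [Submodule.mem_orthogonal']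
          intro v hv
          induction hv using Submodule.span_induction with
          | mem v hv =>
            obtain ⟨a, ha, rfl⟩ := hv
            have e : a - a0 = (a - hp A hA x) - (a0 - hp A hA x) := by abel
            simp only
            rw [e, inner_sub_right, hx.1 a ha, hx.1 a0 ha0, sub_self]
          | zero => simp
          | add u v _ _ hu hv => rw [inner_add_right, hu, hv, add_zero]
          | smul c u _ hu => rw [real_inner_smul_right, hu, mul_zero]
        have h3 : x - a0 = (hp A hA x - a0) + (x - hp A hA x) := by abel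
        rw [h3, scaleMap_apply L s h1 h2, rs]
        abel
      have himg : tpiece A hA F s = (fun x => a0 + x) '' (scaleMap L s '' ((fun x => x - a0) ''
          tpiece A hA F 1)) := by
        rw [← rs_image_tpiece A hA F hs, Set.image_image, Set.image_image]
        refine Set.image_congr (fun x hx => hlin x hx.1)
      rw [himg]
      have e1 : ∀ S : Set (EuclideanSpace ℝ (Fin d)), volume ((fun x => a0 + x) '' S) = volume S := by
        intro S
        rw [Set.image_add_left, measure_preimage_add]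
      have e2 : ∀ S : Set (EuclideanSpace ℝ (Fin d)), volume ((fun x => x - a0) '' S) = volume S := by
        intro S
        have : (fun x : EuclideanSpace ℝ (Fin d) => x - a0) = fun x => x + (-a0) := by
          ext1 x; exact sub_eq_add_neg x a0
        rw [this, Set.image_add_right, neg_neg, measure_preimage_add_right]
      rw [e1, Measure.addHaar_image_linearMap, e2, det_scaleMap, abs_of_pos (by positivity)]

lemma tpiece_measurable (F : Finset (EuclideanSpace ℝ (Fin d))) (r : ℝ) :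
    MeasurableSet (tpiece A hA F r) := by
  refine (piece_measurable A hA F).inter ?_
  have h1 := hp_continuous A hA
  have h2 : Continuous (fun x => ‖x - hp A hA x‖) := by fun_prop
  exact (isClosed_le h2 continuous_const).measurableSet

lemma parallel_eq {s : ℝ} :
    convexHull ℝ (A : Set (EuclideanSpace ℝ (Fin d))) + Metric.closedBall 0 s
      = ⋃ F ∈ A.powerset, tpiece A hA F s := by
  have h1 : (⋃ F ∈ A.powerset, tpiece A hA F s) = {x | ‖x - hp A hA x‖ ≤ s} := by
    have : (⋃ F ∈ A.powerset, tpiece A hA F s)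
        = (⋃ F ∈ A.powerset, piece A hA F) ∩ {x | ‖x - hp A hA x‖ ≤ s} := by
      rw [Set.iUnion₂_inter]
      rfl
    rw [this, piece_cover, Set.univ_inter]
  rw [h1]
  ext x
  constructor
  · rintro ⟨y, hy, z, hz, rfl⟩
    simp only [Set.mem_ofPred_eq]
    rw [hp_norm]
    refine (Metric.infDist_le_dist_of_mem hy).trans ?_
    rw [dist_eq_norm, add_sub_cancel_left]
    simpa using hz
  · intro hx
    simp only [Set.mem_ofPred_eq] at hx
    refine ⟨hp A hA x, hp_mem A hA x, x - hp A hA x, ?_, add_sub_cancel _ _⟩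
    simpa using hx

theorem volume_parallel {s : ℝ} :
    volume (convexHull ℝ (A : Set (EuclideanSpace ℝ (Fin d))) + Metric.closedBall 0 s)
      = ∑ F ∈ A.powerset, volume (tpiece A hA F s) := by
  rw [parallel_eq A hA]
  refine measure_biUnion_finset ?_ (fun F _ => tpiece_measurable A hA F s)
  intro F hF F' hF' hne
  exact (piece_disjoint A hA (Finset.mem_powerset.mp hF) (Finset.mem_powerset.mp hF') hne).mono
    Set.inter_subset_left Set.inter_subset_left

end Hull

theorem hull_poly {d : ℕ} (A : Finset (EuclideanSpace ℝ (Fin d))) (hA : A.Nonempty) :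
    ∃ c : ℕ → ℝ, (∀ i, 0 ≤ c i) ∧ ∀ t : ℝ, 0 < t →
      (volume (convexHull ℝ (A : Set (EuclideanSpace ℝ (Fin d))) +
        Metric.closedBall (0 : EuclideanSpace ℝ (Fin d)) t)).toReal
        = ∑ i ∈ Finset.range (d + 1), c i * t ^ i := by
  classical
  have hk : ∀ F : Finset (EuclideanSpace ℝ (Fin d)), ∃ k : ℕ, k ≤ d ∧ (F ∈ A.powerset →
      ∀ s : ℝ, 0 < s →
        volume (tpiece A hA F s) = ENNReal.ofReal (s ^ k) * volume (tpiece A hA F 1)) := by
    intro F
    by_cases h : F ∈ A.powerset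
    · obtain ⟨k, hk, h2⟩ := volume_tpiece A hA (Finset.mem_powerset.mp h)
      exact ⟨k, hk, fun _ => h2⟩
    · exact ⟨0, Nat.zero_le _, fun h' => absurd h' h⟩
  choose k hkd hkv using hk
  refine ⟨fun i => ∑ F ∈ A.powerset with k F = i, (volume (tpiece A hA F 1)).toReal,
    fun i => Finset.sum_nonneg (fun _ _ => ENNReal.toReal_nonneg), fun t ht => ?_⟩
  have hfin : ∀ F ∈ A.powerset, volume (tpiece A hA F t) ≠ ⊤ := by
    intro F hF
    have h1 : volume (convexHull ℝ (A : Set (EuclideanSpace ℝ (Fin d))) +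
        Metric.closedBall (0 : EuclideanSpace ℝ (Fin d)) t) < ⊤ :=
      ((hull_compact A).add (isCompact_closedBall _ _)).measure_lt_top
    refine ne_top_of_le_ne_top h1.ne (measure_mono ?_)
    rw [parallel_eq A hA]
    exact Set.subset_biUnion_of_mem (u := fun F => tpiece A hA F t) hF
  rw [volume_parallel A hA, ENNReal.toReal_sum hfin]
  have h3 : ∀ F ∈ A.powerset, (volume (tpiece A hA F t)).toReal
      = (volume (tpiece A hA F 1)).toReal * t ^ (k F) := by
    intro F hF
    rw [hkv F hF t ht, ENNReal.toReal_mul, ENNReal.toReal_ofReal (by positivity), mul_comm]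
  rw [Finset.sum_congr rfl h3]
  rw [← Finset.sum_fiberwise_of_maps_to (s := A.powerset) (t := Finset.range (d + 1)) (g := k)
    (fun F _ => Finset.mem_range.mpr (Nat.lt_succ_of_le (hkd F)))]
  refine Finset.sum_congr rfl (fun i _ => ?_)
  rw [Finset.sum_mul]
  refine Finset.sum_congr rfl (fun F hF => ?_)
  rw [(Finset.mem_filter.mp hF).2]

end Pool.Agent.Wills
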