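import Pool.Agent.Wills.Assembly

set_option autoImplicit false

/-!
# Nonnegativity of the Steiner coefficients: reduction to convex hulls of finite sets

`K` is approximated by convex hulls of finite `ε`-nets; limits of polynomials of degree `≤ d` with
nonnegative coefficients have nonnegative coefficients.
-/

open Finset MeasureTheory Filter Topology
open scoped Pointwise

namespace Pool.Agent.Wills

/-- two-sided comparison of a compact convex set with the convex hull of a finite net -/
lemma exists_net {d : ℕ} {K : Set (EuclideanSpace ℝ (Fin d))} (hK : IsCompact K)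
    (hc : Convex ℝ K) (hne : K.Nonempty) {e : ℝ} (he : 0 < e) :
    ∃ A : Finset (EuclideanSpace ℝ (Fin d)), A.Nonempty ∧
      convexHull ℝ (A : Set (EuclideanSpace ℝ (Fin d))) ⊆ K ∧
      K ⊆ convexHull ℝ (A : Set (EuclideanSpace ℝ (Fin d))) + Metric.closedBall 0 e := by
  obtain ⟨t, htK, htf, hcov⟩ := hK.finite_cover_balls he
  refine ⟨htf.toFinset, ?_, ?_, ?_⟩
  · obtain ⟨x, hx⟩ := hne
    obtain ⟨y, hy, _⟩ := Set.mem_iUnion₂.1 (hcov hx)
    exact ⟨y, htf.mem_toFinset.2 hy⟩
  · rw [Set.Finite.coe_toFinset]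
    exact convexHull_min htK hc
  · intro x hx
    obtain ⟨y, hy, hxy⟩ := Set.mem_iUnion₂.1 (hcov hx)
    rw [Set.Finite.coe_toFinset]
    refine ⟨y, subset_convexHull ℝ _ hy, x - y, ?_, add_sub_cancel y x⟩
    rw [Metric.mem_closedBall, dist_zero_right, ← dist_eq_norm]
    exact (Metric.mem_ball.1 hxy).le

lemma vol_mono {d : ℕ} {K L : Set (EuclideanSpace ℝ (Fin d))} (hL : IsCompact L) {t s : ℝ}
    (h : K + Metric.closedBall (0 : EuclideanSpace ℝ (Fin d)) t ⊆
      L + Metric.closedBall (0 : EuclideanSpace ℝ (Fin d)) s) :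
    (volume (K + Metric.closedBall (0 : EuclideanSpace ℝ (Fin d)) t)).toReal ≤
      (volume (L + Metric.closedBall (0 : EuclideanSpace ℝ (Fin d)) s)).toReal := by
  refine ENNReal.toReal_mono ?_ (measure_mono h)
  exact (hL.add (isCompact_closedBall _ _)).measure_lt_top.ne

/-- A real polynomial function which is a pointwise limit (in the two-sided sense) of polynomial
functions with nonnegative coefficients has nonnegative coefficients. -/
lemma coeff_nonneg_of_approx (d : ℕ) (u : ℕ → ℝ)
    (h : ∀ e : ℝ, 0 < e → ∃ c : ℕ → ℝ, (∀ i, 0 ≤ c i) ∧ ∀ t : ℝ, 0 < t →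
      ∑ i ∈ range (d + 1), c i * t ^ i ≤ ∑ i ∈ range (d + 1), u i * t ^ i ∧
      ∑ i ∈ range (d + 1), u i * t ^ i ≤ ∑ i ∈ range (d + 1), c i * (t + e) ^ i) :
    ∀ i, i ≤ d → 0 ≤ u i := by
  choose c hc0 hc using fun n : ℕ => h (1 / ((n : ℝ) + 1)) (by positivity)
  set M : ℝ := ∑ i ∈ range (d + 1), u i * (1 : ℝ) ^ i with hM
  have hbd : ∀ n i, i < d + 1 → c n i ≤ M := by
    intro n i hi
    have h1 := (hc n 1 one_pos).1
    refine le_trans ?_ h1
    have h2 := Finset.single_le_sum (f := fun i => c n i * (1 : ℝ) ^ i)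
      (fun i _ => by have := hc0 n i; positivity) (Finset.mem_range.2 hi)
    simpa using h2
  have hcomp : IsCompact (Set.univ.pi (fun _ : Fin (d + 1) => Set.Icc (0 : ℝ) M)) :=
    isCompact_univ_pi (fun _ => isCompact_Icc)
  obtain ⟨a, ha, phi, hphi, hlim⟩ := hcomp.tendsto_subseq
    (x := fun n => fun i : Fin (d + 1) => c n i)
    (fun n i _ => ⟨hc0 n i, hbd n i i.2⟩)
  have ha0 : ∀ i, 0 ≤ a i := fun i => (ha i (Set.mem_univ i)).1
  have hlimi : ∀ i : Fin (d + 1), Tendsto (fun n => c (phi n) i) atTop (𝓝 (a i)) :=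
    fun i => (tendsto_pi_nhds.1 hlim) i
  have heq : ∀ t : ℝ, 0 < t →
      ∑ i ∈ range (d + 1), u i * t ^ i = ∑ i : Fin (d + 1), a i * t ^ (i : ℕ) := by
    intro t ht
    have hL1 : Tendsto (fun n => ∑ i ∈ range (d + 1), c (phi n) i * t ^ i) atTop
        (𝓝 (∑ i : Fin (d + 1), a i * t ^ (i : ℕ))) := by
      simp_rw [← Fin.sum_univ_eq_sum_range (fun i => c _ i * t ^ i) (d + 1)]
      exact tendsto_finsetSum _ (fun i _ => (hlimi i).mul_const _)
    have hte : Tendsto (fun n => t + 1 / ((phi n : ℝ) + 1)) atTop (𝓝 t) := by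
      have h1 : Tendsto (fun n : ℕ => 1 / ((n : ℝ) + 1)) atTop (𝓝 0) :=
        tendsto_one_div_add_atTop_nhds_zero_nat
      have h2 := h1.comp hphi.tendsto_atTop
      have h3 := h2.const_add t
      simpa using h3
    have hL2 : Tendsto (fun n => ∑ i ∈ range (d + 1), c (phi n) i *
        (t + 1 / ((phi n : ℝ) + 1)) ^ i) atTop (𝓝 (∑ i : Fin (d + 1), a i * t ^ (i : ℕ))) := by
      have hrw : ∀ n, ∑ i ∈ range (d + 1), c (phi n) i * (t + 1 / ((phi n : ℝ) + 1)) ^ i
          = ∑ i : Fin (d + 1), c (phi n) i * (t + 1 / ((phi n : ℝ) + 1)) ^ (i : ℕ) :=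
        fun n => (Fin.sum_univ_eq_sum_range
          (fun i => c (phi n) i * (t + 1 / ((phi n : ℝ) + 1)) ^ i) (d + 1)).symm
      simp_rw [hrw]
      exact tendsto_finsetSum _ (fun i _ => (hlimi i).mul (hte.pow _))
    refine le_antisymm ?_ ?_
    · exact ge_of_tendsto hL2 (Eventually.of_forall (fun n => (hc (phi n) t ht).2))
    · exact le_of_tendsto hL1 (Eventually.of_forall (fun n => (hc (phi n) t ht).1))
  -- compare coefficients
  set p : Polynomial ℝ := ∑ i ∈ range (d + 1), Polynomial.C (u i) * Polynomial.X ^ i with hp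
  set b : ℕ → ℝ := fun i => if hi : i < d + 1 then a ⟨i, hi⟩ else 0 with hb
  set q : Polynomial ℝ := ∑ i ∈ range (d + 1), Polynomial.C (b i) * Polynomial.X ^ i with hq
  have hpq : p = q := by
    refine Polynomial.eq_of_infinite_eval_eq p q ?_
    refine (Set.Ioi_infinite (0 : ℝ)).mono (fun t ht => ?_)
    have ht0 : (0 : ℝ) < t := ht
    show p.eval t = q.eval t
    rw [hp, hq, Polynomial.eval_finsetSum, Polynomial.eval_finsetSum]
    simp only [Polynomial.eval_mul, Polynomial.eval_C, Polynomial.eval_pow, Polynomial.eval_X]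
    rw [heq t ht0, ← Fin.sum_univ_eq_sum_range (fun i => b i * t ^ i) (d + 1)]
    refine Finset.sum_congr rfl (fun i _ => ?_)
    have hbi : b i = a i := by rw [hb]; simp only; rw [dif_pos i.2]
    rw [hbi]
  intro i hi
  have h1 : p.coeff i = u i := by
    rw [hp, Polynomial.finsetSum_coeff]
    simp only [Polynomial.coeff_C_mul, Polynomial.coeff_X_pow]
    rw [Finset.sum_eq_single i]
    · simp
    · intro j _ hj; simp [Ne.symm hj]
    · intro h; exact absurd (Finset.mem_range.2 (by omega)) h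
  have h2 : q.coeff i = b i := by
    rw [hq, Polynomial.finsetSum_coeff]
    simp only [Polynomial.coeff_C_mul, Polynomial.coeff_X_pow]
    rw [Finset.sum_eq_single i]
    · simp
    · intro j _ hj; simp [Ne.symm hj]
    · intro h; exact absurd (Finset.mem_range.2 (by omega)) h
  rw [← h1, hpq, h2, hb]
  simp only
  rw [dif_pos (by omega)]
  exact ha0 _

theorem steinerNonneg_of_hull {d : ℕ}
    (H : ∀ A : Finset (EuclideanSpace ℝ (Fin d)), A.Nonempty → ∃ c : ℕ → ℝ, (∀ i, 0 ≤ c i) ∧
      ∀ t : ℝ, 0 < t → (volume (convexHull ℝ (A : Set (EuclideanSpace ℝ (Fin d))) +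
        Metric.closedBall (0 : EuclideanSpace ℝ (Fin d)) t)).toReal
          = ∑ i ∈ Finset.range (d + 1), c i * t ^ i) :
    SteinerNonneg d := by
  intro K hK hc hne V hV i hi
  have hkey : ∀ j, j ≤ d → 0 ≤ kap j * V (d - j) := by
    refine coeff_nonneg_of_approx d (fun j => kap j * V (d - j)) (fun e he => ?_)
    obtain ⟨A, hA, h1, h2⟩ := exists_net hK hc hne he
    obtain ⟨c, hc0, hcs⟩ := H A hA
    have hAc : IsCompact (convexHull ℝ (A : Set (EuclideanSpace ℝ (Fin d)))) :=
      (A.finite_toSet).isCompact_convexHull (𝕜 := ℝ)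
    refine ⟨c, hc0, fun t ht => ?_⟩
    have hVt : ∑ j ∈ range (d + 1), kap j * V (d - j) * t ^ j
        = (volume (K + Metric.closedBall (0 : EuclideanSpace ℝ (Fin d)) t)).toReal := by
      rw [hV t ht.le, ← Finset.sum_range_reflect]
      refine Finset.sum_congr rfl (fun j hj => ?_)
      have hj' : j ≤ d := by have := Finset.mem_range.1 hj; omega
      have e1 : d + 1 - 1 - j = d - j := by omega
      have e2 : d - (d - j) = j := by omega
      rw [e1, e2]
    constructor
    · rw [hVt, ← hcs t ht]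
      exact vol_mono hK (Set.add_subset_add_right h1)
    · rw [hVt, ← hcs (t + e) (by positivity)]
      refine vol_mono hAc ?_
      refine (Set.add_subset_add_right h2).trans ?_
      rw [add_assoc, closedBall_add_closedBall he.le ht.le, add_zero, add_comm e t]
  have h3 := hkey (d - i) (by omega)
  have e3 : d - (d - i) = i := by omega
  rw [e3] at h3
  exact nonneg_of_mul_nonneg_right h3 (kap_pos _)

end Pool.Agent.Wills
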