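import Pool.Agent.Wills.ParamRed

set_option autoImplicit false

open MeasureTheory Set Finset

namespace Pool.Agent.Wills.Param

lemma concave_tangent {g : ℝ → ℝ} (hg : ConcaveOn ℝ (Ici 0) g) {t g' : ℝ} (ht : 0 < t)
    (hd : HasDerivAt g g' t) {x : ℝ} (hx : 0 ≤ x) : g x ≤ g t + g' * (x - t) := by
  rcases lt_trichotomy x t with h | h | h
  · have h1 := hg.le_slope_of_hasDerivAt (x := x) (y := t) hx ht.le h hd
    rw [slope_def_field, le_div_iff₀ (by linarith)] at h1
    linarith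
  · subst h; simp
  · have h1 := hg.slope_le_of_hasDerivAt (x := t) (y := x) ht.le hx h hd
    rw [slope_def_field, div_le_iff₀ (by linarith)] at h1
    linarith

/-- the weight `α(t)` -/
noncomputable def al (d : ℕ) (U : ℕ → ℝ) (t : ℝ) : ℝ :=
  (∑ i ∈ range (d + 1), (i : ℝ) * U i * t ^ (d - i)) / (d * P d U 1 t)

lemma P_pos (d : ℕ) (U : ℕ → ℝ) (hU : ∀ i, i ≤ d → 0 ≤ U i) (h0 : 0 < U 0) {s t : ℝ}
    (hs : 0 ≤ s) (ht : 0 < t) : 0 < P d U s t := by
  rw [P, Finset.sum_range_succ']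
  have h1 : 0 ≤ ∑ k ∈ Finset.range d, U (k + 1) * s ^ (k + 1) * t ^ (d - (k + 1)) := by
    refine Finset.sum_nonneg (fun k hk => ?_)
    have := hU (k + 1) (by have := Finset.mem_range.1 hk; omega)
    positivity
  have h2 : 0 < U 0 * s ^ 0 * t ^ (d - 0) := by
    rw [pow_zero, mul_one]; positivity
  linarith

lemma P_nonneg (d : ℕ) (U : ℕ → ℝ) (hU : ∀ i, i ≤ d → 0 ≤ U i) {s t : ℝ}
    (hs : 0 ≤ s) (ht : 0 ≤ t) : 0 ≤ P d U s t := by
  rw [P]
  refine Finset.sum_nonneg (fun i hi => ?_)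
  have := hU i (by have := Finset.mem_range.1 hi; omega)
  positivity

lemma al_nonneg (d : ℕ) (U : ℕ → ℝ) (hU : ∀ i, i ≤ d → 0 ≤ U i) {t : ℝ} (ht : 0 ≤ t) :
    0 ≤ al d U t := by
  rw [al]
  refine div_nonneg (Finset.sum_nonneg (fun i hi => ?_))
    (mul_nonneg (by positivity) (P_nonneg d U hU zero_le_one ht))
  have := hU i (by have := Finset.mem_range.1 hi; omega)
  positivity

lemma one_sub_al (d : ℕ) (hd : 1 ≤ d) (U : ℕ → ℝ) (hU : ∀ i, i ≤ d → 0 ≤ U i) (h0 : 0 < U 0)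
    {t : ℝ} (ht : 0 < t) :
    (1 - al d U t) * (d * P d U 1 t) = ∑ i ∈ range (d + 1), ((d - i : ℕ) : ℝ) * U i * t ^ (d - i) := by
  have hP := P_pos d U hU h0 zero_le_one ht
  have hd0 : (0 : ℝ) < d := by exact_mod_cast hd
  rw [al, sub_mul, one_mul, div_mul_cancel₀ _ (by positivity), P, Finset.mul_sum,
    ← Finset.sum_sub_distrib]
  refine Finset.sum_congr rfl (fun i hi => ?_)
  rw [Nat.cast_sub (by have := Finset.mem_range.1 hi; omega)]
  ring

lemma al_le_one (d : ℕ) (hd : 1 ≤ d) (U : ℕ → ℝ) (hU : ∀ i, i ≤ d → 0 ≤ U i) (h0 : 0 < U 0)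
    {t : ℝ} (ht : 0 < t) : al d U t ≤ 1 := by
  have h := one_sub_al d hd U hU h0 ht
  have hP := P_pos d U hU h0 zero_le_one ht
  have hd0 : (0 : ℝ) < d := by exact_mod_cast hd
  have h1 : 0 ≤ ∑ i ∈ range (d + 1), ((d - i : ℕ) : ℝ) * U i * t ^ (d - i) := by
    refine Finset.sum_nonneg (fun i hi => ?_)
    have := hU i (by have := Finset.mem_range.1 hi; omega)
    positivity
  rw [← h] at h1
  have := nonneg_of_mul_nonneg_left h1 (by positivity)
  linarith

lemma P_homog (d : ℕ) (U : ℕ → ℝ) {s r : ℝ} (hs : 0 < s) :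
    P d U s r = s ^ d * P d U 1 (r / s) := by
  rw [P, P, Finset.mul_sum]
  refine Finset.sum_congr rfl (fun i hi => ?_)
  obtain ⟨k, rfl⟩ := Nat.exists_eq_add_of_le (show i ≤ d by
    have := Finset.mem_range.1 hi; omega)
  rw [Nat.add_sub_cancel_left, div_pow, pow_add, one_pow]
  field_simp

lemma tangent_of_concave (d : ℕ) (hd : 1 ≤ d) (U : ℕ → ℝ) (hU : ∀ i, i ≤ d → 0 ≤ U i)
    (h0 : 0 < U 0)
    (hBM : ConcaveOn ℝ (Ici 0) (fun t => (P d U 1 t) ^ (1 / (d : ℝ)))) {t : ℝ} (ht : 0 < t) :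
    Tangent d U t (al d U t) (1 - al d U t) := by
  intro s r hs hr
  have hd0 : (0 : ℝ) < d := by exact_mod_cast hd
  have hP := P_pos d U hU h0 zero_le_one ht
  have hal := al_nonneg d U hU ht.le
  have hal1 := al_le_one d hd U hU h0 ht
  set α := al d U t with hα
  set β := 1 - α with hβ
  have hβ0 : 0 ≤ β := by rw [hβ]; linarith
  have hder : HasDerivAt (fun x => P d U 1 x) (d * P d U 1 t * β / t) t := by
    have h1 : HasDerivAt (fun x => ∑ i ∈ range (d + 1), U i * 1 ^ i * x ^ (d - i))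
        (∑ i ∈ range (d + 1), U i * 1 ^ i * (((d - i : ℕ) : ℝ) * t ^ (d - i - 1))) t := by
      refine HasDerivAt.fun_sum (fun i _ => ?_)
      exact (hasDerivAt_pow (d - i) t).const_mul _
    have h2 : (∑ i ∈ range (d + 1), U i * 1 ^ i * (((d - i : ℕ) : ℝ) * t ^ (d - i - 1)))
        = d * P d U 1 t * β / t := by
      rw [eq_div_iff ht.ne', mul_comm _ β, hβ, hα, one_sub_al d hd U hU h0 ht, Finset.sum_mul]
      refine Finset.sum_congr rfl (fun i _ => ?_)
      rcases Nat.eq_zero_or_pos (d - i) with h | h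
      · rw [h]; simp
      · obtain ⟨k, hk⟩ := Nat.exists_eq_succ_of_ne_zero h.ne'
        rw [hk, Nat.succ_sub_one, pow_succ, one_pow]; ring
    rw [← h2]; exact h1
  have hder2 : HasDerivAt (fun x => (P d U 1 x) ^ (1 / (d : ℝ)))
      ((P d U 1 t) ^ (1 / (d : ℝ)) * (β / t)) t := by
    have h := hder.rpow_const (p := 1 / (d : ℝ)) (Or.inl hP.ne')
    convert h using 1
    rw [Real.rpow_sub_one hP.ne']
    field_simp
  have h3 := concave_tangent hBM ht hder2 (x := r / s) (by positivity)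
  have h4 : (P d U 1 t) ^ (1 / (d : ℝ)) + (P d U 1 t) ^ (1 / (d : ℝ)) * (β / t) * (r / s - t)
      = (P d U 1 t) ^ (1 / (d : ℝ)) * ((α * s + β * (r / t)) / s) := by
    have : α = 1 - β := by rw [hβ]; ring
    rw [this]
    field_simp
    ring
  rw [h4] at h3
  have hPr : 0 ≤ P d U 1 (r / s) := P_nonneg d U hU zero_le_one (by positivity)
  have h5 : P d U 1 (r / s) ≤ P d U 1 t * ((α * s + β * (r / t)) / s) ^ d := by
    have h6 := pow_le_pow_left₀ (Real.rpow_nonneg hPr _) h3 d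
    rw [mul_pow, ← Real.rpow_natCast, ← Real.rpow_natCast (P d U 1 t ^ _), ← Real.rpow_mul hPr,
      ← Real.rpow_mul hP.le, one_div_mul_cancel hd0.ne', Real.rpow_one, Real.rpow_one] at h6
    exact h6
  rw [P_homog d U hs]
  calc s ^ d * P d U 1 (r / s) ≤ s ^ d * (P d U 1 t * ((α * s + β * (r / t)) / s) ^ d) := by
        gcongr
    _ = P d U 1 t * (α * s + β * (r / t)) ^ d := by
        rw [div_pow]; field_simp

/-- lower bound for `d·α(t)`. -/
lemma al_lower (d : ℕ) (hd : 1 ≤ d) (U : ℕ → ℝ) (hU : ∀ i, i ≤ d → 0 ≤ U i)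
    (h0 : U 0 = kap d) (h1 : kap (d - 1) ≤ U 1) {t : ℝ} (ht : 0 < t) :
    kap (d - 1) / (kap d * t + kap (d - 1)) ≤ d * al d U t := by
  have hd0 : (0 : ℝ) < d := by exact_mod_cast hd
  have hk := kap_pos d
  have hk1 := kap_pos (d - 1)
  have h00 : 0 < U 0 := by rw [h0]; exact hk
  have hP := P_pos d U hU h00 zero_le_one ht
  -- R = rest
  set R := ∑ k ∈ Finset.range d, U (k + 1) * t ^ (d - (k + 1)) with hR
  have hPR : P d U 1 t = kap d * t ^ d + R := by
    rw [P, Finset.sum_range_succ', hR, h0]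
    simp only [one_pow, mul_one, Nat.sub_zero]
    ring
  have hRlow : kap (d - 1) * t ^ (d - 1) ≤ R := by
    calc kap (d - 1) * t ^ (d - 1) ≤ U (0 + 1) * t ^ (d - (0 + 1)) := by
          simpa using mul_le_mul_of_nonneg_right h1 (by positivity : (0 : ℝ) ≤ t ^ (d - 1))
      _ ≤ R := by
          rw [hR]
          refine Finset.single_le_sum (f := fun k => U (k + 1) * t ^ (d - (k + 1)))
            (fun k hk => ?_) (Finset.mem_range.2 hd)
          have := hU (k + 1) (by have := Finset.mem_range.1 hk; omega)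
          positivity
  have hnum : R ≤ ∑ i ∈ range (d + 1), (i : ℝ) * U i * t ^ (d - i) := by
    rw [Finset.sum_range_succ', hR]
    simp only [Nat.cast_zero, zero_mul, add_zero]
    refine Finset.sum_le_sum (fun k hk => ?_)
    have := hU (k + 1) (by have := Finset.mem_range.1 hk; omega)
    have h5 : (1 : ℝ) ≤ ((k + 1 : ℕ) : ℝ) := by push_cast; linarith [Nat.cast_nonneg (α := ℝ) k]
    have h6 : U (k + 1) ≤ ((k + 1 : ℕ) : ℝ) * U (k + 1) := le_mul_of_one_le_left this h5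
    exact mul_le_mul_of_nonneg_right h6 (by positivity)
  have hal : (d : ℝ) * al d U t = (∑ i ∈ range (d + 1), (i : ℝ) * U i * t ^ (d - i)) / P d U 1 t := by
    rw [al]; field_simp
  rw [hal, hPR]
  have hR0 : 0 < R := lt_of_lt_of_le (by positivity) hRlow
  have htd : t ^ d = t ^ (d - 1) * t := by
    conv_lhs => rw [← Nat.sub_add_cancel hd]
    rw [pow_succ]
  calc kap (d - 1) / (kap d * t + kap (d - 1))
      = (kap (d - 1) * t ^ (d - 1)) / (kap d * t ^ d + kap (d - 1) * t ^ (d - 1)) := by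
        rw [htd]; field_simp
    _ ≤ R / (kap d * t ^ d + R) := by
        rw [div_le_div_iff₀ (by positivity) (by positivity)]
        nlinarith [mul_le_mul_of_nonneg_left hRlow (show 0 ≤ kap d * t ^ d by positivity)]
    _ ≤ _ := by gcongr

end Pool.Agent.Wills.Param
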