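import Pool.Agent.Wills.ParamPiece
import Pool.Agent.Wills.ParamTan

set_option autoImplicit false

open MeasureTheory Set Finset

namespace Pool.Agent.Wills.Param

lemma gm_sq_le (j : ℕ) : gm (j + 1) ^ 2 ≤ gm j * gm (j + 2) := by
  have h := Real.Gamma_mul_add_mul_le_rpow_Gamma_mul_rpow_Gamma (s := (j : ℝ) / 2 + 1)
    (t := (j : ℝ) / 2 + 2) (a := 1 / 2) (b := 1 / 2) (by positivity) (by positivity) (by norm_num)
    (by norm_num) (by norm_num)
  have e1 : (1 / 2 : ℝ) * ((j : ℝ) / 2 + 1) + 1 / 2 * ((j : ℝ) / 2 + 2) = ((j + 1 : ℕ) : ℝ) / 2 + 1 := by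
    push_cast; ring
  have e2 : (j : ℝ) / 2 + 2 = ((j + 2 : ℕ) : ℝ) / 2 + 1 := by push_cast; ring
  rw [e1, e2] at h
  change gm (j + 1) ≤ gm j ^ (1 / 2 : ℝ) * gm (j + 2) ^ (1 / 2 : ℝ) at h
  have h0 := (gm_pos j).le
  have h2 := (gm_pos (j + 2)).le
  rw [← Real.sqrt_eq_rpow, ← Real.sqrt_eq_rpow] at h
  calc gm (j + 1) ^ 2 ≤ (√(gm j) * √(gm (j + 2))) ^ 2 :=
        pow_le_pow_left₀ (gm_pos _).le h 2
    _ = _ := by rw [mul_pow, Real.sq_sqrt h0, Real.sq_sqrt h2]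

/-- `κ_d t ≤ κ_{d-1}` as soon as `t² ≤ d/(2π)`. -/
lemma kap_ratio {d : ℕ} (hd : 2 ≤ d) {t : ℝ} (ht2 : t ^ 2 ≤ d / (2 * Real.pi)) :
    kap d * t ≤ kap (d - 1) := by
  obtain ⟨j, rfl⟩ := Nat.exists_eq_add_of_le' hd
  have hpi := Real.pi_pos
  have hsp : 0 < √Real.pi := Real.sqrt_pos.2 hpi
  have h1 := gm_sq_le j
  have h2 := gm_add_two j
  have g0 := gm_pos j
  have g1 := gm_pos (j + 1)
  have g2 := gm_pos (j + 2)
  have hj : j + 2 - 1 = j + 1 := by omega
  rw [hj, kap_eq, kap_eq, div_mul_eq_mul_div, div_le_div_iff₀ g2 g1]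
  -- √π^(j+2) t gm(j+1) ≤ √π^(j+1) gm(j+2)
  have h3 : √Real.pi * t * gm (j + 1) ≤ gm (j + 2) := by
    apply le_of_sq_le_sq _ g2.le
    rw [mul_pow, mul_pow, Real.sq_sqrt hpi.le]
    have h4 : Real.pi * t ^ 2 ≤ (j : ℝ) / 2 + 1 := by
      have : Real.pi * t ^ 2 ≤ Real.pi * (((j + 2 : ℕ) : ℝ) / (2 * Real.pi)) := by gcongr
      have e : Real.pi * (((j + 2 : ℕ) : ℝ) / (2 * Real.pi)) = (j : ℝ) / 2 + 1 := by
        push_cast; field_simp
      linarith
    calc Real.pi * t ^ 2 * gm (j + 1) ^ 2 ≤ ((j : ℝ) / 2 + 1) * (gm j * gm (j + 2)) := by gcongr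
      _ = gm (j + 2) ^ 2 := by rw [h2]; ring
  calc √Real.pi ^ (j + 2) * t * gm (j + 1)
      = √Real.pi ^ (j + 1) * (√Real.pi * t * gm (j + 1)) := by ring
    _ ≤ √Real.pi ^ (j + 1) * gm (j + 2) := by gcongr

lemma exp_lower (x y : ℝ) (n : ℕ) (hx : 0 ≤ x) (h : y ≤ ∑ i ∈ Finset.range n, x ^ i / i.factorial) :
    y ≤ Real.exp x := h.trans (Real.sum_le_exp_of_nonneg hx n)


lemma n1_aux {s1 tA : ℝ} (n : ℕ) (hs1 : 0 < s1) (ht : 0 < tA)
    (h : 2.002 / (s1 ^ 2 * tA) ≤ ∑ i ∈ Finset.range n, (2 / s1) ^ i / i.factorial) :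
    2.002 * Real.exp (-(2 / s1)) / s1 ^ 2 ≤ tA := by
  have h1 := exp_lower (2 / s1) _ n (by positivity) h
  rw [Real.exp_neg, div_le_iff₀ (by positivity)]
  rw [div_le_iff₀ (by positivity)] at h1
  have h2 := Real.exp_pos (2 / s1)
  rw [← div_eq_mul_inv, div_le_iff₀ h2]
  linarith

lemma large_A {d : ℕ} (hd : 10 ≤ d) {s t : ℝ} (hs : 0 < s) (ht : 0 < t)
    (ht2 : t ^ 2 = d * s / (2 * Real.pi)) (hm : 1 / 2 ≤ d * s ^ 2) (h11 : s ≤ 0.722) :
    kap d * (theta (2 / s) ^ d * √(2 / s / Real.pi) ^ d *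
      J d ((1 - s ^ 2) / (t * √(2 / s))) (s ^ 2) * J d (s ^ 2 / √Real.pi) ((1 - s ^ 2) * t)) ≤ 1 := by
  have hd' : 1 ≤ d := by omega
  have hd10 : (10 : ℝ) ≤ d := by exact_mod_cast hd
  have p1 := Real.pi_gt_d4
  have p2 := Real.pi_lt_d4
  have hpiinv : ∀ y : ℝ, 0 < y → 1 / (Real.pi * y) ≤ 1 / (3.1415 * y) := by
    intro y hy; gcongr
  have hms : ∀ s0 : ℝ, 0 ≤ s0 → s0 ≤ s → 10 * s0 ^ 2 ≤ d * s ^ 2 := by
    intro s0 h0 h1; gcongr
  rcases le_total s 0.32 with h | h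
  · refine pieceA (s0 := 0) (s1 := 0.32) (tA := 0.038) (v := 0.5015) (K := 0.92) (m0 := 1 / 2)
      hd' hs ht ht2 hs.le h le_rfl (by norm_num) (by norm_num) hm
      (n1_aux 20 (by norm_num) (by norm_num) (by norm_num [Finset.sum_range_succ, Nat.factorial]))
      (by norm_num) (by nlinarith)
      (exp_lower _ _ 8 (by norm_num) (by norm_num [Finset.sum_range_succ, Nat.factorial])) ?_
    have := hpiinv (1 - 0.32 ^ 2) (by norm_num)
    have h5 : (1 : ℝ) / (3.1415 * (1 - 0.32 ^ 2)) ≤ 0.3547 := by norm_num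
    norm_num at this h5 ⊢
    linarith
  rcases le_total s 0.46 with h' | h'
  · refine pieceA (s0 := 0.32) (s1 := 0.46) (tA := 0.1225) (v := 0.8603) (K := 0.723) (m0 := 1.024)
      hd' hs ht ht2 h h' (by norm_num) (by norm_num) (by norm_num)
      (le_trans (by norm_num) (hms 0.32 (by norm_num) h))
      (n1_aux 16 (by norm_num) (by norm_num) (by norm_num [Finset.sum_range_succ, Nat.factorial]))
      (by norm_num) (by nlinarith)
      (exp_lower _ _ 8 (by norm_num) (by norm_num [Finset.sum_range_succ, Nat.factorial])) ?_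
    have := hpiinv (1 - 0.46 ^ 2) (by norm_num)
    have h5 : (1 : ℝ) / (3.1415 * (1 - 0.46 ^ 2)) ≤ 0.4038 := by norm_num
    norm_num at this h5 ⊢
    linarith
  rcases le_total s 0.58 with h'' | h''
  · refine pieceA (s0 := 0.46) (s1 := 0.58) (tA := 0.1894) (v := 1.3886) (K := 0.52) (m0 := 2.116)
      hd' hs ht ht2 h' h'' (by norm_num) (by norm_num) (by norm_num)
      (le_trans (by norm_num) (hms 0.46 (by norm_num) h'))
      (n1_aux 14 (by norm_num) (by norm_num) (by norm_num [Finset.sum_range_succ, Nat.factorial]))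
      (by norm_num) (by nlinarith)
      (exp_lower _ _ 8 (by norm_num) (by norm_num [Finset.sum_range_succ, Nat.factorial])) ?_
    have := hpiinv (1 - 0.58 ^ 2) (by norm_num)
    have h5 : (1 : ℝ) / (3.1415 * (1 - 0.58 ^ 2)) ≤ 0.48 := by norm_num
    norm_num at this h5 ⊢
    linarith
  rcases le_total s 0.66 with h3 | h3
  · refine pieceA (s0 := 0.58) (s1 := 0.66) (tA := 0.2221) (v := 1.8676) (K := 0.411) (m0 := 3.364)
      hd' hs ht ht2 h'' h3 (by norm_num) (by norm_num) (by norm_num)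
      (le_trans (by norm_num) (hms 0.58 (by norm_num) h''))
      (n1_aux 14 (by norm_num) (by norm_num) (by norm_num [Finset.sum_range_succ, Nat.factorial]))
      (by norm_num) (by nlinarith)
      (exp_lower _ _ 9 (by norm_num) (by norm_num [Finset.sum_range_succ, Nat.factorial])) ?_
    have := hpiinv (1 - 0.66 ^ 2) (by norm_num)
    have h5 : (1 : ℝ) / (3.1415 * (1 - 0.66 ^ 2)) ≤ 0.5641 := by norm_num
    norm_num at this h5 ⊢
    linarith
  · refine pieceA (s0 := 0.66) (s1 := 0.722) (tA := 0.2408) (v := 2.2228) (K := 0.3605) (m0 := 4.356)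
      hd' hs ht ht2 h3 h11 (by norm_num) (by norm_num) (by norm_num)
      (le_trans (by norm_num) (hms 0.66 (by norm_num) h3))
      (n1_aux 14 (by norm_num) (by norm_num) (by norm_num [Finset.sum_range_succ, Nat.factorial]))
      (by norm_num) (by nlinarith)
      (exp_lower _ _ 10 (by norm_num) (by norm_num [Finset.sum_range_succ, Nat.factorial])) ?_
    have := hpiinv (1 - 0.722 ^ 2) (by norm_num)
    have h5 : (1 : ℝ) / (3.1415 * (1 - 0.722 ^ 2)) ≤ 0.665 := by norm_num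
    norm_num at this h5 ⊢
    linarith

lemma large_B {d : ℕ} (hd : 10 ≤ d) {s t β : ℝ} (hs : 0.722 ≤ s) (ht : 0 < t)
    (ht2 : t ^ 2 = d * s / (2 * Real.pi)) (hsβ : s ^ 2 + β = 1) (hβ : 0 ≤ β) :
    kap d * (J d (β / (t * √2)) (s ^ 2) * J d (s ^ 2 / √Real.pi) (β * t)) ≤ 1 := by
  have hd' : 1 ≤ d := by omega
  have hd10 : (10 : ℝ) ≤ d := by exact_mod_cast hd
  have hs0 : 0 < s := by linarith
  have hpi := Real.pi_pos
  have p1 := Real.pi_gt_d4
  have p2 := Real.pi_lt_d4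
  rcases le_total β 0.32 with h | h
  · have hs1 : 0.8246 ≤ s := by nlinarith
    refine pieceB (β0 := 0) (β1 := 0.32) (s1 := 0.8246) (K := 0.548) hd' hs0 ht ht2 hsβ hβ hβ h
      (by norm_num) hs1 le_rfl ?_ ?_
    · -- linear bound of the logarithm
      set c := (d : ℝ) * β with hc
      have hc0 : 0 ≤ c := by positivity
      set μ := √(c * (β * Real.pi / s)) with hμ
      have hμ0 : 0 ≤ μ := Real.sqrt_nonneg _
      have hμ2 : μ ^ 2 = c * (β * Real.pi / s) := Real.sq_sqrt (by positivity)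
      have h1 : √Real.pi / 2 * μ ≤ c * 0.548 := by
        apply le_of_sq_le_sq _ (by positivity)
        rw [mul_pow, div_pow, Real.sq_sqrt hpi.le, hμ2, mul_pow]
        -- π/4 c β π/s ≤ c² .548²
        have h2 : Real.pi / 4 * (β * Real.pi / s) ≤ c * 0.548 ^ 2 := by
          have h3 : Real.pi / 4 * (Real.pi / s) ≤ 10 * 0.548 ^ 2 := by
            rw [← mul_div_assoc, div_le_iff₀ hs0]
            nlinarith
          calc Real.pi / 4 * (β * Real.pi / s) = β * (Real.pi / 4 * (Real.pi / s)) := by ring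
            _ ≤ β * (10 * 0.548 ^ 2) := by gcongr
            _ ≤ β * (d * 0.548 ^ 2) := by gcongr
            _ = c * 0.548 ^ 2 := by rw [hc]; ring
        calc Real.pi / 2 ^ 2 * (c * (β * Real.pi / s)) = c * (Real.pi / 4 * (β * Real.pi / s)) := by ring
          _ ≤ c * (c * 0.548 ^ 2) := by gcongr
          _ = _ := by ring
      have h4 : 1 + √Real.pi / 2 * μ + c * (β * Real.pi / s) / 4 ≤ Real.exp (√Real.pi / 2 * μ) := by
        have h5 := Real.quadratic_le_exp_of_nonneg (x := √Real.pi / 2 * μ) (by positivity)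
        have h6 : (√Real.pi / 2 * μ) ^ 2 = Real.pi / 4 * (c * (β * Real.pi / s)) := by
          rw [mul_pow, div_pow, Real.sq_sqrt hpi.le, hμ2]; ring
        rw [h6] at h5
        have h7 : 0 ≤ c * (β * Real.pi / s) := by positivity
        nlinarith
      exact h4.trans (Real.exp_le_exp.2 h1)
    · norm_num
      nlinarith
  rcases le_total β 0.42 with h' | h'
  · have hs1 : 0.7615 ≤ s := by nlinarith
    have hx : β * Real.pi / s ≤ 1.7328 := by
      rw [div_le_iff₀ hs0]; nlinarith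
    refine pieceB (β0 := 0.32) (β1 := 0.42) (s1 := 0.7615) (K := 0.469) hd' hs0 ht ht2 hsβ hβ h h'
      (by norm_num) hs1 (by norm_num) ?_ ?_
    · refine poly_le_exp (m0 := 3.2) (x1 := 1.7328) (v := 2.087) (by norm_num) ?_ (by positivity) hx
        (by norm_num) (by nlinarith)
        (exp_lower _ _ 10 (by norm_num) (by norm_num [Finset.sum_range_succ, Nat.factorial]))
      nlinarith
    · norm_num
      nlinarith
  · have hβ2 : β ≤ 0.478716 := by nlinarith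
    have hx : β * Real.pi / s ≤ 2.0831 := by
      rw [div_le_iff₀ hs0]; nlinarith
    refine pieceB (β0 := 0.42) (β1 := 0.478716) (s1 := 0.722) (K := 0.4195) hd' hs0 ht ht2 hsβ hβ h'
      hβ2 (by norm_num) hs (by norm_num) ?_ ?_
    · refine poly_le_exp (m0 := 4.2) (x1 := 2.0831) (v := 2.6216) (by norm_num) ?_ (by positivity) hx
        (by norm_num) (by nlinarith)
        (exp_lower _ _ 12 (by norm_num) (by norm_num [Finset.sum_range_succ, Nat.factorial]))
      nlinarith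
    · norm_num
      nlinarith


lemma continuousOn_al (d : ℕ) (hd : 1 ≤ d) (U : ℕ → ℝ) (hU : ∀ i, i ≤ d → 0 ≤ U i) (h0 : 0 < U 0) :
    ContinuousOn (al d U) (Ioi 0) := by
  have hd0 : (0 : ℝ) < d := by exact_mod_cast hd
  unfold al P
  refine ContinuousOn.div (by fun_prop) (by fun_prop) (fun t ht => ?_)
  have := P_pos d U hU h0 zero_le_one (t := t) ht
  unfold P at this
  positivity

/-- existence of the balanced parameter -/
lemma exists_balanced {d : ℕ} (hd : 10 ≤ d) (U : ℕ → ℝ) (hU : ∀ i, i ≤ d → 0 ≤ U i)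
    (h0 : U 0 = kap d) (h1 : kap (d - 1) ≤ U 1) :
    ∃ t s : ℝ, 0 < t ∧ 0 < s ∧ s ≤ 1 ∧ al d U t = s ^ 2 ∧ t ^ 2 = d * s / (2 * Real.pi) ∧
      1 / 2 ≤ d * s ^ 2 := by
  have hd' : 1 ≤ d := by omega
  have hd10 : (10 : ℝ) ≤ d := by exact_mod_cast hd
  have hpi := Real.pi_pos
  have p1 := Real.pi_gt_d2
  have p2 := Real.pi_lt_d2
  have h00 : 0 < U 0 := by rw [h0]; exact kap_pos d
  have hhalf : ∀ t : ℝ, 0 < t → t ^ 2 ≤ d / (2 * Real.pi) → 1 / 2 ≤ d * al d U t := by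
    intro t ht ht2
    have h2 := al_lower d hd' U hU h0 h1 ht
    have h3 := kap_ratio (by omega : 2 ≤ d) ht2
    have hk := kap_pos d
    have hk1 := kap_pos (d - 1)
    refine le_trans ?_ h2
    rw [div_le_div_iff₀ (by norm_num) (by positivity)]
    linarith
  set φ : ℝ → ℝ := fun t => 4 * Real.pi ^ 2 * t ^ 4 - d ^ 2 * al d U t with hφ
  have hcont : ContinuousOn φ (Icc (1 / 2) (√d)) := by
    refine ContinuousOn.sub (by fun_prop) (ContinuousOn.mul (by fun_prop) ?_)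
    exact (continuousOn_al d hd' U hU h00).mono (fun t ht => lt_of_lt_of_le (by norm_num) ht.1)
  have hsd : 1 ≤ √(d : ℝ) := by
    rw [Real.one_le_sqrt]; linarith
  have hle : (1 / 2 : ℝ) ≤ √(d : ℝ) := by linarith
  have hlow : φ (1 / 2) ≤ 0 := by
    have h2 := hhalf (1 / 2) (by norm_num) (by
      rw [le_div_iff₀ (by positivity)]; nlinarith)
    have h3 : φ (1 / 2) = 4 * Real.pi ^ 2 * (1 / 2) ^ 4 - d * (d * al d U (1 / 2)) := by
      rw [hφ]; ring
    rw [h3]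
    have h4 : (10 : ℝ) * (1 / 2) ≤ d * (d * al d U (1 / 2)) := by gcongr
    nlinarith
  have hhigh : 0 ≤ φ (√d) := by
    have h2 := al_le_one d hd' U hU h00 (t := √d) (by linarith)
    have h3 : (√(d : ℝ)) ^ 4 = d ^ 2 := by
      rw [show (4 : ℕ) = 2 * 2 by norm_num, pow_mul, Real.sq_sqrt (by linarith)]
    have h4 : φ (√d) = 4 * Real.pi ^ 2 * d ^ 2 - d ^ 2 * al d U (√d) := by
      rw [hφ]; simp only [h3]
    rw [h4]
    have h5 : (d : ℝ) ^ 2 * al d U (√d) ≤ d ^ 2 * 1 := by gcongr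
    have h6 : (1 : ℝ) ≤ 4 * Real.pi ^ 2 := by nlinarith
    have h7 : 1 * (d : ℝ) ^ 2 ≤ 4 * Real.pi ^ 2 * d ^ 2 := by gcongr
    linarith
  obtain ⟨t, ht, hφt⟩ := intermediate_value_Icc hle hcont ⟨hlow, hhigh⟩
  have ht0 : 0 < t := lt_of_lt_of_le (by norm_num) ht.1
  have hφ0 : 4 * Real.pi ^ 2 * t ^ 4 = d ^ 2 * al d U t := by
    have : 4 * Real.pi ^ 2 * t ^ 4 - d ^ 2 * al d U t = 0 := hφt
    linarith
  refine ⟨t, 2 * Real.pi * t ^ 2 / d, ht0, by positivity, ?_, ?_, ?_, ?_⟩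
  · have h2 := al_le_one d hd' U hU h00 (t := t) ht0
    have h3 : (2 * Real.pi * t ^ 2) ^ 2 ≤ (d : ℝ) ^ 2 := by
      calc (2 * Real.pi * t ^ 2) ^ 2 = (d : ℝ) ^ 2 * al d U t := by rw [← hφ0]; ring
        _ ≤ (d : ℝ) ^ 2 * 1 := by gcongr
        _ = _ := mul_one _
    rw [div_le_one (by linarith)]
    exact le_of_sq_le_sq h3 (by linarith)
  · rw [div_pow, eq_div_iff (by positivity)]
    calc al d U t * d ^ 2 = 4 * Real.pi ^ 2 * t ^ 4 := by rw [hφ0]; ring
      _ = _ := by ring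
  · field_simp
  · have h2 := al_le_one d hd' U hU h00 (t := t) ht0
    have h3 : (2 * Real.pi * t ^ 2) ^ 2 ≤ (d : ℝ) ^ 2 := by
      calc (2 * Real.pi * t ^ 2) ^ 2 = (d : ℝ) ^ 2 * al d U t := by rw [← hφ0]; ring
        _ ≤ (d : ℝ) ^ 2 * 1 := by gcongr
        _ = _ := mul_one _
    have h4 := le_of_sq_le_sq h3 (by linarith)
    have h5 := hhalf t ht0 (by rw [le_div_iff₀ (by positivity)]; linarith)
    have h6 : al d U t = (2 * Real.pi * t ^ 2 / d) ^ 2 := by
      rw [div_pow, eq_div_iff (by positivity)]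
      calc al d U t * d ^ 2 = 4 * Real.pi ^ 2 * t ^ 4 := by rw [hφ0]; ring
        _ = _ := by ring
    rw [← h6]; exact h5

/-- **Main inequality, `d ≥ 10`.** -/
theorem large_d (d : ℕ) (hd : 10 ≤ d) (U : ℕ → ℝ) (hU : ∀ i, i ≤ d → 0 ≤ U i) (h0 : U 0 = kap d)
    (h1 : kap (d - 1) ≤ U 1)
    (hBM : ConcaveOn ℝ (Ici 0) (fun t => (P d U 1 t) ^ (1 / (d : ℝ)))) (G : ℝ)
    (hA : ∀ lam : ℝ, 0 < lam → G ≤ theta lam ^ d *
      ∑ i ∈ range (d + 1), (lam / Real.pi) ^ ((i : ℝ) / 2) * (U i / kap (d - i)))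
    (hB : G ≤ ∑ i ∈ range (d + 1),
      (Real.pi / 2) ^ (((d - i : ℕ) : ℝ) / 2) * (U i / kap (d - i))) :
    kap d * G ≤ ∑ i ∈ range (d + 1), kap i * U i := by
  have hd' : 1 ≤ d := by omega
  have h00 : 0 < U 0 := by rw [h0]; exact kap_pos d
  obtain ⟨t, s, ht, hs, hs1, hal, ht2, hm⟩ := exists_balanced hd U hU h0 h1
  have hT := tangent_of_concave d hd' U hU h00 hBM ht
  rw [hal] at hT
  have hP := P_pos d U hU h00 zero_le_one ht
  have hβ : 0 ≤ 1 - s ^ 2 := by nlinarith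
  rcases le_total s 0.722 with h | h
  · exact redA d U hU ht (by positivity) hβ hP hT (lam := 2 / s) (by positivity)
      (theta_nonneg _) (hA _ (by positivity)) (large_A hd hs ht ht2 hm h)
  · exact redB d U hU ht (by positivity) hβ hP hT hB (large_B hd h ht ht2 (by ring) hβ)

end Pool.Agent.Wills.Param
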