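import Pool.Agent.Wills.Assembly
import Pool.Agent.Wills.ParamLarge

set_option autoImplicit false

/-! The pure inequality in dimensions `d ≥ 10` (helper76). -/

open Finset MeasureTheory

namespace Pool.Agent.Wills

open Param (P)

theorem pureIneq_large (d : ℕ) (hd : 10 ≤ d) : PureIneq d := by
  intro V hV h0 h1 hBM G hA hB
  have hd1 : 1 ≤ d := by omega
  have hpi := Real.pi_pos
  have hkk : ∀ j, Param.kap j = kap j := fun j => rfl
  have hkp : ∀ j, 0 < Param.kap j := Param.kap_pos
  have hU : ∀ i, i ≤ d → 0 ≤ (fun i => kap (d - i) * V i) i :=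
    fun i hi => mul_nonneg (kap_pos _).le (hV i hi)
  have key := Param.large_d d hd (fun i => kap (d - i) * V i) hU (by simp [h0, hkk])
    (by
      have := mul_le_mul_of_nonneg_left (h1 hd1) (kap_pos (d - 1)).le
      simpa [hkk] using this)
    (hBM hd1) G
    (fun lam hlam => by
      have h := hA lam hlam
      have e : ∀ i ∈ range (d + 1), (lam / Real.pi) ^ ((i : ℝ) / 2) * V i
          = (lam / Real.pi) ^ ((i : ℝ) / 2) * ((fun i => kap (d - i) * V i) i / Param.kap (d - i)) := by
        intro i _
        have := (hkp (d - i)).ne'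
        rw [hkk] at this ⊢
        simp only
        field_simp
      rw [Finset.sum_congr rfl e] at h
      exact h)
    (by
      have e : ∀ i ∈ range (d + 1), (Real.pi / 2) ^ (((d - i : ℕ) : ℝ) / 2) * V i
          = (Real.pi / 2) ^ (((d - i : ℕ) : ℝ) / 2) *
            ((fun i => kap (d - i) * V i) i / Param.kap (d - i)) := by
        intro i _
        have := (hkp (d - i)).ne'
        rw [hkk] at this ⊢
        simp only
        field_simp
      rw [← Finset.sum_congr rfl e]
      have h2 : 1 ≤ (Real.pi / 2) ^ ((d : ℝ) / 2) :=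
        Real.one_le_rpow (by linarith [Real.pi_gt_three]) (by positivity)
      have h3 : gsum d V 2 = ∑ i ∈ range (d + 1), (Real.pi / 2) ^ (((d - i : ℕ) : ℝ) / 2) * V i := rfl
      rw [← h3]
      linarith)
  have hk : 0 < kap d := kap_pos d
  have e2 : ∑ i ∈ range (d + 1), beta d i * V i
      = (∑ i ∈ range (d + 1), Param.kap i * ((fun i => kap (d - i) * V i) i)) / kap d := by
    rw [Finset.sum_div]
    refine Finset.sum_congr rfl (fun i _ => ?_)
    rw [hkk]
    unfold beta
    ring
  rw [e2, le_div_iff₀ hk]
  calc G * kap d = Param.kap d * G := by rw [hkk]; ring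
    _ ≤ _ := key

theorem pureIneq_all (d : ℕ) : PureIneq d := by
  rcases Nat.lt_or_ge d 10 with h | h
  · exact pureIneq_small d (by omega)
  · exact pureIneq_large d h

end Pool.Agent.Wills
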