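import Mathlib

set_option autoImplicit false
open MeasureTheory Set Metric
open scoped ENNReal Pointwise NNReal

namespace Pool.Agent.Wills

lemma vol_add_compact {K L : Set ℝ} (hK : IsCompact K) (hL : IsCompact L)
    (hKn : K.Nonempty) (hLn : L.Nonempty) :
    volume K + volume L ≤ volume (K + L) := by
  obtain ⟨M, hM, hMax⟩ := hK.exists_isGreatest hKn
  obtain ⟨m, hm, hMin⟩ := hL.exists_isLeast hLn
  have h1 : (fun x => x + m) '' K ∪ (fun x => M + x) '' L ⊆ K + L := by
    rintro z (⟨x, hx, rfl⟩ | ⟨x, hx, rfl⟩)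
    · exact Set.add_mem_add hx hm
    · exact Set.add_mem_add hM hx
  have h2 : volume ((fun x => x + m) '' K ∩ (fun x => M + x) '' L) = 0 := by
    refine measure_mono_null (t := {M + m}) ?_ (by simp)
    rintro z ⟨⟨x, hx, rfl⟩, ⟨y, hy, hxy⟩⟩
    have e1 := hMax hx
    have e2 := hMin hy
    simp only at hxy
    simp only [Set.mem_singleton_iff]
    linarith
  have hmeas : MeasurableSet ((fun x => M + x) '' L) :=
    (hL.image (continuous_const.add continuous_id)).measurableSet
  have h3 := measure_union_add_inter (μ := volume) ((fun x => x + m) '' K) hmeas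
  rw [h2, add_zero] at h3
  have e1 : volume ((fun x => x + m) '' K) = volume K := by
    rw [Set.image_add_right, measure_preimage_add_right]
  have e2 : volume ((fun x => M + x) '' L) = volume L := by
    rw [Set.image_add_left, measure_preimage_add]
  rw [e1, e2] at h3
  rw [← h3]
  exact measure_mono h1

lemma vol_add_le {A B C : Set ℝ} (hA : MeasurableSet A) (hB : MeasurableSet B)
    (hAn : A.Nonempty) (hBn : B.Nonempty) (hC : A + B ⊆ C) :
    volume A + volume B ≤ volume C := by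
  obtain ⟨a, ha⟩ := hAn
  obtain ⟨b, hb⟩ := hBn
  rcases eq_or_ne (volume A) 0 with h0 | h0
  · rw [h0, zero_add]
    have e2 : volume ((fun x => a + x) '' B) = volume B := by
      rw [Set.image_add_left, measure_preimage_add]
    rw [← e2]
    refine measure_mono (subset_trans ?_ hC)
    rintro z ⟨x, hx, rfl⟩
    exact Set.add_mem_add ha hx
  rcases eq_or_ne (volume B) 0 with h0' | h0'
  · rw [h0', add_zero]
    have e2 : volume ((fun x => x + b) '' A) = volume A := by
      rw [Set.image_add_right, measure_preimage_add_right]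
    rw [← e2]
    refine measure_mono (subset_trans ?_ hC)
    rintro z ⟨x, hx, rfl⟩
    exact Set.add_mem_add hx hb
  by_contra hlt
  rw [not_le] at hlt
  obtain ⟨y', hy', z', hz', hyz⟩ := ENNReal.exists_lt_add_of_lt_add hlt h0 h0'
  obtain ⟨K, hKA, hK, hKv⟩ := hA.exists_lt_isCompact hy'
  obtain ⟨L, hLB, hL, hLv⟩ := hB.exists_lt_isCompact hz'
  have hKn : K.Nonempty := by
    rw [Set.nonempty_iff_ne_empty]
    rintro rfl
    simp at hKv
  have hLn : L.Nonempty := by
    rw [Set.nonempty_iff_ne_empty]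
    rintro rfl
    simp at hLv
  have h1 := vol_add_compact hK hL hKn hLn
  have h2 : volume (K + L) ≤ volume C :=
    measure_mono ((Set.add_subset_add hKA hLB).trans hC)
  have h3 : y' + z' ≤ volume K + volume L := add_le_add hKv.le hLv.le
  exact absurd (hyz.trans_le (h3.trans (h1.trans h2))) (lt_irrefl _)

/-- normalised one dimensional Prékopa–Leindler, arithmetic-mean form. -/
lemma pl1_norm {f g h : ℝ → ℝ} {l : ℝ} (hl0 : 0 < l) (hl1 : l < 1)
    (hf : Measurable f) (hg : Measurable g) (hh : Measurable h)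
    (hf0 : ∀ x, 0 ≤ f x) (hg0 : ∀ x, 0 ≤ g x) (hh0 : ∀ x, 0 ≤ h x)
    (hf1 : ∀ x, f x ≤ 1) (hg1 : ∀ x, g x ≤ 1)
    (hfs : ∀ t < 1, ∃ x, t < f x) (hgs : ∀ t < 1, ∃ x, t < g x)
    (hfgh : ∀ x y, f x ^ (1 - l) * g y ^ l ≤ h ((1 - l) * x + l * y)) :
    ENNReal.ofReal (1 - l) * (∫⁻ x, ENNReal.ofReal (f x)) +
      ENNReal.ofReal l * (∫⁻ x, ENNReal.ofReal (g x)) ≤ ∫⁻ x, ENNReal.ofReal (h x) := by
  have key : ∀ (u : ℝ → ℝ), Measurable u → (∀ x, 0 ≤ u x) →
      ∫⁻ x, ENNReal.ofReal (u x) = ∫⁻ t in Ioi (0:ℝ), volume {a | t < u a} := fun u hu hu0 =>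
    lintegral_eq_lintegral_meas_lt volume (Filter.Eventually.of_forall hu0) hu.aemeasurable
  have key1 : ∀ (u : ℝ → ℝ), Measurable u → (∀ x, 0 ≤ u x) → (∀ x, u x ≤ 1) →
      ∫⁻ x, ENNReal.ofReal (u x) = ∫⁻ t in Ioo (0:ℝ) 1, volume {a | t < u a} := by
    intro u hu hu0 hu1
    rw [key u hu hu0]
    have hsplit : Ioi (0:ℝ) = Ioo 0 1 ∪ Ici 1 := by
      ext x; simp only [mem_Ioi, mem_union, mem_Ioo, mem_Ici]
      constructor
      · intro hx
        rcases lt_or_ge x 1 with h1 | h1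
        · exact Or.inl ⟨hx, h1⟩
        · exact Or.inr h1
      · rintro (h1 | h1)
        · exact h1.1
        · linarith
    rw [hsplit, lintegral_union measurableSet_Ici]
    · have : ∫⁻ t in Ici (1:ℝ), volume {a | t < u a} = 0 := by
        rw [setLIntegral_congr_fun (g := fun _ => 0) measurableSet_Ici]
        · simp
        · intro t ht
          have : {a | t < u a} = ∅ := by
            ext a
            simp only [Set.mem_ofPred_eq, mem_empty_iff_false, iff_false, not_lt]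
            exact (hu1 a).trans ht
          simp [this]
      rw [this, add_zero]
    · rw [Set.disjoint_left]
      intro x hx hx'
      exact absurd hx.2 (not_lt.mpr hx')
  rw [key1 f hf hf0 hf1, key1 g hg hg0 hg1, key h hh hh0]
  have hanti : ∀ u : ℝ → ℝ, Antitone fun t : ℝ => volume {a | t < u a} := fun u s t hst =>
    measure_mono fun a (ha : t < u a) => (lt_of_le_of_lt hst ha : s < u a)
  have hmf : Measurable fun t : ℝ => volume {a | t < f a} := (hanti f).measurable
  have hmg : Measurable fun t : ℝ => volume {a | t < g a} := (hanti g).measurable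
  rw [← lintegral_const_mul _ hmf, ← lintegral_const_mul _ hmg,
    ← lintegral_add_left (hmf.const_mul _)]
  refine le_trans ?_ (lintegral_mono_set (Ioo_subset_Ioi_self : Ioo (0:ℝ) 1 ⊆ Ioi 0))
  refine setLIntegral_mono' measurableSet_Ioo ?_
  intro t ht
  have hl0' : (0:ℝ) < 1 - l := by linarith
  have e1 : ENNReal.ofReal (1 - l) * volume {a | t < f a} = volume ((1 - l) • {a | t < f a}) := by
    rw [Measure.addHaar_smul_of_nonneg _ hl0'.le]; simp
  have e2 : ENNReal.ofReal l * volume {a | t < g a} = volume (l • {a | t < g a}) := by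
    rw [Measure.addHaar_smul_of_nonneg _ hl0.le]; simp
  rw [e1, e2]
  refine vol_add_le ?_ ?_ ?_ ?_ ?_
  · exact (measurableSet_lt measurable_const hf).const_smul_of_ne_zero hl0'.ne'
  · exact (measurableSet_lt measurable_const hg).const_smul_of_ne_zero hl0.ne'
  · obtain ⟨x, hx⟩ := hfs t ht.2
    exact ⟨(1 - l) • x, Set.smul_mem_smul_set hx⟩
  · obtain ⟨x, hx⟩ := hgs t ht.2
    exact ⟨l • x, Set.smul_mem_smul_set hx⟩
  · rintro z ⟨_, ⟨x, hx, rfl⟩, _, ⟨y, hy, rfl⟩, rfl⟩
    have hx' : t < f x := hx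
    have hy' : t < g y := hy
    have := hfgh x y
    simp only [smul_eq_mul]
    refine lt_of_lt_of_le ?_ this
    calc t = t ^ (1 - l) * t ^ l := by
          rw [← Real.rpow_add ht.1]; simp
      _ < f x ^ (1 - l) * g y ^ l := by
          refine mul_lt_mul (Real.rpow_lt_rpow ht.1.le hx' hl0')
            (Real.rpow_le_rpow ht.1.le hy'.le hl0.le) (Real.rpow_pos_of_pos ht.1 _)
            (Real.rpow_nonneg (hf0 x) _)


lemma geom_le_arith (a b : ℝ≥0∞) {l : ℝ} (hl0 : 0 < l) (hl1 : l < 1) :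
    a ^ (1 - l) * b ^ l ≤ ENNReal.ofReal (1 - l) * a + ENNReal.ofReal l * b := by
  have hl0' : (0:ℝ) < 1 - l := by linarith
  rcases eq_or_ne a ∞ with ha | ha
  · rw [ha, ENNReal.mul_top (by simpa using hl1)]; simp
  rcases eq_or_ne b ∞ with hb | hb
  · rw [hb, ENNReal.mul_top (by simpa using hl0)]; simp
  lift a to ℝ≥0 using ha
  lift b to ℝ≥0 using hb
  have := NNReal.geom_mean_le_arith_mean2_weighted (1 - l).toNNReal l.toNNReal a b
    (by rw [← Real.toNNReal_add hl0'.le hl0.le]; simp)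
  rw [Real.coe_toNNReal _ hl0'.le, Real.coe_toNNReal _ hl0.le] at this
  rw [ENNReal.ofReal, ENNReal.ofReal, ← ENNReal.coe_rpow_of_nonneg _ hl0'.le,
    ← ENNReal.coe_rpow_of_nonneg _ hl0.le,
    ← ENNReal.coe_mul, ← ENNReal.coe_mul, ← ENNReal.coe_mul, ← ENNReal.coe_add, ENNReal.coe_le_coe]
  exact this

/-- The Prékopa–Leindler property of a measure on a real vector space. -/
def PL {E : Type*} [AddCommGroup E] [Module ℝ E] [MeasurableSpace E] (μ : Measure E) : Prop :=
  ∀ (l : ℝ), 0 < l → l < 1 → ∀ f g h : E → ℝ≥0∞, Measurable f → Measurable g → Measurable h →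
    (∀ x y, f x ^ (1 - l) * g y ^ l ≤ h ((1 - l) • x + l • y)) →
    (∫⁻ x, f x ∂μ) ^ (1 - l) * (∫⁻ x, g x ∂μ) ^ l ≤ ∫⁻ x, h x ∂μ

lemma pl1_bdd {f g h : ℝ → ℝ≥0∞} {l : ℝ} (hl0 : 0 < l) (hl1 : l < 1)
    (hf : Measurable f) (hg : Measurable g) (hh : Measurable h)
    {M : ℝ≥0∞} (hM : M ≠ ∞) (hfM : ∀ x, f x ≤ M) (hgM : ∀ x, g x ≤ M)
    (hfgh : ∀ x y, f x ^ (1 - l) * g y ^ l ≤ h ((1 - l) • x + l • y)) :
    (∫⁻ x, f x) ^ (1 - l) * (∫⁻ x, g x) ^ l ≤ ∫⁻ x, h x := by
  have hl0' : (0:ℝ) < 1 - l := by linarith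
  set a := ⨆ x, f x with ha
  set b := ⨆ x, g x with hb
  have haM : a ≠ ∞ := ne_top_of_le_ne_top hM (iSup_le hfM)
  have hbM : b ≠ ∞ := ne_top_of_le_ne_top hM (iSup_le hgM)
  have hfa : ∀ x, f x ≤ a := fun x => le_iSup f x
  have hgb : ∀ x, g x ≤ b := fun x => le_iSup g x
  rcases eq_or_ne a 0 with ha0 | ha0
  · have : ∀ x, f x = 0 := fun x => le_antisymm ((hfa x).trans ha0.le) zero_le
    simp [this, ENNReal.zero_rpow_of_pos hl0']
  rcases eq_or_ne b 0 with hb0 | hb0
  · have : ∀ x, g x = 0 := fun x => le_antisymm ((hgb x).trans hb0.le) zero_le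
    simp [this, ENNReal.zero_rpow_of_pos hl0]
  set c := a ^ (1 - l) * b ^ l with hc
  have hc0 : c ≠ 0 := mul_ne_zero (by simp [ENNReal.rpow_eq_zero_iff, ha0, haM])
    (by simp [ENNReal.rpow_eq_zero_iff, hb0, hbM])
  have hcT : c ≠ ∞ := ENNReal.mul_ne_top (ENNReal.rpow_ne_top_of_nonneg hl0'.le haM)
    (ENNReal.rpow_ne_top_of_nonneg hl0.le hbM)
  have fin1 : ∀ x, f x / a ≤ 1 := fun x => ENNReal.div_le_of_le_mul (by simpa using hfa x)
  have fin2 : ∀ x, g x / b ≤ 1 := fun x => ENNReal.div_le_of_le_mul (by simpa using hgb x)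
  have fin3 : ∀ x, min (h x) c / c ≤ 1 := fun x =>
    ENNReal.div_le_of_le_mul (by simp)
  have key := pl1_norm (f := fun x => (f x / a).toReal) (g := fun x => (g x / b).toReal)
    (h := fun x => (min (h x) c / c).toReal) hl0 hl1
    (hf.div_const a).ennreal_toReal (hg.div_const b).ennreal_toReal
    ((hh.min measurable_const).div_const c).ennreal_toReal
    (fun x => ENNReal.toReal_nonneg) (fun x => ENNReal.toReal_nonneg)
    (fun x => ENNReal.toReal_nonneg)
    (fun x => ENNReal.toReal_le_of_le_ofReal zero_le_one (by simpa using fin1 x))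
    (fun x => ENNReal.toReal_le_of_le_ofReal zero_le_one (by simpa using fin2 x))
    ?_ ?_ ?_
  · have r1 : ∀ x, ENNReal.ofReal ((f x / a).toReal) = f x / a := fun x =>
      ENNReal.ofReal_toReal (ne_top_of_le_ne_top ENNReal.one_ne_top (fin1 x))
    have r2 : ∀ x, ENNReal.ofReal ((g x / b).toReal) = g x / b := fun x =>
      ENNReal.ofReal_toReal (ne_top_of_le_ne_top ENNReal.one_ne_top (fin2 x))
    have r3 : ∀ x, ENNReal.ofReal ((min (h x) c / c).toReal) = min (h x) c / c := fun x =>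
      ENNReal.ofReal_toReal (ne_top_of_le_ne_top ENNReal.one_ne_top (fin3 x))
    simp only [r1, r2, r3] at key
    have i1 : ∫⁻ x, f x = a * ∫⁻ x, f x / a := by
      rw [← lintegral_const_mul _ (hf.div_const a)]
      congr 1; ext x; rw [ENNReal.mul_div_cancel ha0 haM]
    have i2 : ∫⁻ x, g x = b * ∫⁻ x, g x / b := by
      rw [← lintegral_const_mul _ (hg.div_const b)]
      congr 1; ext x; rw [ENNReal.mul_div_cancel hb0 hbM]
    calc (∫⁻ x, f x) ^ (1 - l) * (∫⁻ x, g x) ^ l
        = c * ((∫⁻ x, f x / a) ^ (1 - l) * (∫⁻ x, g x / b) ^ l) := by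
          rw [i1, i2, ENNReal.mul_rpow_of_nonneg _ _ hl0'.le, ENNReal.mul_rpow_of_nonneg _ _ hl0.le,
            hc]; ring
      _ ≤ c * (ENNReal.ofReal (1 - l) * (∫⁻ x, f x / a) + ENNReal.ofReal l * (∫⁻ x, g x / b)) := by
          gcongr; exact geom_le_arith _ _ hl0 hl1
      _ ≤ c * ∫⁻ x, min (h x) c / c := by gcongr
      _ = ∫⁻ x, min (h x) c := by
          rw [← lintegral_const_mul _ ((hh.min measurable_const).div_const c)]
          congr 1; ext x; rw [ENNReal.mul_div_cancel hc0 hcT]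
      _ ≤ ∫⁻ x, h x := lintegral_mono fun x => min_le_left _ _
  · intro t ht
    rcases lt_or_ge t 0 with ht0 | ht0
    · exact ⟨0, ht0.trans_le ENNReal.toReal_nonneg⟩
    have : ENNReal.ofReal t * a < a := by
      conv_rhs => rw [← one_mul a]
      exact ENNReal.mul_lt_mul_left ha0 haM (by simpa using ht)
    obtain ⟨x, hx⟩ := lt_iSup_iff.mp this
    refine ⟨x, ?_⟩
    rw [← ENNReal.ofReal_lt_iff_lt_toReal ht0 (ne_top_of_le_ne_top ENNReal.one_ne_top (fin1 x))]
    rwa [ENNReal.lt_div_iff_mul_lt (Or.inl ha0) (Or.inl haM)]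
  · intro t ht
    rcases lt_or_ge t 0 with ht0 | ht0
    · exact ⟨0, ht0.trans_le ENNReal.toReal_nonneg⟩
    have : ENNReal.ofReal t * b < b := by
      conv_rhs => rw [← one_mul b]
      exact ENNReal.mul_lt_mul_left hb0 hbM (by simpa using ht)
    obtain ⟨x, hx⟩ := lt_iSup_iff.mp this
    refine ⟨x, ?_⟩
    rw [← ENNReal.ofReal_lt_iff_lt_toReal ht0 (ne_top_of_le_ne_top ENNReal.one_ne_top (fin2 x))]
    rwa [ENNReal.lt_div_iff_mul_lt (Or.inl hb0) (Or.inl hbM)]
  · intro x y
    simp only [ENNReal.toReal_rpow, ← ENNReal.toReal_mul]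
    refine ENNReal.toReal_mono (ne_top_of_le_ne_top ENNReal.one_ne_top (fin3 _)) ?_
    rw [ENNReal.div_rpow_of_nonneg _ _ hl0'.le, ENNReal.div_rpow_of_nonneg _ _ hl0.le]
    have : f x ^ (1 - l) / a ^ (1 - l) * (g y ^ l / b ^ l) = f x ^ (1 - l) * g y ^ l / c := by
      rw [hc, div_eq_mul_inv, div_eq_mul_inv, div_eq_mul_inv, ENNReal.mul_inv
        (Or.inr (ENNReal.rpow_ne_top_of_nonneg hl0.le hbM))
        (Or.inl (ENNReal.rpow_ne_top_of_nonneg hl0'.le haM))]
      ring
    rw [this]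
    gcongr
    refine le_min ?_ ?_
    · have := hfgh x y
      simpa [smul_eq_mul] using this
    · rw [hc]
      gcongr
      · exact hfa x
      · exact hgb y


open Filter Topology in
lemma pl_real : PL (volume : Measure ℝ) := by
  intro l hl0 hl1 f g h hf hg hh hfgh
  have hl0' : (0:ℝ) < 1 - l := by linarith
  rcases eq_or_ne (∫⁻ x, f x) 0 with h0 | h0
  · rw [h0, ENNReal.zero_rpow_of_pos hl0', zero_mul]; exact zero_le
  rcases eq_or_ne (∫⁻ x, g x) 0 with h0' | h0'
  · rw [h0', ENNReal.zero_rpow_of_pos hl0, mul_zero]; exact zero_le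
  have lim : ∀ u : ℝ → ℝ≥0∞, Measurable u →
      Tendsto (fun n : ℕ => ∫⁻ x, min (u x) n) atTop (𝓝 (∫⁻ x, u x)) := by
    intro u hu
    refine lintegral_tendsto_of_tendsto_of_monotone
      (fun n => (hu.min measurable_const).aemeasurable) ?_ ?_
    · exact ae_of_all _ fun x m n hmn => min_le_min le_rfl (by exact_mod_cast hmn)
    · refine ae_of_all _ fun x => ?_
      have : Tendsto (fun n : ℕ => min (u x) (n : ℝ≥0∞)) atTop (𝓝 (min (u x) ∞)) :=
        tendsto_const_nhds.min ENNReal.tendsto_nat_nhds_top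
      simpa using this
  have t1 := ((ENNReal.continuous_rpow_const (y := 1 - l)).tendsto _).comp (lim f hf)
  have t2 := ((ENNReal.continuous_rpow_const (y := l)).tendsto _).comp (lim g hg)
  refine le_of_tendsto' (ENNReal.Tendsto.mul t1 (Or.inl ?_) t2 (Or.inl ?_)) fun n => ?_
  · simp only [ne_eq, ENNReal.rpow_eq_zero_iff, not_or, not_and, not_lt]
    exact ⟨fun h => absurd h h0, fun _ => hl0'.le⟩
  · simp only [ne_eq, ENNReal.rpow_eq_zero_iff, not_or, not_and, not_lt]
    exact ⟨fun h => absurd h h0', fun _ => hl0.le⟩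
  · refine pl1_bdd hl0 hl1 (hf.min measurable_const) (hg.min measurable_const) hh
      (M := n) (ENNReal.natCast_ne_top n) (fun x => min_le_right _ _) (fun x => min_le_right _ _) ?_
    intro x y
    refine le_trans ?_ (hfgh x y)
    gcongr
    · exact min_le_left _ _
    · exact min_le_left _ _

lemma PL.prod {E F : Type*} [AddCommGroup E] [Module ℝ E] [MeasurableSpace E]
    [AddCommGroup F] [Module ℝ F] [MeasurableSpace F] {μ : Measure E} {ν : Measure F}
    [SFinite μ] [SFinite ν] (hμ : PL μ) (hν : PL ν) : PL (μ.prod ν) := by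
  intro l hl0 hl1 f g h hf hg hh hfgh
  rw [lintegral_prod _ hf.aemeasurable, lintegral_prod _ hg.aemeasurable,
    lintegral_prod _ hh.aemeasurable]
  refine hμ l hl0 hl1 _ _ _ hf.lintegral_prod_right' hg.lintegral_prod_right'
    hh.lintegral_prod_right' ?_
  intro x₁ x₂
  refine hν l hl0 hl1 (fun y => f (x₁, y)) (fun y => g (x₂, y))
    (fun y => h ((1 - l) • x₁ + l • x₂, y)) (hf.comp measurable_prodMk_left)
    (hg.comp measurable_prodMk_left) (hh.comp measurable_prodMk_left) ?_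
  intro y₁ y₂
  exact hfgh (x₁, y₁) (x₂, y₂)

lemma PL.of_equiv {E F : Type*} [AddCommGroup E] [Module ℝ E] [MeasurableSpace E]
    [AddCommGroup F] [Module ℝ F] [MeasurableSpace F] {μ : Measure E} {ν : Measure F}
    (e : E ≃ᵐ F) (he : MeasurePreserving e μ ν)
    (hlin : ∀ (a b : ℝ) (x y : E), e (a • x + b • y) = a • e x + b • e y) (hν : PL ν) : PL μ := by
  intro l hl0 hl1 f g h hf hg hh hfgh
  have tr : ∀ u : E → ℝ≥0∞, Measurable u → ∫⁻ x, u x ∂μ = ∫⁻ y, u (e.symm y) ∂ν := by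
    intro u hu
    have := he.lintegral_comp (f := fun y => u (e.symm y)) (hu.comp e.symm.measurable)
    rw [← this]
    simp
  rw [tr f hf, tr g hg, tr h hh]
  refine hν l hl0 hl1 _ _ _ (hf.comp e.symm.measurable) (hg.comp e.symm.measurable)
    (hh.comp e.symm.measurable) ?_
  intro x y
  have : e.symm ((1 - l) • x + l • y) = (1 - l) • e.symm x + l • e.symm y := by
    apply e.injective
    rw [hlin]; simp
  rw [this]
  exact hfgh _ _

lemma pl_pi (n : ℕ) : PL (volume : Measure (Fin n → ℝ)) := by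
  induction n with
  | zero =>
    intro l hl0 hl1 f g h hf hg hh hfgh
    rw [Measure.volume_pi_eq_dirac (0 : Fin 0 → ℝ), lintegral_dirac' _ hf, lintegral_dirac' _ hg,
      lintegral_dirac' _ hh]
    have := hfgh 0 0
    simpa using this
  | succ n ih =>
    refine PL.of_equiv (MeasurableEquiv.piFinSuccAbove (fun _ => ℝ) 0)
      (volume_preserving_piFinSuccAbove (fun _ => ℝ) 0) ?_ (PL.prod pl_real ih)
    intro a b x y
    rfl

lemma pl_euclidean (n : ℕ) : PL (volume : Measure (EuclideanSpace ℝ (Fin n))) := by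
  refine PL.of_equiv (MeasurableEquiv.toLp 2 (Fin n → ℝ)).symm
    (EuclideanSpace.volume_preserving_symm_measurableEquiv_toLp (Fin n)) ?_ (pl_pi n)
  intro a b x y
  rfl


/-- Multiplicative Brunn–Minkowski inequality. -/
theorem bm_mult {d : ℕ} {A B C : Set (EuclideanSpace ℝ (Fin d))} (hA : MeasurableSet A)
    (hB : MeasurableSet B) (hC : MeasurableSet C) {l : ℝ} (hl0 : 0 < l) (hl1 : l < 1)
    (hsub : ∀ x ∈ A, ∀ y ∈ B, (1 - l) • x + l • y ∈ C) :
    volume A ^ (1 - l) * volume B ^ l ≤ volume C := by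
  have hl0' : (0:ℝ) < 1 - l := by linarith
  have := pl_euclidean d l hl0 hl1 (A.indicator 1) (B.indicator 1) (C.indicator 1)
    (measurable_one.indicator hA) (measurable_one.indicator hB) (measurable_one.indicator hC) ?_
  · rwa [lintegral_indicator_one hA, lintegral_indicator_one hB, lintegral_indicator_one hC] at this
  · intro x y
    by_cases hx : x ∈ A
    · by_cases hy : y ∈ B
      · simp [hx, hy, hsub x hx y hy]
      · simp [hy, ENNReal.zero_rpow_of_pos hl0]
    · simp [hx, ENNReal.zero_rpow_of_pos hl0']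

/-- Brunn–Minkowski inequality for nonempty compact sets in `ℝ^d`, `d ≥ 1`. -/
theorem bm_root {d : ℕ} (hd : d ≠ 0) {A B : Set (EuclideanSpace ℝ (Fin d))} (hA : IsCompact A)
    (hB : IsCompact B) (hAn : A.Nonempty) (hBn : B.Nonempty) {l : ℝ} (hl0 : 0 < l) (hl1 : l < 1) :
    (1 - l) * (volume A).toReal ^ (1 / (d:ℝ)) + l * (volume B).toReal ^ (1 / (d:ℝ)) ≤
      (volume ((1 - l) • A + l • B)).toReal ^ (1 / (d:ℝ)) := by
  have hl0' : (0:ℝ) < 1 - l := by linarith
  have hd' : (0:ℝ) < d := by exact_mod_cast Nat.pos_of_ne_zero hd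
  set C := (1 - l) • A + l • B with hCdef
  have hC : IsCompact C := (hA.smul _).add (hB.smul _)
  have hAf : volume A ≠ ∞ := hA.measure_lt_top.ne
  have hBf : volume B ≠ ∞ := hB.measure_lt_top.ne
  have hCf : volume C ≠ ∞ := hC.measure_lt_top.ne
  set a := (volume A).toReal with ha
  set b := (volume B).toReal with hb
  have ha0 : 0 ≤ a := ENNReal.toReal_nonneg
  have hb0 : 0 ≤ b := ENNReal.toReal_nonneg
  have hroot : ∀ x : ℝ, 0 ≤ x → (x ^ (1 / (d:ℝ))) ^ d = x := by
    intro x hx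
    rw [← Real.rpow_natCast, ← Real.rpow_mul hx, one_div, inv_mul_cancel₀ hd'.ne', Real.rpow_one]
  have hroot' : ∀ x : ℝ, 0 ≤ x → (x ^ d) ^ (1 / (d:ℝ)) = x := by
    intro x hx
    rw [← Real.rpow_natCast, ← Real.rpow_mul hx, one_div, mul_inv_cancel₀ hd'.ne', Real.rpow_one]
  have hscale : ∀ (r : ℝ), 0 ≤ r → ∀ (S : Set (EuclideanSpace ℝ (Fin d))),
      (volume (r • S)).toReal = r ^ d * (volume S).toReal := by
    intro r hr S
    rw [Measure.addHaar_smul_of_nonneg _ hr, ENNReal.toReal_mul, finrank_euclideanSpace_fin,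
      ENNReal.toReal_ofReal (by positivity)]
  rcases ha0.eq_or_lt with h0 | h0
  · obtain ⟨x, hx⟩ := hAn
    have h1 : (fun z => (1 - l) • x + z) '' (l • B) ⊆ C := by
      rintro _ ⟨z, hz, rfl⟩
      exact Set.add_mem_add (Set.smul_mem_smul_set hx) hz
    have h2 : volume ((fun z => (1 - l) • x + z) '' (l • B)) = volume (l • B) := by
      rw [Set.image_add_left, measure_preimage_add]
    have h3 : l ^ d * b ≤ (volume C).toReal := by
      rw [hb, ← hscale l hl0.le B]
      exact ENNReal.toReal_mono hCf (h2 ▸ measure_mono h1)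
    rw [← h0, Real.zero_rpow (by positivity), mul_zero, zero_add]
    calc l * b ^ (1 / (d:ℝ)) = (l ^ d * b) ^ (1 / (d:ℝ)) := by
          rw [Real.mul_rpow (by positivity) hb0, hroot' l hl0.le]
      _ ≤ _ := Real.rpow_le_rpow (by positivity) h3 (by positivity)
  rcases hb0.eq_or_lt with h0' | h0'
  · obtain ⟨x, hx⟩ := hBn
    have h1 : (fun z => z + l • x) '' ((1 - l) • A) ⊆ C := by
      rintro _ ⟨z, hz, rfl⟩
      exact Set.add_mem_add hz (Set.smul_mem_smul_set hx)
    have h2 : volume ((fun z => z + l • x) '' ((1 - l) • A)) = volume ((1 - l) • A) := by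
      rw [Set.image_add_right, measure_preimage_add_right]
    have h3 : (1 - l) ^ d * a ≤ (volume C).toReal := by
      rw [ha, ← hscale (1 - l) hl0'.le A]
      exact ENNReal.toReal_mono hCf (h2 ▸ measure_mono h1)
    rw [← h0', Real.zero_rpow (by positivity), mul_zero, add_zero]
    calc (1 - l) * a ^ (1 / (d:ℝ)) = ((1 - l) ^ d * a) ^ (1 / (d:ℝ)) := by
          rw [Real.mul_rpow (by positivity) ha0, hroot' (1 - l) hl0'.le]
      _ ≤ _ := Real.rpow_le_rpow (by positivity) h3 (by positivity)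
  -- main case
  set α := a ^ (1 / (d:ℝ)) with hα
  set β := b ^ (1 / (d:ℝ)) with hβ
  have hα0 : 0 < α := Real.rpow_pos_of_pos h0 _
  have hβ0 : 0 < β := Real.rpow_pos_of_pos h0' _
  set s := (1 - l) * α + l * β with hs
  have hs0 : 0 < s := by positivity
  have hl'0 : 0 < l * β / s := by positivity
  have hl'1 : l * β / s < 1 := by
    rw [div_lt_one hs0, hs]
    have : 0 < (1 - l) * α := by positivity
    linarith
  have h1l' : 1 - l * β / s = (1 - l) * α / s := by
    field_simp; rw [hs]; ring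
  have key := bm_mult (A := α⁻¹ • A) (B := β⁻¹ • B) (C := s⁻¹ • C) (hA.smul _).measurableSet
    (hB.smul _).measurableSet (hC.smul _).measurableSet hl'0 hl'1 ?_
  · have e1 : volume (α⁻¹ • A) = 1 := by
      have : (volume (α⁻¹ • A)).toReal = 1 := by
        rw [hscale _ (by positivity) A, inv_pow, hα, hroot a ha0, ← ha, inv_mul_cancel₀ h0.ne']
      rw [← ENNReal.ofReal_toReal (hA.smul α⁻¹).measure_lt_top.ne, this]; simp
    have e2 : volume (β⁻¹ • B) = 1 := by
      have : (volume (β⁻¹ • B)).toReal = 1 := by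
        rw [hscale _ (by positivity) B, inv_pow, hβ, hroot b hb0, ← hb, inv_mul_cancel₀ h0'.ne']
      rw [← ENNReal.ofReal_toReal (hB.smul β⁻¹).measure_lt_top.ne, this]; simp
    rw [e1, e2] at key
    simp only [ENNReal.one_rpow, mul_one] at key
    have e3 : 1 ≤ (volume (s⁻¹ • C)).toReal := by
      have := ENNReal.toReal_mono (hC.smul s⁻¹).measure_lt_top.ne key
      simpa using this
    rw [hscale _ (by positivity) C, inv_pow] at e3
    have e4 : s ^ d ≤ (volume C).toReal := by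
      have hsd : 0 < s ^ d := by positivity
      calc s ^ d = s ^ d * 1 := by ring
        _ ≤ s ^ d * ((s ^ d)⁻¹ * (volume C).toReal) := by gcongr
        _ = (volume C).toReal := by field_simp
    calc s = (s ^ d) ^ (1 / (d:ℝ)) := (hroot' s hs0.le).symm
      _ ≤ _ := Real.rpow_le_rpow (by positivity) e4 (by positivity)
  · rintro _ ⟨x, hx, rfl⟩ _ ⟨y, hy, rfl⟩
    refine ⟨(1 - l) • x + l • y,
      Set.add_mem_add (Set.smul_mem_smul_set hx) (Set.smul_mem_smul_set hy), ?_⟩
    simp only [smul_add, smul_smul, h1l']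
    congr 2
    · field_simp
    · field_simp

/-- For a nonempty compact convex `K ⊆ ℝ^d` (`d ≥ 1`), `r ↦ vol(K + rB)^{1/d}` is concave on
`[0, ∞)`. -/
theorem bm_concave {d : ℕ} (hd : d ≠ 0) {K : Set (EuclideanSpace ℝ (Fin d))} (hK : IsCompact K)
    (hconv : Convex ℝ K) (hne : K.Nonempty) :
    ConcaveOn ℝ (Set.Ici (0:ℝ))
      (fun r => (volume (K + Metric.closedBall (0 : EuclideanSpace ℝ (Fin d)) r)).toReal ^
        (1 / (d:ℝ))) := by
  refine ⟨convex_Ici 0, ?_⟩
  intro x hx y hy a b ha hb hab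
  have hx' : 0 ≤ x := hx
  have hy' : 0 ≤ y := hy
  rcases ha.eq_or_lt with h0 | h0
  · rw [← h0] at hab ⊢
    have : b = 1 := by linarith
    simp [this]
  rcases hb.eq_or_lt with h0' | h0'
  · rw [← h0'] at hab ⊢
    have : a = 1 := by linarith
    simp [this]
  have hb1 : b < 1 := by linarith
  have ha1 : a = 1 - b := by linarith
  subst ha1
  have hc : ∀ r : ℝ, IsCompact (K + Metric.closedBall (0 : EuclideanSpace ℝ (Fin d)) r) :=
    fun r => hK.add (isCompact_closedBall 0 r)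
  have hn : ∀ r : ℝ, 0 ≤ r → (K + Metric.closedBall (0 : EuclideanSpace ℝ (Fin d)) r).Nonempty :=
    fun r hr => hne.add ⟨0, Metric.mem_closedBall_self hr⟩
  have := bm_root hd (hc x) (hc y) (hn x hx') (hn y hy') h0' hb1
  simp only [smul_eq_mul]
  refine this.trans (Real.rpow_le_rpow ENNReal.toReal_nonneg
    (ENNReal.toReal_mono (hc _).measure_lt_top.ne (measure_mono ?_)) (by positivity))
  rintro _ ⟨_, ⟨_, ⟨k₁, hk₁, u, hu, rfl⟩, rfl⟩, _, ⟨_, ⟨k₂, hk₂, v, hv, rfl⟩, rfl⟩, rfl⟩
  refine ⟨(1 - b) • k₁ + b • k₂, hconv hk₁ hk₂ h0.le h0'.le hab,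
    (1 - b) • u + b • v, ?_, ?_⟩
  · rw [mem_closedBall_zero_iff] at hu hv ⊢
    calc ‖(1 - b) • u + b • v‖ ≤ ‖(1 - b) • u‖ + ‖b • v‖ := norm_add_le _ _
      _ = (1 - b) * ‖u‖ + b * ‖v‖ := by
          rw [norm_smul, norm_smul, Real.norm_of_nonneg h0.le, Real.norm_of_nonneg h0'.le]
      _ ≤ (1 - b) * x + b * y := by gcongr
  · simp only [smul_add]
    abel

end Pool.Agent.Wills
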