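import Mathlib

set_option autoImplicit false
open MeasureTheory Set Metric Filter Topology
open scoped ENNReal Pointwise NNReal RealInnerProductSpace

namespace Pool.Agent.Wills

/-- volume of the unit ball of `ℝ^n`, in the form used by the frozen statement -/
noncomputable def ballVol (n : ℕ) : ℝ := Real.pi ^ ((n : ℝ) / 2) / Real.Gamma ((n : ℝ) / 2 + 1)

lemma ballVol_pos (n : ℕ) : 0 < ballVol n := by
  unfold ballVol
  have := Real.pi_pos
  have : 0 < Real.Gamma ((n : ℝ) / 2 + 1) := Real.Gamma_pos_of_pos (by positivity)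
  positivity

lemma sqrt_pi_pow (n : ℕ) : Real.sqrt Real.pi ^ n = Real.pi ^ ((n : ℝ) / 2) := by
  rw [Real.sqrt_eq_rpow, ← Real.rpow_natCast, ← Real.rpow_mul Real.pi_pos.le]
  congr 1; ring

/-- volume of closed balls in an inner product space of dimension `n` -/
lemma vol_closedBall_ips {F : Type*} [NormedAddCommGroup F] [InnerProductSpace ℝ F]
    [MeasurableSpace F] [BorelSpace F] [FiniteDimensional ℝ F] (x : F) {r : ℝ} (hr : 0 ≤ r) :
    (volume (closedBall x r)).toReal = ballVol (Module.finrank ℝ F) * r ^ (Module.finrank ℝ F) := by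
  rcases subsingleton_or_nontrivial F with hF | hF
  · have h0 : Module.finrank ℝ F = 0 := Module.finrank_zero_of_subsingleton
    have e1 : closedBall x r = univ := by
      ext y; simp [Subsingleton.elim y x, hr]
    have hv : volume (univ : Set F) = 1 := by
      let b := stdOrthonormalBasis ℝ F
      have := b.volume_parallelepiped
      have h2 : parallelepiped b = univ := by
        ext y
        simp only [mem_univ, iff_true]
        rw [mem_parallelepiped_iff]
        exact ⟨0, by simp [Set.mem_Icc], Subsingleton.elim _ _⟩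
      rwa [h2] at this
    rw [e1, hv, h0]
    simp [ballVol]
  · rw [InnerProductSpace.volume_closedBall, ENNReal.toReal_mul, ENNReal.toReal_pow,
      ENNReal.toReal_ofReal hr, ENNReal.toReal_ofReal, sqrt_pi_pow, ballVol]
    · ring
    · have : 0 < Real.Gamma ((Module.finrank ℝ F : ℝ) / 2 + 1) :=
        Real.Gamma_pos_of_pos (by positivity)
      positivity


section capsule

variable {E : Type*} [NormedAddCommGroup E] [InnerProductSpace ℝ E] [MeasurableSpace E]
  [BorelSpace E] [FiniteDimensional ℝ E]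

/-- volume of a (half-open) cylinder of height `L` and radius `t`. -/
lemma vol_cylinder (e : E) (he : ‖e‖ = 1) {L t : ℝ} (hL : 0 ≤ L) (ht : 0 ≤ t) :
    (volume {z : E | (0 ≤ ⟪z, e⟫ ∧ ⟪z, e⟫ < L) ∧ ‖z - ⟪z, e⟫ • e‖ ≤ t}).toReal =
      L * (ballVol (Module.finrank ℝ E - 1) * t ^ (Module.finrank ℝ E - 1)) := by
  set U : Submodule ℝ E := Submodule.span ℝ {e} with hU
  let φ : E ≃ᵐ U × Uᗮ := (U.orthogonalDecomposition.toHomeomorph.toMeasurableEquiv).trans
    (MeasurableEquiv.toLp 2 (U × Uᗮ)).symm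
  have hφ : MeasurePreserving φ volume volume :=
    (U.orthogonalDecomposition.measurePreserving).trans
      (WithLp.volume_preserving_symm_measurableEquiv_toLp_prod U Uᗮ)
  have hφz : ∀ z, φ z = (U.orthogonalProjectionOnto z, Uᗮ.orthogonalProjectionOnto z) := by
    intro z
    change WithLp.ofLp (U.orthogonalDecomposition z) = _
    rw [Submodule.orthogonalDecomposition_apply]
  have hφ1 : ∀ z, ((φ z).1 : E) = ⟪e, z⟫ • e := by
    intro z
    rw [hφz]
    exact Submodule.starProjection_unit_singleton ℝ he z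
  have hφ2 : ∀ z, ((φ z).2 : E) = z - ⟪e, z⟫ • e := by
    intro z
    rw [hφz]
    change Uᗮ.starProjection z = _
    rw [Submodule.starProjection_orthogonal_val, Submodule.starProjection_unit_singleton ℝ he z]
  have hset : {z : E | (0 ≤ ⟪z, e⟫ ∧ ⟪z, e⟫ < L) ∧ ‖z - ⟪z, e⟫ • e‖ ≤ t} =
      φ ⁻¹' ({u : U | 0 ≤ ⟪(u : E), e⟫ ∧ ⟪(u : E), e⟫ < L} ×ˢ closedBall (0 : Uᗮ) t) := by
    ext z
    simp only [Set.mem_ofPred_eq, mem_preimage, mem_prod, mem_closedBall_zero_iff, hφ1,
      real_inner_comm, inner_smul_right, real_inner_self_eq_norm_sq, he]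
    simp only [one_pow, mul_one, Submodule.coe_norm, hφ2]
  have hSm : MeasurableSet {u : U | 0 ≤ ⟪(u : E), e⟫ ∧ ⟪(u : E), e⟫ < L} := by
    have hm : Measurable fun u : U => ⟪(u : E), e⟫ := by fun_prop
    exact (measurableSet_le measurable_const hm).inter (measurableSet_lt hm measurable_const)
  have hS : volume {u : U | 0 ≤ ⟪(u : E), e⟫ ∧ ⟪(u : E), e⟫ < L} = ENNReal.ofReal L := by
    let f : ℝ ≃ₗᵢ[ℝ] U := LinearIsometryEquiv.toSpanUnitSingleton e he
    rw [← f.measurePreserving.measure_preimage hSm.nullMeasurableSet]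
    have : f ⁻¹' {u : U | 0 ≤ ⟪(u : E), e⟫ ∧ ⟪(u : E), e⟫ < L} = Ico 0 L := by
      ext x
      have : ((f x : U) : E) = x • e := rfl
      simp only [mem_preimage, Set.mem_ofPred_eq, this, inner_smul_left,
        real_inner_self_eq_norm_sq, he, mem_Ico]
      simp
    rw [this, Real.volume_Ico, sub_zero]
  have hfr : Module.finrank ℝ Uᗮ = Module.finrank ℝ E - 1 := by
    have h1 : Module.finrank ℝ U = 1 := by
      rw [hU]; exact finrank_span_singleton (by rintro rfl; simp at he)
    have := U.finrank_add_finrank_orthogonal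
    omega
  rw [hset, hφ.measure_preimage (hSm.prod measurableSet_closedBall).nullMeasurableSet,
    Measure.volume_eq_prod, Measure.prod_prod, hS, ENNReal.toReal_mul, ENNReal.toReal_ofReal hL,
    vol_closedBall_ips _ ht, hfr]

/-- The volume of the parallel body of a convex body containing the segment `[x, y]`. -/
lemma vol_capsule_le {K : Set E} (hK : IsCompact K) (hconv : Convex ℝ K) {x y : E} (hx : x ∈ K)
    (hy : y ∈ K) (hxy : x ≠ y) {t : ℝ} (ht : 0 ≤ t) :
    ballVol (Module.finrank ℝ E) * t ^ (Module.finrank ℝ E) +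
      ‖y - x‖ * (ballVol (Module.finrank ℝ E - 1) * t ^ (Module.finrank ℝ E - 1)) ≤
      (volume (K + closedBall (0 : E) t)).toReal := by
  set L := ‖y - x‖ with hLdef
  have hL : 0 < L := norm_pos_iff.mpr (sub_ne_zero.mpr hxy.symm)
  set e : E := L⁻¹ • (y - x) with hedef
  have he : ‖e‖ = 1 := by
    rw [hedef, norm_smul, norm_inv, Real.norm_of_nonneg hL.le, ← hLdef, inv_mul_cancel₀ hL.ne']
  have hyx : y - x = L • e := by
    rw [hedef, smul_smul, mul_inv_cancel₀ hL.ne', one_smul]
  have hee : ⟪y - x, e⟫ = L := by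
    rw [hyx, inner_smul_left, real_inner_self_eq_norm_sq, he]; simp
  set A1 : Set E := {z | z ∈ closedBall x t ∧ ⟪z - x, e⟫ < 0} with hA1
  set A2 : Set E := {z | z ∈ closedBall y t ∧ 0 ≤ ⟪z - y, e⟫} with hA2
  set A3 : Set E := {z | (0 ≤ ⟪z - x, e⟫ ∧ ⟪z - x, e⟫ < L) ∧ ‖(z - x) - ⟪z - x, e⟫ • e‖ ≤ t}
    with hA3
  set B2 : Set E := {z | z ∈ closedBall x t ∧ 0 ≤ ⟪z - x, e⟫} with hB2
  have hin : ∀ w : E, Measurable fun z : E => ⟪z - w, e⟫ := fun w => by fun_prop
  have mA1 : MeasurableSet A1 :=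
    measurableSet_closedBall.inter (measurableSet_lt (hin x) measurable_const)
  have mA2 : MeasurableSet A2 :=
    measurableSet_closedBall.inter (measurableSet_le measurable_const (hin y))
  have mB2 : MeasurableSet B2 :=
    measurableSet_closedBall.inter (measurableSet_le measurable_const (hin x))
  have mA3 : MeasurableSet A3 := by
    refine MeasurableSet.inter ((measurableSet_le measurable_const (hin x)).inter
      (measurableSet_lt (hin x) measurable_const)) ?_
    have hm3 : Measurable fun z : E => ‖(z - x) - ⟪z - x, e⟫ • e‖ := by fun_prop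
    exact measurableSet_le hm3 measurable_const
  have hfin : ∀ S : Set E, S ⊆ K + closedBall (0:E) t → volume S ≠ ∞ := fun S hS =>
    ne_top_of_le_ne_top (hK.add (isCompact_closedBall 0 t)).measure_lt_top.ne (measure_mono hS)
  have s1 : A1 ⊆ K + closedBall (0:E) t := by
    intro z hz
    refine ⟨x, hx, z - x, ?_, by simp⟩
    rw [mem_closedBall_zero_iff, ← mem_closedBall_iff_norm]; exact hz.1
  have s2 : A2 ⊆ K + closedBall (0:E) t := by
    intro z hz
    refine ⟨y, hy, z - y, ?_, by simp⟩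
    rw [mem_closedBall_zero_iff, ← mem_closedBall_iff_norm]; exact hz.1
  have s3 : A3 ⊆ K + closedBall (0:E) t := by
    rintro z ⟨⟨h0, h1⟩, h2⟩
    refine ⟨x + ⟪z - x, e⟫ • e, ?_, (z - x) - ⟪z - x, e⟫ • e, ?_, by module⟩
    · have : x + ⟪z - x, e⟫ • e = (1 - ⟪z - x, e⟫ / L) • x + (⟪z - x, e⟫ / L) • y := by
        rw [hedef, smul_smul, ← div_eq_mul_inv, smul_sub, sub_smul, one_smul]
        abel
      rw [this]
      refine hconv hx hy ?_ ?_ (by ring)
      · rw [sub_nonneg, div_le_one hL]; exact h1.le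
      · positivity
    · rwa [mem_closedBall_zero_iff]
  have d12 : Disjoint A1 A2 := by
    rw [Set.disjoint_left]
    rintro z ⟨_, h1⟩ ⟨_, h2⟩
    have : ⟪z - x, e⟫ = ⟪z - y, e⟫ + L := by
      rw [← hee, ← inner_add_left]; congr 1; abel
    linarith
  have d3 : Disjoint (A1 ∪ A2) A3 := by
    rw [Set.disjoint_left]
    rintro z (⟨_, h1⟩ | ⟨_, h1⟩) ⟨⟨h2, h3⟩, _⟩
    · linarith
    · have : ⟪z - x, e⟫ = ⟪z - y, e⟫ + L := by
        rw [← hee, ← inner_add_left]; congr 1; abel
      linarith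
  have v2 : volume A2 = volume B2 := by
    have : A2 = (fun z => z + (x - y)) ⁻¹' B2 := by
      ext z
      simp only [hA2, hB2, Set.mem_ofPred_eq, mem_preimage, mem_closedBall_iff_norm]
      have e1 : z + (x - y) - x = z - y := by abel
      rw [e1]
    rw [this, measure_preimage_add_right]
  have v3 : (volume A3).toReal = L * (ballVol (Module.finrank ℝ E - 1) *
      t ^ (Module.finrank ℝ E - 1)) := by
    rw [← vol_cylinder e he hL.le ht]
    have : A3 = (fun z => z + (-x)) ⁻¹'
        {z : E | (0 ≤ ⟪z, e⟫ ∧ ⟪z, e⟫ < L) ∧ ‖z - ⟪z, e⟫ • e‖ ≤ t} := by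
      ext z
      simp only [hA3, Set.mem_ofPred_eq, mem_preimage, ← sub_eq_add_neg]
    rw [this, measure_preimage_add_right]
  have v12 : (volume A1).toReal + (volume B2).toReal =
      ballVol (Module.finrank ℝ E) * t ^ (Module.finrank ℝ E) := by
    rw [← vol_closedBall_ips x ht]
    have hB2f : volume B2 ≠ ∞ := by rw [← v2]; exact hfin A2 s2
    rw [← ENNReal.toReal_add (hfin A1 s1) hB2f, ← measure_union _ mB2]
    · congr 2
      ext z
      simp only [hA1, hB2, mem_union, Set.mem_ofPred_eq]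
      constructor
      · rintro (h | h)
        · exact h.1
        · exact h.1
      · intro h
        rcases lt_or_ge (⟪z - x, e⟫) 0 with h' | h'
        · exact Or.inl ⟨h, h'⟩
        · exact Or.inr ⟨h, h'⟩
    · rw [Set.disjoint_left]
      rintro z ⟨_, h1⟩ ⟨_, h2⟩
      linarith
  calc ballVol (Module.finrank ℝ E) * t ^ (Module.finrank ℝ E) +
      L * (ballVol (Module.finrank ℝ E - 1) * t ^ (Module.finrank ℝ E - 1))
      = (volume A1).toReal + (volume A2).toReal + (volume A3).toReal := by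
        rw [v3, v2, ← v12]
    _ = (volume (A1 ∪ A2 ∪ A3)).toReal := by
        rw [measure_union d3 mA3, measure_union d12 mA2,
          ENNReal.toReal_add (ENNReal.add_ne_top.mpr ⟨hfin A1 s1, hfin A2 s2⟩) (hfin A3 s3),
          ENNReal.toReal_add (hfin A1 s1) (hfin A2 s2)]
    _ ≤ _ := ENNReal.toReal_mono (hfin _ subset_rfl)
        (measure_mono (union_subset (union_subset s1 s2) s3))

end capsule

lemma tendsto_lead (d : ℕ) (c : ℕ → ℝ) :
    Tendsto (fun t : ℝ => (∑ i ∈ Finset.range (d + 1), c i * t ^ (d - i)) / t ^ d) atTop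
      (𝓝 (c 0)) := by
  have h1 : (fun t : ℝ => (∑ i ∈ Finset.range (d + 1), c i * t ^ (d - i)) / t ^ d) =ᶠ[atTop]
      fun t : ℝ => ∑ i ∈ Finset.range (d + 1), c i * (t⁻¹) ^ i := by
    filter_upwards [eventually_gt_atTop (0:ℝ)] with t ht
    rw [Finset.sum_div]
    refine Finset.sum_congr rfl fun i hi => ?_
    have hi' : i ≤ d := Nat.lt_succ_iff.mp (Finset.mem_range.mp hi)
    rw [mul_div_assoc]
    congr 1
    rw [div_eq_iff (by positivity), inv_pow]
    have : t ^ d = t ^ i * t ^ (d - i) := by rw [← pow_add]; congr 1; omega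
    rw [this]; field_simp
  rw [tendsto_congr' h1]
  have h2 : Tendsto (fun t : ℝ => ∑ i ∈ Finset.range (d + 1), c i * (t⁻¹) ^ i) atTop
      (𝓝 (∑ i ∈ Finset.range (d + 1), c i * (0:ℝ) ^ i)) := by
    refine tendsto_finsetSum _ fun i _ => ?_
    exact tendsto_const_nhds.mul (tendsto_inv_atTop_zero.pow i)
  have h3 : ∑ i ∈ Finset.range (d + 1), c i * (0:ℝ) ^ i = c 0 := by
    rw [Finset.sum_range_succ']
    simp
  rwa [h3] at h2

/-- lowest-order intrinsic volumes from the Steiner formula -/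
theorem steiner_low {d : ℕ} {K : Set (EuclideanSpace ℝ (Fin d))} (hK : IsCompact K)
    (hconv : Convex ℝ K) (hne : K.Nonempty) {V : ℕ → ℝ}
    (hV : ∀ t : ℝ, 0 ≤ t → (volume (K + closedBall (0 : EuclideanSpace ℝ (Fin d)) t)).toReal =
      ∑ i ∈ Finset.range (d + 1), ballVol (d - i) * V i * t ^ (d - i)) :
    V 0 = 1 ∧ (0 < d → ∀ x ∈ K, ∀ y ∈ K, x ≠ y → ‖y - x‖ ≤ V 1) := by
  have hfr : Module.finrank ℝ (EuclideanSpace ℝ (Fin d)) = d := finrank_euclideanSpace_fin
  obtain ⟨x₀, hx₀⟩ := hne
  have hball : ∀ (x : EuclideanSpace ℝ (Fin d)) (t : ℝ), 0 ≤ t →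
      (volume (closedBall x t)).toReal = ballVol d * t ^ d := by
    intro x t ht
    rw [vol_closedBall_ips x ht, hfr]
  have hfin : ∀ t : ℝ, volume (K + closedBall (0 : EuclideanSpace ℝ (Fin d)) t) ≠ ∞ := fun t =>
    (hK.add (isCompact_closedBall 0 t)).measure_lt_top.ne
  obtain ⟨R, hR⟩ := hK.isBounded.subset_closedBall x₀
  have hR0 : 0 ≤ R := by
    have := hR hx₀
    rw [mem_closedBall, dist_self] at this; exact this
  have low : ∀ t : ℝ, 0 ≤ t → ballVol d * t ^ d ≤
      ∑ i ∈ Finset.range (d + 1), ballVol (d - i) * V i * t ^ (d - i) := by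
    intro t ht
    rw [← hV t ht, ← hball x₀ t ht]
    refine ENNReal.toReal_mono (hfin t) (measure_mono ?_)
    intro z hz
    exact ⟨x₀, hx₀, z - x₀, by rwa [mem_closedBall_zero_iff, ← mem_closedBall_iff_norm], by simp⟩
  have up : ∀ t : ℝ, 0 ≤ t → ∑ i ∈ Finset.range (d + 1), ballVol (d - i) * V i * t ^ (d - i) ≤
      ballVol d * (t + R) ^ d := by
    intro t ht
    rw [← hV t ht, ← hball x₀ (t + R) (by positivity)]
    refine ENNReal.toReal_mono (isCompact_closedBall x₀ (t + R)).measure_lt_top.ne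
      (measure_mono ?_)
    rintro _ ⟨k, hk, u, hu, rfl⟩
    have h1 := hR hk
    rw [mem_closedBall_iff_norm] at h1 ⊢
    rw [mem_closedBall_zero_iff] at hu
    calc ‖k + u - x₀‖ = ‖(k - x₀) + u‖ := by congr 1; abel
      _ ≤ ‖k - x₀‖ + ‖u‖ := norm_add_le _ _
      _ ≤ t + R := by linarith
  have hlim := tendsto_lead d (fun i => ballVol (d - i) * V i)
  simp only [Nat.sub_zero] at hlim
  have hV0 : V 0 = 1 := by
    have g1 : ballVol d ≤ ballVol d * V 0 := by
      refine ge_of_tendsto hlim ?_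
      filter_upwards [eventually_gt_atTop (0:ℝ)] with t ht
      rw [le_div_iff₀ (by positivity)]
      exact low t ht.le
    have g2 : ballVol d * V 0 ≤ ballVol d := by
      have hlim2 : Tendsto (fun t : ℝ => ballVol d * (1 + R * t⁻¹) ^ d) atTop
          (𝓝 (ballVol d * (1 + R * 0) ^ d)) :=
        tendsto_const_nhds.mul ((tendsto_const_nhds.add
          (tendsto_const_nhds.mul tendsto_inv_atTop_zero)).pow d)
      have : ballVol d * (1 + R * 0) ^ d = ballVol d := by simp
      rw [this] at hlim2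
      refine le_of_tendsto_of_tendsto hlim hlim2 ?_
      filter_upwards [eventually_gt_atTop (0:ℝ)] with t ht
      rw [div_le_iff₀ (by positivity), mul_assoc, ← mul_pow]
      have : (1 + R * t⁻¹) * t = t + R := by field_simp
      rw [this]
      exact up t ht.le
    have hb := ballVol_pos d
    have g3 : ballVol d * V 0 = ballVol d * 1 := by linarith
    exact mul_left_cancel₀ hb.ne' g3
  refine ⟨hV0, fun hd x hx y hy hxy => ?_⟩
  obtain ⟨n, rfl⟩ : ∃ n, d = n + 1 := ⟨d - 1, by omega⟩
  have hlim1 := tendsto_lead n (fun i => ballVol (n - i) * V (i + 1))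
  simp only [Nat.sub_zero, zero_add] at hlim1
  have g1 : ‖y - x‖ * ballVol n ≤ ballVol n * V 1 := by
    refine ge_of_tendsto hlim1 ?_
    filter_upwards [eventually_gt_atTop (0:ℝ)] with t ht
    rw [le_div_iff₀ (by positivity)]
    have h1 := vol_capsule_le hK hconv hx hy hxy ht.le
    rw [hfr, hV t ht.le, Finset.sum_range_succ'] at h1
    simp only [Nat.sub_zero, hV0, mul_one, Nat.add_sub_add_right, Nat.add_sub_cancel] at h1
    linarith
  have hb := ballVol_pos n
  nlinarith

end Pool.Agent.Wills
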