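import Pool.Agent.Wills.SmallAll
import Pool.Agent.Wills.BM
import Pool.Agent.Wills.LowOrder

set_option autoImplicit false

/-! Assembly: from the geometric input to the pure inequality (helper7). -/

open Finset MeasureTheory
open scoped Pointwise

namespace Pool.Agent.Wills

open Param (P Tangent al gm gm_pos gm_zero gm_one gm_add_two)

/-- the pure inequality in dimension `d` -/
def PureIneq (d : ℕ) : Prop :=
  ∀ V : ℕ → ℝ, (∀ i, i ≤ d → 0 ≤ V i) → V 0 = 1 → (1 ≤ d → 1 ≤ V 1) →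
    (1 ≤ d → ConcaveOn ℝ (Set.Ici 0)
      (fun t => (P d (fun i => kap (d - i) * V i) 1 t) ^ (1 / (d : ℝ)))) →
    ∀ G : ℝ, (∀ lam : ℝ, 0 < lam → G ≤ thetaSum lam ^ d *
      ∑ i ∈ range (d + 1), (lam / Real.pi) ^ ((i : ℝ) / 2) * V i) →
    G + (Real.pi / 2) ^ ((d : ℝ) / 2) ≤ 1 + gsum d V 2 →
    G ≤ ∑ i ∈ range (d + 1), beta d i * V i

lemma pureIneq_small (d : ℕ) (hd : d ≤ 9) : PureIneq d :=
  fun V hV h0 h1 hBM G hA hB => small_ineq d hd V hV h0 h1 hBM G hA hB

/-- nonnegativity of the Steiner coefficients -/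
def SteinerNonneg (d : ℕ) : Prop :=
  ∀ K : Set (EuclideanSpace ℝ (Fin d)), IsCompact K → Convex ℝ K → K.Nonempty →
    ∀ V : ℕ → ℝ, IsSteiner K V → ∀ i, i ≤ d → 0 ≤ V i

lemma one_le_norm_pt_sub {d : ℕ} {z w : Fin d → ℤ} (h : z ≠ w) : 1 ≤ ‖pt w - pt z‖ := by
  obtain ⟨j, hj⟩ : ∃ j, z j ≠ w j := by
    by_contra hcon
    push Not at hcon
    exact h (funext hcon)
  have h1 := PiLp.norm_apply_le (pt w - pt z) j
  refine le_trans ?_ h1
  have h2 : (pt w - pt z) j = ((w j - z j : ℤ) : ℝ) := by simp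
  rw [h2, Real.norm_eq_abs, ← Int.cast_abs]
  have h3 : 1 ≤ |w j - z j| := Int.one_le_abs (sub_ne_zero.mpr (Ne.symm hj))
  exact_mod_cast h3

theorem wills_of_pure (d : ℕ) (hpure : PureIneq d) (hpos : SteinerNonneg d)
    {K : Set (EuclideanSpace ℝ (Fin d))} (hK : IsCompact K) (hc : Convex ℝ K)
    (hne : K.Nonempty) {V : ℕ → ℝ} (hV : IsSteiner K V) :
    ((latPts K).ncard : ℝ) ≤ ∑ i ∈ range (d + 1), beta d i * V i := by
  have hVn := hpos K hK hc hne V hV
  obtain ⟨hV0, hV1⟩ := steiner_low hK hc hne (V := V) hV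
  have hbeta0 : beta d 0 = 1 := by
    rw [beta_eq (Nat.zero_le d), gm_zero, Nat.sub_zero, one_mul, div_self (gm_pos d).ne']
  have hbn : ∀ i, 0 ≤ beta d i := fun i =>
    div_nonneg (mul_nonneg (kap_pos _).le (kap_pos _).le) (kap_pos _).le
  have hH1 : 1 ≤ ∑ i ∈ range (d + 1), beta d i * V i := by
    have h := Finset.single_le_sum (f := fun i => beta d i * V i)
      (fun i hi => mul_nonneg (hbn i) (hVn i (by have := Finset.mem_range.1 hi; omega)))
      (Finset.mem_range.2 (Nat.succ_pos d))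
    simp only [hbeta0, hV0, mul_one] at h
    exact h
  have hfin := latPts_finite hK
  rcases Nat.lt_or_ge (latPts K).ncard 2 with hlt | hge
  · have : ((latPts K).ncard : ℝ) ≤ 1 := by
      have : (latPts K).ncard ≤ 1 := by omega
      exact_mod_cast this
    linarith
  · obtain ⟨z, w, hz, hw, hzw⟩ := (Set.one_lt_ncard_iff hfin).mp hge
    have h1 : 1 ≤ d → 1 ≤ V 1 := by
      intro hd
      have hne' : pt z ≠ pt w := fun h => hzw (pt_injective h)
      exact (one_le_norm_pt_sub hzw).trans (hV1 hd (pt z) hz (pt w) hw hne')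
    have hBM : 1 ≤ d → ConcaveOn ℝ (Set.Ici 0)
        (fun t => (P d (fun i => kap (d - i) * V i) 1 t) ^ (1 / (d : ℝ))) := by
      intro hd
      have h := bm_concave (by omega : d ≠ 0) hK hc hne
      refine h.congr (fun t ht => ?_)
      have ht0 : (0 : ℝ) ≤ t := ht
      simp only
      rw [hV t ht0, P]
      congr 1
      refine Finset.sum_congr rfl (fun i _ => by rw [one_pow, mul_one])
    exact hpure V hVn hV0 h1 hBM _ (fun lam hlam => boundA hK hc hne hV hlam)
      (boundB hK hc ⟨z, hz⟩ hV)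

end Pool.Agent.Wills
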