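import Pool.Agent.Wills.Steiner

set_option autoImplicit false

/-! Bound A (Gaussian kernel) for the number of integer points (helper7). -/

open Real MeasureTheory Set
open scoped RealInnerProductSpace Pointwise

namespace Pool.Agent.Wills

variable {d : ℕ}

/-- integer points of `K` -/
def latPts (K : Set (EuclideanSpace ℝ (Fin d))) : Set (Fin d → ℤ) := {z | pt z ∈ K}

lemma latPts_finite {K : Set (EuclideanSpace ℝ (Fin d))} (hK : IsCompact K) :
    (latPts K).Finite := by
  obtain ⟨R, hR⟩ := hK.isBounded.subset_closedBall (0 : EuclideanSpace ℝ (Fin d))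
  refine Set.Finite.subset (Set.finite_Icc (fun _ : Fin d => -⌈|R|⌉) (fun _ => ⌈|R|⌉)) ?_
  intro z hz
  have h1 : ‖pt z‖ ≤ R := by simpa using hR hz
  have h2 : ∀ j, |(z j : ℝ)| ≤ ⌈|R|⌉ := by
    intro j
    have := PiLp.norm_apply_le (pt z) j
    rw [pt_apply, Real.norm_eq_abs] at this
    exact (this.trans (h1.trans (le_abs_self R))).trans (Int.le_ceil _)
  rw [Set.mem_Icc]
  constructor
  · intro j
    have := (abs_le.mp (h2 j)).1
    exact_mod_cast this
  · intro j
    have := (abs_le.mp (h2 j)).2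
    exact_mod_cast this

lemma lintegral_gauss_shift {lam : ℝ} (hlam : 0 < lam) (c : EuclideanSpace ℝ (Fin d)) :
    ∫⁻ x, ENNReal.ofReal (Real.exp (-lam * ‖x - c‖ ^ 2))
      = ENNReal.ofReal ((π / lam) ^ ((d : ℝ) / 2)) := by
  rw [lintegral_sub_right_eq_self
    (fun x : EuclideanSpace ℝ (Fin d) => ENNReal.ofReal (Real.exp (-lam * ‖x‖ ^ 2))) c]
  have h := GaussianFourier.integral_rexp_neg_mul_sq_norm (V := EuclideanSpace ℝ (Fin d)) hlam
  rw [finrank_euclideanSpace, Fintype.card_fin] at h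
  have hpos : 0 < (π / lam) ^ ((d : ℝ) / 2) := by positivity
  have hint : Integrable (fun v : EuclideanSpace ℝ (Fin d) => Real.exp (-lam * ‖v‖ ^ 2)) := by
    by_contra hne
    rw [integral_undef hne] at h
    linarith
  rw [← ofReal_integral_eq_lintegral_ofReal hint
    (Filter.Eventually.of_forall (fun _ => (Real.exp_pos _).le)), h]

lemma gsum_eq {V : ℕ → ℝ} {lam : ℝ} (hlam : 0 < lam) :
    gsum d V lam = (π / lam) ^ ((d : ℝ) / 2) *
      ∑ i ∈ Finset.range (d + 1), (lam / π) ^ ((i : ℝ) / 2) * V i := by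
  rw [gsum, Finset.mul_sum]
  refine Finset.sum_congr rfl (fun i hi => ?_)
  rw [← mul_assoc]
  congr 1
  have hi' : i ≤ d := Nat.lt_succ_iff.mp (Finset.mem_range.mp hi)
  have e : lam / π = (π / lam)⁻¹ := by rw [inv_div]
  rw [e, Real.inv_rpow (by positivity), ← Real.rpow_neg (by positivity), ← Real.rpow_add (by positivity)]
  congr 1
  push_cast [hi']
  ring

/-- **Bound A.** -/
theorem boundA {K : Set (EuclideanSpace ℝ (Fin d))} (hK : IsCompact K) (hc : Convex ℝ K)
    (hne : K.Nonempty) {V : ℕ → ℝ} (hV : IsSteiner K V) {lam : ℝ} (hlam : 0 < lam) :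
    ((latPts K).ncard : ℝ) ≤ thetaSum lam ^ d *
      ∑ i ∈ Finset.range (d + 1), (lam / π) ^ ((i : ℝ) / 2) * V i := by
  have hfin := latPts_finite hK
  set A : Finset (Fin d → ℤ) := hfin.toFinset with hA
  have hcard : (latPts K).ncard = A.card := Set.ncard_eq_toFinset_card _ hfin
  have hAK : ∀ z ∈ A, pt z ∈ K := fun z hz => (hfin.mem_toFinset.mp hz)
  have hth : 0 ≤ thetaSum lam ^ d := pow_nonneg (zero_le_one.trans (one_le_thetaSum hlam)) _
  obtain ⟨hX0, hX⟩ := lintegral_gauss_infDist_aux hK hne hV hlam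
  have hc0 : 0 < (π / lam) ^ ((d : ℝ) / 2) := by positivity
  have key : ENNReal.ofReal (A.card * (π / lam) ^ ((d : ℝ) / 2))
      ≤ ENNReal.ofReal (thetaSum lam ^ d * gsum d V lam) := by
    calc ENNReal.ofReal (A.card * (π / lam) ^ ((d : ℝ) / 2))
        = ∑ z ∈ A, ∫⁻ x, ENNReal.ofReal (Real.exp (-lam * ‖x - pt z‖ ^ 2)) := by
          simp_rw [lintegral_gauss_shift hlam]
          rw [Finset.sum_const, nsmul_eq_mul, ENNReal.ofReal_mul (Nat.cast_nonneg _),
            ENNReal.ofReal_natCast]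
      _ = ∫⁻ x, ∑ z ∈ A, ENNReal.ofReal (Real.exp (-lam * ‖x - pt z‖ ^ 2)) := by
          rw [lintegral_finsetSum']
          intro z _
          refine Measurable.aemeasurable (Measurable.ennreal_ofReal ?_)
          exact (by fun_prop : Continuous (fun x : EuclideanSpace ℝ (Fin d) =>
            Real.exp (-lam * ‖x - pt z‖ ^ 2))).measurable
      _ ≤ ∫⁻ x, ENNReal.ofReal (thetaSum lam ^ d) *
            ENNReal.ofReal (Real.exp (-lam * Metric.infDist x K ^ 2)) := by
          refine lintegral_mono (fun x => ?_)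
          simp only
          rw [← ENNReal.ofReal_sum_of_nonneg (fun _ _ => (Real.exp_pos _).le),
            ← ENNReal.ofReal_mul hth]
          refine ENNReal.ofReal_le_ofReal ?_
          rw [mul_comm (thetaSum lam ^ d)]
          exact pointwiseA hK hc hne A hAK hlam x
      _ = ENNReal.ofReal (thetaSum lam ^ d * gsum d V lam) := by
          rw [lintegral_const_mul' _ _ ENNReal.ofReal_ne_top, hX, ← ENNReal.ofReal_mul hth]
  have key2 := (ENNReal.ofReal_le_ofReal_iff (mul_nonneg hth hX0)).mp key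
  rw [gsum_eq hlam] at key2
  rw [hcard]
  have : (A.card : ℝ) * (π / lam) ^ ((d : ℝ) / 2) ≤ (thetaSum lam ^ d *
      ∑ i ∈ Finset.range (d + 1), (lam / π) ^ ((i : ℝ) / 2) * V i) *
      (π / lam) ^ ((d : ℝ) / 2) := by
    refine key2.trans (le_of_eq ?_)
    ring
  exact le_of_mul_le_mul_right this hc0

end Pool.Agent.Wills
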