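import Pool.Agent.Wills.KernelA

set_option autoImplicit false

/-! Bound B' (random rounding kernel, exact vertex term) for the number of integer points
(helper7). -/

open Real MeasureTheory Set
open scoped RealInnerProductSpace Pointwise

namespace Pool.Agent.Wills

variable {d : ℕ}

lemma integral_phi : ∫ x : EuclideanSpace ℝ (Fin d), phi x = 1 := by
  rw [← (PiLp.volume_preserving_toLp (Fin d)).integral_comp
    (MeasurableEquiv.toLp 2 (Fin d → ℝ)).measurableEmbedding]
  have := integral_fintype_prod_volume_eq_prod (𝕜 := ℝ) (fun (_ : Fin d) (x : ℝ) => tent x)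
  simp only [phi]
  rw [this]
  simp [integral_tent]

lemma phi_integrable : Integrable (phi (d := d)) := by
  by_contra h
  have := integral_phi (d := d)
  rw [integral_undef h] at this
  exact zero_ne_one this

lemma lintegral_phi : ∫⁻ x : EuclideanSpace ℝ (Fin d), ENNReal.ofReal (phi x) = 1 := by
  rw [← ofReal_integral_eq_lintegral_ofReal phi_integrable
    (Filter.Eventually.of_forall (fun _ => phi_nonneg _)), integral_phi, ENNReal.ofReal_one]

lemma lintegral_phi_shift (c : EuclideanSpace ℝ (Fin d)) :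
    ∫⁻ x : EuclideanSpace ℝ (Fin d), ENNReal.ofReal (phi (x - c)) = 1 := by
  rw [lintegral_sub_right_eq_self
    (fun x : EuclideanSpace ℝ (Fin d) => ENNReal.ofReal (phi x)) c, lintegral_phi]

/-- open normal cone of the point set `A` at `v` -/
def ncone (A : Finset (Fin d → ℤ)) (v : Fin d → ℤ) : Set (EuclideanSpace ℝ (Fin d)) :=
  {u | ∀ a ∈ A, a ≠ v → ⟪pt a - pt v, u⟫ < 0}

lemma ncone_measurable (A : Finset (Fin d → ℤ)) (v : Fin d → ℤ) :
    MeasurableSet (ncone A v) := by
  have : ncone A v = ⋂ a ∈ A, {u | a ≠ v → ⟪pt a - pt v, u⟫ < 0} := by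
    ext u; simp [ncone]
  rw [this]
  refine Finset.measurableSet_biInter _ (fun a _ => ?_)
  by_cases h : a = v
  · have : {u : EuclideanSpace ℝ (Fin d) | a ≠ v → ⟪pt a - pt v, u⟫ < 0} = univ := by
      ext u; simp [h]
    rw [this]
    exact MeasurableSet.univ
  · have : {u : EuclideanSpace ℝ (Fin d) | a ≠ v → ⟪pt a - pt v, u⟫ < 0}
      = {u | ⟪pt a - pt v, u⟫ < 0} := by
      ext u; simp [h]
    rw [this]
    exact (isOpen_lt (by fun_prop) continuous_const).measurableSet

lemma ncone_disjoint (A : Finset (Fin d → ℤ)) {v w : Fin d → ℤ} (hv : v ∈ A) (hw : w ∈ A)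
    (hne : v ≠ w) : Disjoint (ncone A v) (ncone A w) := by
  rw [Set.disjoint_left]
  intro u hu hu'
  have h1 := hu w hw (Ne.symm hne)
  have h2 := hu' v hv hne
  have : ⟪pt v - pt w, u⟫ = - ⟪pt w - pt v, u⟫ := by
    rw [← inner_neg_left]; congr 1; abel
  linarith

lemma ncone_shift_disjoint (A : Finset (Fin d → ℤ)) {v w : Fin d → ℤ} (hv : v ∈ A) (hw : w ∈ A)
    (hne : v ≠ w) : Disjoint ((fun x => x - pt v) ⁻¹' ncone A v)
      ((fun x => x - pt w) ⁻¹' ncone A w) := by
  rw [Set.disjoint_left]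
  intro x hx hx'
  have h1 : ⟪pt w - pt v, x - pt v⟫ < 0 := hx w hw (Ne.symm hne)
  have h2 : ⟪pt v - pt w, x - pt w⟫ < 0 := hx' v hv hne
  have e1 : ⟪pt v - pt w, x - pt w⟫ = - ⟪pt w - pt v, x - pt w⟫ := by
    rw [← inner_neg_left]; congr 1; abel
  have e2 : ⟪pt w - pt v, x - pt v⟫ - ⟪pt w - pt v, x - pt w⟫ = ⟪pt w - pt v, pt w - pt v⟫ := by
    rw [← inner_sub_right]; congr 1; abel
  have e3 : 0 ≤ ⟪pt w - pt v, pt w - pt v⟫ := real_inner_self_nonneg
  linarith

lemma ncone_cover (A : Finset (Fin d → ℤ)) (hA : A.Nonempty) :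
    ∀ᵐ u : EuclideanSpace ℝ (Fin d), u ∈ ⋃ v ∈ A, ncone A v := by
  have h1 : ∀ a ∈ A, ∀ b ∈ A, a ≠ b →
      ∀ᵐ u : EuclideanSpace ℝ (Fin d), ⟪pt a - pt b, u⟫ ≠ 0 := by
    intro a _ b _ hab
    rw [ae_iff]
    simp only [ne_eq, not_not]
    have hne : pt a - pt b ≠ 0 := by
      intro h
      exact hab (pt_injective (sub_eq_zero.mp h))
    have : {u : EuclideanSpace ℝ (Fin d) | ⟪pt a - pt b, u⟫ = 0}
        = (LinearMap.ker (innerₛₗ ℝ (pt a - pt b)) : Set (EuclideanSpace ℝ (Fin d))) := by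
      ext u
      simp only [Set.mem_ofPred_eq, SetLike.mem_coe, LinearMap.mem_ker, innerₛₗ_apply_apply]
    rw [this]
    refine Measure.addHaar_submodule _ _ ?_
    intro htop
    have : (pt a - pt b) ∈ LinearMap.ker (innerₛₗ ℝ (pt a - pt b)) := by rw [htop]; trivial
    rw [LinearMap.mem_ker] at this
    simp only [innerₛₗ_apply_apply] at this
    exact hne (inner_self_eq_zero.mp this)
  have h2 : ∀ᵐ u : EuclideanSpace ℝ (Fin d), ∀ a ∈ A, ∀ b ∈ A, a ≠ b → ⟪pt a - pt b, u⟫ ≠ 0 := by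
    rw [Filter.eventually_all_finset]
    intro a ha
    rw [Filter.eventually_all_finset]
    intro b hb
    by_cases hab : a = b
    · simp [hab]
    · filter_upwards [h1 a ha b hb hab] with u hu _ using hu
  filter_upwards [h2] with u hu
  obtain ⟨v, hv, hmax⟩ := A.exists_max_image (fun a => ⟪pt a, u⟫) hA
  simp only [Set.mem_iUnion, exists_prop]
  refine ⟨v, hv, fun a ha hav => ?_⟩
  have h3 := hmax a ha
  have h4 := hu a ha v hv hav
  rw [inner_sub_left] at h4 ⊢
  rcases lt_or_eq_of_le h3 with h | h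
  · linarith
  · exact absurd (by rw [h]; ring) h4

lemma phi_sub_eq_zero {u : EuclideanSpace ℝ (Fin d)} {a v : Fin d → ℤ} (hne : a ≠ v)
    (h : ⟪pt a - pt v, u⟫ < 0) : phi (u - (pt a - pt v)) = 0 := by
  by_contra hphi
  have h1 : ∀ j, |u j - ((a j : ℝ) - v j)| < 1 := by
    intro j
    have : tent ((u - (pt a - pt v)) j) ≠ 0 := by
      unfold phi at hphi
      exact (Finset.prod_ne_zero_iff.mp hphi) j (Finset.mem_univ j)
    have := tent_pos_iff.mp this
    simpa using this
  have h2 : ∀ j, 0 ≤ ((a j : ℝ) - v j) * u j ∧ (a j ≠ v j → 0 < ((a j : ℝ) - v j) * u j) := by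
    intro j
    have hj := abs_lt.mp (h1 j)
    rcases lt_trichotomy (a j) (v j) with hlt | heq | hgt
    · have : (a j : ℝ) - v j ≤ -1 := by
        have : (a j : ℝ) + 1 ≤ v j := by exact_mod_cast hlt
        linarith
      have hu : u j < 0 := by linarith
      have := mul_pos_of_neg_of_neg (by linarith : (a j : ℝ) - v j < 0) hu
      exact ⟨this.le, fun _ => this⟩
    · rw [heq]; simp
    · have : 1 ≤ (a j : ℝ) - v j := by
        have : (v j : ℝ) + 1 ≤ a j := by exact_mod_cast hgt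
        linarith
      have hu : 0 < u j := by linarith
      have := mul_pos (by linarith : 0 < (a j : ℝ) - v j) hu
      exact ⟨this.le, fun _ => this⟩
  have h3 : ⟪pt a - pt v, u⟫ = ∑ j, ((a j : ℝ) - v j) * u j := by
    rw [PiLp.inner_apply]
    refine Finset.sum_congr rfl (fun j _ => ?_)
    simp
    ring
  obtain ⟨j, hj⟩ : ∃ j, a j ≠ v j := by
    by_contra hcon
    push Not at hcon
    exact hne (funext hcon)
  have h4 : 0 < ∑ j, ((a j : ℝ) - v j) * u j :=
    Finset.sum_pos' (fun j _ => (h2 j).1) ⟨j, Finset.mem_univ j, (h2 j).2 hj⟩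
  linarith

/-- **Bound B'.** -/
theorem boundB {K : Set (EuclideanSpace ℝ (Fin d))} (hK : IsCompact K) (hc : Convex ℝ K)
    (hG : (latPts K).Nonempty) {V : ℕ → ℝ} (hV : IsSteiner K V) :
    ((latPts K).ncard : ℝ) + (π / 2) ^ ((d : ℝ) / 2) ≤ 1 + gsum d V 2 := by
  have hfin := latPts_finite hK
  set A : Finset (Fin d → ℤ) := hfin.toFinset with hA
  have hcard : (latPts K).ncard = A.card := Set.ncard_eq_toFinset_card _ hfin
  have hAK : ∀ z ∈ A, pt z ∈ K := fun z hz => (hfin.mem_toFinset.mp hz)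
  have hAne : A.Nonempty := by
    obtain ⟨z, hz⟩ := hG
    exact ⟨z, hfin.mem_toFinset.mpr hz⟩
  have hne : K.Nonempty := by
    obtain ⟨z, hz⟩ := hG
    exact ⟨pt z, hz⟩
  obtain ⟨hX0, hX⟩ := lintegral_gauss_infDist_aux hK hne hV (lam := 2) (by norm_num)
  set F : EuclideanSpace ℝ (Fin d) → ENNReal := fun x => ∑ a ∈ A, ENNReal.ofReal (phi (x - pt a))
    with hF
  set D : EuclideanSpace ℝ (Fin d) → ENNReal :=
    fun x => ENNReal.ofReal (Real.exp (-2 * Metric.infDist x K ^ 2)) with hD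
  set R : (Fin d → ℤ) → Set (EuclideanSpace ℝ (Fin d)) :=
    fun v => (fun x => x - pt v) ⁻¹' ncone A v with hR
  have hRm : ∀ v, MeasurableSet (R v) := fun v =>
    (by fun_prop : Measurable (fun x : EuclideanSpace ℝ (Fin d) => x - pt v)) (ncone_measurable A v)
  set U : Set (EuclideanSpace ℝ (Fin d)) := ⋃ v ∈ A, R v with hU
  have hUm : MeasurableSet U := Finset.measurableSet_biUnion _ (fun v _ => hRm v)
  have hFD : ∀ x, F x ≤ D x := by
    intro x
    simp only [hF, hD]
    rw [← ENNReal.ofReal_sum_of_nonneg (fun _ _ => phi_nonneg _)]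
    exact ENNReal.ofReal_le_ofReal (pointwiseB hK hc hne A hAK x)
  -- total mass of F
  have hFtot : ∫⁻ x, F x = A.card := by
    simp only [hF]
    rw [lintegral_finsetSum']
    · simp_rw [lintegral_phi_shift]
      simp
    · intro z _
      refine Measurable.aemeasurable (Measurable.ennreal_ofReal ?_)
      exact (phi_continuous.comp (by fun_prop :
        Continuous (fun x : EuclideanSpace ℝ (Fin d) => x - pt z))).measurable
  -- F on U
  have hFU : ∫⁻ x in U, F x ≤ 1 := by
    rw [hU, lintegral_biUnion_finset (fun v hv w hw hvw =>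
      ncone_shift_disjoint A hv hw hvw) (fun v _ => hRm v)]
    have h1 : ∀ v ∈ A, ∫⁻ x in R v, F x = ∫⁻ u in ncone A v, ENNReal.ofReal (phi u) := by
      intro v hv
      have h2 : ∀ x ∈ R v, F x = ENNReal.ofReal (phi (x - pt v)) := by
        intro x hx
        simp only [hF]
        refine Finset.sum_eq_single_of_mem v hv (fun a ha hav => ?_)
        have h3 : ⟪pt a - pt v, x - pt v⟫ < 0 := hx a ha hav
        have h4 := phi_sub_eq_zero hav h3
        have h5 : x - pt a = x - pt v - (pt a - pt v) := by abel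
        rw [h5, h4, ENNReal.ofReal_zero]
      rw [setLIntegral_congr_fun (hRm v) h2, ← lintegral_indicator (hRm v),
        ← lintegral_indicator (ncone_measurable A v)]
      rw [← lintegral_sub_right_eq_self (fun u : EuclideanSpace ℝ (Fin d) =>
        (ncone A v).indicator (fun u => ENNReal.ofReal (phi u)) u) (pt v)]
      rfl
    rw [Finset.sum_congr rfl h1, ← lintegral_biUnion_finset (fun v hv w hw hvw =>
      ncone_disjoint A hv hw hvw) (fun v _ => ncone_measurable A v)]
    exact (setLIntegral_le_lintegral _ _).trans (le_of_eq lintegral_phi)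
  -- D on U
  have hDU : ENNReal.ofReal ((π / 2) ^ ((d : ℝ) / 2)) ≤ ∫⁻ x in U, D x := by
    rw [hU, lintegral_biUnion_finset (fun v hv w hw hvw =>
      ncone_shift_disjoint A hv hw hvw) (fun v _ => hRm v)]
    have h1 : ∀ v ∈ A, ∫⁻ u in ncone A v, ENNReal.ofReal (Real.exp (-2 * ‖u‖ ^ 2))
        ≤ ∫⁻ x in R v, D x := by
      intro v hv
      rw [← lintegral_indicator (hRm v), ← lintegral_indicator (ncone_measurable A v)]
      rw [← lintegral_sub_right_eq_self (fun u : EuclideanSpace ℝ (Fin d) =>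
        (ncone A v).indicator (fun u => ENNReal.ofReal (Real.exp (-2 * ‖u‖ ^ 2))) u) (pt v)]
      refine lintegral_mono (fun x => ?_)
      by_cases hx : x ∈ R v
      · have hx' : x - pt v ∈ ncone A v := hx
        rw [indicator_of_mem hx, indicator_of_mem hx']
        refine ENNReal.ofReal_le_ofReal (Real.exp_le_exp.mpr ?_)
        have h2 : Metric.infDist x K ≤ ‖x - pt v‖ := by
          rw [← dist_eq_norm]; exact Metric.infDist_le_dist_of_mem (hAK v hv)
        have h3 : 0 ≤ Metric.infDist x K := Metric.infDist_nonneg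
        nlinarith [pow_le_pow_left₀ h3 h2 2]
      · have hx' : x - pt v ∉ ncone A v := hx
        rw [indicator_of_notMem hx, indicator_of_notMem hx']
    refine le_trans (le_of_eq ?_) (Finset.sum_le_sum h1)
    rw [← lintegral_biUnion_finset (fun v hv w hw hvw =>
      ncone_disjoint A hv hw hvw) (fun v _ => ncone_measurable A v)]
    have h5 := lintegral_gauss_shift (d := d) (lam := 2) (by norm_num) 0
    simp only [sub_zero] at h5
    rw [← h5]
    have h6 : (⋃ v ∈ A, ncone A v) =ᵐ[volume] (univ : Set (EuclideanSpace ℝ (Fin d))) := by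
      rw [Filter.eventuallyEq_univ]
      exact ncone_cover A hAne
    rw [setLIntegral_congr h6, setLIntegral_univ]
  -- conclusion
  have hsplitF : (∫⁻ x in U, F x) + ∫⁻ x in Uᶜ, F x = ∫⁻ x, F x := lintegral_add_compl F hUm
  have hsplitD : (∫⁻ x in U, D x) + ∫⁻ x in Uᶜ, D x = ∫⁻ x, D x := lintegral_add_compl D hUm
  have hFDc : ∫⁻ x in Uᶜ, F x ≤ ∫⁻ x in Uᶜ, D x := lintegral_mono (fun x => hFD x)
  have key : ENNReal.ofReal ((A.card : ℝ) + (π / 2) ^ ((d : ℝ) / 2))
      ≤ ENNReal.ofReal (1 + gsum d V 2) := by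
    rw [ENNReal.ofReal_add (Nat.cast_nonneg _) (by positivity), ENNReal.ofReal_add zero_le_one hX0,
      ENNReal.ofReal_natCast, ENNReal.ofReal_one, ← hFtot, ← hX, ← hsplitF]
    calc (∫⁻ x in U, F x) + (∫⁻ x in Uᶜ, F x) + ENNReal.ofReal ((π / 2) ^ ((d : ℝ) / 2))
        ≤ 1 + (∫⁻ x in Uᶜ, D x) + ∫⁻ x in U, D x := by gcongr
      _ = 1 + ((∫⁻ x in U, D x) + ∫⁻ x in Uᶜ, D x) := by ring
      _ = 1 + ∫⁻ x, D x := by rw [hsplitD]
  rw [hcard]
  exact (ENNReal.ofReal_le_ofReal_iff (by positivity)).mp key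

end Pool.Agent.Wills
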