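import Mathlib

set_option autoImplicit false

/-! One-dimensional lemmas for the two kernel bounds (helper7). -/

open Real MeasureTheory

namespace Pool.Agent.Wills

lemma summable_gauss {lam : ℝ} (hlam : 0 < lam) (y : ℝ) :
    Summable (fun k : ℤ => Real.exp (-lam * (y - k) ^ 2)) := by
  have h := HurwitzKernelBounds.summable_f_int 0 (-y) (t := lam / π) (by positivity)
  refine h.congr (fun k => ?_)
  simp only [HurwitzKernelBounds.f_int, pow_zero, one_mul]
  congr 1
  field_simp
  ring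

/-- The theta value `∑ exp (-lam k^2)`. -/
noncomputable def thetaSum (lam : ℝ) : ℝ := ∑' k : ℤ, Real.exp (-lam * (k : ℝ) ^ 2)

lemma tsum_gauss_le {lam : ℝ} (hlam : 0 < lam) (y : ℝ) :
    ∑' k : ℤ, Real.exp (-lam * (y - k) ^ 2) ≤ thetaSum lam := by
  set a : ℝ := lam / π with ha_def
  have ha : 0 < a := by positivity
  have hlam' : lam = π * a := by rw [ha_def]; field_simp
  have key := Complex.tsum_exp_neg_quadratic (a := (a : ℂ)) (by simpa using ha) ((a * y : ℝ) : ℂ)
  have h1 : ∑' n : ℤ, Complex.exp (-π * (a : ℂ) * n ^ 2 + 2 * π * ((a * y : ℝ) : ℂ) * n)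
      = ((Real.exp (lam * y ^ 2) * ∑' k : ℤ, Real.exp (-lam * (y - k) ^ 2) : ℝ) : ℂ) := by
    rw [← tsum_mul_left, Complex.ofReal_tsum]
    congr 1
    ext n
    rw [← Real.exp_add, Complex.ofReal_exp, hlam']
    congr 1
    push_cast
    ring
  rw [h1] at key
  have h2 : ‖((Real.exp (lam * y ^ 2) * ∑' k : ℤ, Real.exp (-lam * (y - k) ^ 2) : ℝ) : ℂ)‖
      = Real.exp (lam * y ^ 2) * ∑' k : ℤ, Real.exp (-lam * (y - k) ^ 2) := by
    rw [Complex.norm_real, Real.norm_eq_abs, abs_of_nonneg]
    exact mul_nonneg (Real.exp_pos _).le (tsum_nonneg fun _ => (Real.exp_pos _).le)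
  have h3 : ∀ n : ℤ, ‖Complex.exp (-π / (a : ℂ) * (n + Complex.I * ((a * y : ℝ) : ℂ)) ^ 2)‖
      = Real.exp (lam * y ^ 2) * Real.exp (-π / a * (n : ℝ) ^ 2) := by
    intro n
    rw [Complex.norm_exp, ← Real.exp_add]
    congr 1
    have : (-π / (a : ℂ) * ((n : ℂ) + Complex.I * ((a * y : ℝ) : ℂ)) ^ 2)
        = ((-π / a * ((n : ℝ) ^ 2 - (a * y) ^ 2) : ℝ) : ℂ)
          + ((-π / a * (2 * n * (a * y)) : ℝ) : ℂ) * Complex.I := by
      push_cast
      ring_nf
      rw [Complex.I_sq]
      ring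
    rw [this]
    simp only [Complex.add_re, Complex.ofReal_re, Complex.mul_re, Complex.I_re, mul_zero,
      Complex.ofReal_im, Complex.I_im, mul_one, sub_self, add_zero]
    rw [hlam']
    field_simp
    ring
  have hs0 : Summable (fun n : ℤ => Real.exp (-π / a * (n : ℝ) ^ 2)) := by
    have := summable_gauss (lam := π / a) (by positivity) 0
    refine this.congr (fun n => ?_)
    congr 1
    ring
  have hs : Summable (fun n : ℤ => ‖Complex.exp (-π / (a : ℂ) *
      (n + Complex.I * ((a * y : ℝ) : ℂ)) ^ 2)‖) := by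
    refine (hs0.mul_left (Real.exp (lam * y ^ 2))).congr (fun n => (h3 n).symm)
  have h4 : ‖1 / (a : ℂ) ^ (1 / 2 : ℂ) * ∑' n : ℤ, Complex.exp (-π / (a : ℂ) *
      (n + Complex.I * ((a * y : ℝ) : ℂ)) ^ 2)‖
      ≤ (1 / a ^ (1 / 2 : ℝ)) * (Real.exp (lam * y ^ 2) *
        ∑' n : ℤ, Real.exp (-π / a * (n : ℝ) ^ 2)) := by
    rw [norm_mul]
    have e1 : ‖1 / (a : ℂ) ^ (1 / 2 : ℂ)‖ = 1 / a ^ (1 / 2 : ℝ) := by
      rw [norm_div, norm_one, Complex.norm_cpow_eq_rpow_re_of_pos ha]
      norm_num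
    rw [e1]
    refine mul_le_mul_of_nonneg_left ?_ (by positivity)
    refine (norm_tsum_le_tsum_norm hs).trans (le_of_eq ?_)
    simp_rw [h3]
    rw [tsum_mul_left]
  rw [← key, h2] at h4
  have h5 : thetaSum lam = (1 : ℝ) / a ^ (1 / 2 : ℝ) * (∑' n : ℤ, exp (-π / a * (n : ℝ) ^ 2)) := by
    rw [← Real.tsum_exp_neg_mul_int_sq ha, thetaSum]
    congr 1
    ext n
    rw [hlam']
    ring_nf
  rw [h5]
  have h6 : Real.exp (lam * y ^ 2) * ∑' k : ℤ, Real.exp (-lam * (y - k) ^ 2) ≤
      Real.exp (lam * y ^ 2) *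
        ((1 : ℝ) / a ^ (1 / 2 : ℝ) * (∑' n : ℤ, exp (-π / a * (n : ℝ) ^ 2))) := by
    refine h4.trans (le_of_eq ?_)
    ring
  exact le_of_mul_le_mul_left h6 (Real.exp_pos _)

lemma sum_gauss_le {lam : ℝ} (hlam : 0 < lam) (y : ℝ) (s : Finset ℤ) :
    ∑ k ∈ s, Real.exp (-lam * (y - k) ^ 2) ≤ thetaSum lam :=
  ((summable_gauss hlam y).sum_le_tsum s (fun _ _ => (Real.exp_pos _).le)).trans
    (tsum_gauss_le hlam y)

lemma one_le_thetaSum {lam : ℝ} (hlam : 0 < lam) : 1 ≤ thetaSum lam := by
  have := sum_gauss_le hlam 0 {0}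
  simpa using this

/-- Hoeffding's lemma for a two-point distribution. -/
lemma hoeffding_two_point {f : ℝ} (h0 : 0 ≤ f) (h1 : f ≤ 1) (u : ℝ) :
    (1 - f) * Real.exp (f * u) + f * Real.exp (-(1 - f) * u) ≤ Real.exp (u ^ 2 / 8) := by
  set μ : Measure ℝ := ENNReal.ofReal (1 - f) • Measure.dirac (0 : ℝ)
    + ENNReal.ofReal f • Measure.dirac (1 : ℝ) with hμ
  have : IsProbabilityMeasure μ := by
    constructor
    simp only [hμ, Measure.coe_add, Measure.coe_smul, Pi.add_apply, Pi.smul_apply, smul_eq_mul,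
      measure_univ, mul_one]
    rw [← ENNReal.ofReal_add (by linarith) h0]
    simp
  have hint : ∀ g : ℝ → ℝ, ∫ x, g x ∂μ = (1 - f) * g 0 + f * g 1 := by
    intro g
    rw [hμ, integral_add_measure, integral_smul_measure, integral_smul_measure,
      integral_dirac, integral_dirac, ENNReal.toReal_ofReal (by linarith),
      ENNReal.toReal_ofReal h0]
    · simp
    · refine Integrable.smul_measure ?_ (by simp)
      exact integrable_dirac (by simp)
    · refine Integrable.smul_measure ?_ (by simp)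
      exact integrable_dirac (by simp)
  have hb : ∀ᵐ x ∂μ, id x ∈ Set.Icc (0 : ℝ) 1 := by
    rw [ae_iff]
    simp only [hμ, Measure.coe_add, Measure.coe_smul, Pi.add_apply, Pi.smul_apply, smul_eq_mul]
    have hm : MeasurableSet {a : ℝ | ¬ id a ∈ Set.Icc (0 : ℝ) 1} := by
      have : {a : ℝ | ¬ id a ∈ Set.Icc (0 : ℝ) 1} = (Set.Icc (0 : ℝ) 1)ᶜ := by
        ext; simp
      rw [this]
      exact measurableSet_Icc.compl
    rw [Measure.dirac_apply' _ hm, Measure.dirac_apply' _ hm]
    simp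
  have h := ProbabilityTheory.hasSubgaussianMGF_of_mem_Icc (X := id) (μ := μ) aemeasurable_id hb
  have h2 := h.mgf_le (-u)
  simp only [ProbabilityTheory.mgf] at h2
  have hmean : ∫ x, id x ∂μ = f := by rw [hint]; simp
  rw [hmean, hint] at h2
  refine le_trans (le_of_eq ?_) (h2.trans (le_of_eq ?_))
  · simp only [id]
    congr 2 <;> congr 1 <;> ring
  · congr 1
    simp
    ring

/-- The tent function. -/
noncomputable def tent (x : ℝ) : ℝ := max 0 (1 - |x|)

lemma tent_nonneg (x : ℝ) : 0 ≤ tent x := le_max_left _ _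

lemma tent_continuous : Continuous tent := by
  unfold tent
  fun_prop

lemma tent_pos_iff {x : ℝ} : tent x ≠ 0 ↔ |x| < 1 := by
  unfold tent
  constructor
  · intro h
    by_contra hc
    exact h (max_eq_left (by linarith [not_lt.mp hc]))
  · intro h
    have : 0 < max 0 (1 - |x|) := lt_max_of_lt_right (by linarith)
    exact this.ne'

lemma sum_tent_exp_le (x nu : ℝ) (s : Finset ℤ) :
    ∑ k ∈ s, tent (x - k) * Real.exp (4 * (x - k) * nu) ≤ Real.exp (2 * nu ^ 2) := by
  set k0 : ℤ := ⌊x⌋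
  set f : ℝ := Int.fract x with hf
  have hx : x = k0 + f := (Int.floor_add_fract x).symm
  have hf0 : 0 ≤ f := Int.fract_nonneg x
  have hf1 : f < 1 := Int.fract_lt_one x
  have hsub : ∑ k ∈ s, tent (x - k) * Real.exp (4 * (x - k) * nu)
      ≤ ∑ k ∈ ({k0, k0 + 1} : Finset ℤ), tent (x - k) * Real.exp (4 * (x - k) * nu) := by
    have h1 : ∑ k ∈ s, tent (x - k) * Real.exp (4 * (x - k) * nu)
        ≤ ∑ k ∈ s ∪ {k0, k0 + 1}, tent (x - k) * Real.exp (4 * (x - k) * nu) :=
      Finset.sum_le_sum_of_subset_of_nonneg Finset.subset_union_left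
        (fun k _ _ => mul_nonneg (tent_nonneg _) (Real.exp_pos _).le)
    refine h1.trans (le_of_eq ?_)
    refine (Finset.sum_subset Finset.subset_union_right ?_).symm
    intro k _ hk
    have : tent (x - k) = 0 := by
      by_contra hne
      have := tent_pos_iff.mp hne
      rw [abs_lt] at this
      apply hk
      simp only [Finset.mem_insert, Finset.mem_singleton]
      have h3 : (k0 : ℝ) - 1 < k := by linarith [this.2]
      have h4 : (k : ℝ) < k0 + 2 := by linarith [this.1]
      have h3' : k0 - 1 < k := by exact_mod_cast h3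
      have h4' : k < k0 + 2 := by exact_mod_cast h4
      omega
    rw [this, zero_mul]
  refine hsub.trans ?_
  rw [Finset.sum_pair (by omega)]
  have e1 : x - (k0 : ℝ) = f := by linarith
  have e2 : x - ((k0 + 1 : ℤ) : ℝ) = -(1 - f) := by push_cast; linarith
  rw [e1, e2]
  have t1 : tent f = 1 - f := by
    unfold tent
    rw [abs_of_nonneg hf0]
    exact max_eq_right (by linarith)
  have t2 : tent (-(1 - f)) = f := by
    unfold tent
    rw [abs_neg, abs_of_nonneg (by linarith)]
    rw [max_eq_right (by linarith)]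
    ring
  rw [t1, t2]
  have := hoeffding_two_point hf0 hf1.le (4 * nu)
  refine le_trans (le_of_eq ?_) (this.trans (le_of_eq ?_))
  · congr 2 <;> congr 1 <;> ring
  · congr 1
    ring

lemma tent_support : Function.support tent ⊆ Set.Ioc (-1 : ℝ) 1 := by
  intro x hx
  have := abs_lt.mp (tent_pos_iff.mp hx)
  exact ⟨this.1, this.2.le⟩

lemma tent_integrable : Integrable tent := by
  refine (tent_continuous.integrable_of_hasCompactSupport ?_)
  exact HasCompactSupport.of_support_subset_isCompact isCompact_Icc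
    (tent_support.trans Set.Ioc_subset_Icc_self)

lemma integral_tent : ∫ x, tent x = 1 := by
  have h1 : ∫ x, tent x = ∫ x in (-1 : ℝ)..1, tent x := by
    rw [intervalIntegral.integral_of_le (by norm_num)]
    exact (setIntegral_eq_integral_of_forall_compl_eq_zero (fun x hx => by
      by_contra hne; exact hx (tent_support hne))).symm
  rw [h1, ← intervalIntegral.integral_add_adjacent_intervals (b := 0)
    (tent_continuous.intervalIntegrable _ _) (tent_continuous.intervalIntegrable _ _)]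
  have h2 : ∫ x in (-1 : ℝ)..0, tent x = ∫ x in (-1 : ℝ)..0, (1 + x) := by
    refine intervalIntegral.integral_congr (fun x hx => ?_)
    rw [Set.uIcc_of_le (by norm_num)] at hx
    simp only [tent]
    rw [abs_of_nonpos hx.2, max_eq_right (by linarith [hx.1])]
    ring
  have h3 : ∫ x in (0 : ℝ)..1, tent x = ∫ x in (0 : ℝ)..1, (1 - x) := by
    refine intervalIntegral.integral_congr (fun x hx => ?_)
    rw [Set.uIcc_of_le (by norm_num)] at hx
    simp only [tent]
    rw [abs_of_nonneg hx.1, max_eq_right (by linarith [hx.2])]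
  rw [h2, h3, intervalIntegral.integral_add (by simp) (by simp),
    intervalIntegral.integral_sub (by simp) (by simp)]
  simp
  norm_num

end Pool.Agent.Wills
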