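import Mathlib

set_option autoImplicit false

open MeasureTheory Set Finset

namespace Pool.Agent.Wills.Param

/-- volume of the unit `j`-ball -/
noncomputable def kap (j : ℕ) : ℝ := Real.pi ^ ((j : ℝ) / 2) / Real.Gamma ((j : ℝ) / 2 + 1)

/-- the half-integer Gamma values `Γ(j/2+1)` -/
noncomputable def gm (j : ℕ) : ℝ := Real.Gamma ((j : ℝ) / 2 + 1)

lemma gm_pos (j : ℕ) : 0 < gm j := Real.Gamma_pos_of_pos (by positivity)

lemma gm_zero : gm 0 = 1 := by simp [gm]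

lemma gm_one : gm 1 = √Real.pi / 2 := by
  have h : ((1 : ℕ) : ℝ) / 2 + 1 = 1 / 2 + 1 := by norm_num
  rw [gm, h, Real.Gamma_add_one (by norm_num), Real.Gamma_one_half_eq]; ring

lemma gm_add_two (j : ℕ) : gm (j + 2) = ((j : ℝ) / 2 + 1) * gm j := by
  have h : (((j + 2 : ℕ) : ℝ)) / 2 + 1 = ((j : ℝ) / 2 + 1) + 1 := by push_cast; ring
  rw [gm, h, Real.Gamma_add_one (by positivity), gm]

lemma kap_eq (j : ℕ) : kap j = √Real.pi ^ j / gm j := by
  rw [kap, gm, Real.rpow_div_two_eq_sqrt _ Real.pi_pos.le, Real.rpow_natCast]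

lemma kap_pos (j : ℕ) : 0 < kap j := by
  rw [kap_eq]; exact div_pos (pow_pos (Real.sqrt_pos.2 Real.pi_pos) _) (gm_pos j)

/-- moments of the exponential distribution in `√y` -/
lemma integral_exp_sqrt_pow (j : ℕ) :
    ∫ y in Ioi (0 : ℝ), Real.exp (-y) * (√y) ^ j = gm j := by
  rw [gm, Real.Gamma_eq_integral (by positivity)]
  refine setIntegral_congr_fun measurableSet_Ioi (fun y hy => ?_)
  have hy0 : (0 : ℝ) < y := hy
  congr 1
  rw [← Real.rpow_natCast, ← Real.rpow_div_two_eq_sqrt _ hy0.le]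
  congr 1; ring

lemma integrableOn_exp_sqrt_pow (j : ℕ) :
    IntegrableOn (fun y : ℝ => Real.exp (-y) * (√y) ^ j) (Ioi 0) := by
  have h := Real.GammaIntegral_convergent (s := (j : ℝ) / 2 + 1) (by positivity)
  refine h.congr_fun (fun y hy => ?_) measurableSet_Ioi
  have hy0 : (0 : ℝ) < y := hy
  simp only
  congr 1
  rw [← Real.rpow_natCast, ← Real.rpow_div_two_eq_sqrt _ hy0.le]
  congr 1; ring

/-- `J d a b = ∫₀^∞ e^{-y} (a √y + b)^d dy` -/
noncomputable def J (d : ℕ) (a b : ℝ) : ℝ :=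
  ∫ y in Ioi (0 : ℝ), Real.exp (-y) * (a * √y + b) ^ d

/-- homogeneous polynomial -/
def P (d : ℕ) (U : ℕ → ℝ) (s t : ℝ) : ℝ := ∑ i ∈ range (d + 1), U i * s ^ i * t ^ (d - i)

lemma exp_mul_P_eq (d : ℕ) (U : ℕ → ℝ) (c t y : ℝ) :
    Real.exp (-y) * P d U (c * √y) t
      = ∑ i ∈ range (d + 1), (U i * c ^ i * t ^ (d - i)) * (Real.exp (-y) * (√y) ^ i) := by
  rw [P, Finset.mul_sum]
  refine Finset.sum_congr rfl (fun i _ => ?_)
  rw [mul_pow]; ring

lemma integrableOn_exp_P (d : ℕ) (U : ℕ → ℝ) (c t : ℝ) :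
    IntegrableOn (fun y : ℝ => Real.exp (-y) * P d U (c * √y) t) (Ioi 0) := by
  simp_rw [exp_mul_P_eq]
  exact integrable_finsetSum _ (fun i _ => (integrableOn_exp_sqrt_pow i).const_mul _)

lemma integral_exp_P (d : ℕ) (U : ℕ → ℝ) (c t : ℝ) :
    ∫ y in Ioi (0 : ℝ), Real.exp (-y) * P d U (c * √y) t
      = ∑ i ∈ range (d + 1), (U i * c ^ i * t ^ (d - i)) * gm i := by
  simp_rw [exp_mul_P_eq]
  rw [integral_finsetSum _ (fun i _ => (integrableOn_exp_sqrt_pow i).const_mul _)]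
  refine Finset.sum_congr rfl (fun i _ => ?_)
  rw [integral_const_mul, integral_exp_sqrt_pow]

lemma exp_mul_P_eq' (d : ℕ) (U : ℕ → ℝ) (c s y : ℝ) :
    Real.exp (-y) * P d U s (c * √y)
      = ∑ i ∈ range (d + 1), (U i * s ^ i * c ^ (d - i)) * (Real.exp (-y) * (√y) ^ (d - i)) := by
  rw [P, Finset.mul_sum]
  refine Finset.sum_congr rfl (fun i _ => ?_)
  rw [mul_pow]; ring

lemma integrableOn_exp_P' (d : ℕ) (U : ℕ → ℝ) (c s : ℝ) :
    IntegrableOn (fun y : ℝ => Real.exp (-y) * P d U s (c * √y)) (Ioi 0) := by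
  simp_rw [exp_mul_P_eq']
  exact integrable_finsetSum _ (fun i _ => (integrableOn_exp_sqrt_pow _).const_mul _)

lemma integral_exp_P' (d : ℕ) (U : ℕ → ℝ) (c s : ℝ) :
    ∫ y in Ioi (0 : ℝ), Real.exp (-y) * P d U s (c * √y)
      = ∑ i ∈ range (d + 1), (U i * s ^ i * c ^ (d - i)) * gm (d - i) := by
  simp_rw [exp_mul_P_eq']
  rw [integral_finsetSum _ (fun i _ => (integrableOn_exp_sqrt_pow _).const_mul _)]
  refine Finset.sum_congr rfl (fun i _ => ?_)
  rw [integral_const_mul, integral_exp_sqrt_pow]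

/-- binomial coefficients as a coefficient sequence: `P d (choose) s t = (s+t)^d` -/
lemma P_choose (d : ℕ) (s t : ℝ) : P d (fun i => (d.choose i : ℝ)) s t = (s + t) ^ d := by
  rw [P, add_pow]
  exact Finset.sum_congr rfl (fun i _ => by ring)

lemma integrableOn_J (d : ℕ) (a b : ℝ) :
    IntegrableOn (fun y : ℝ => Real.exp (-y) * (a * √y + b) ^ d) (Ioi 0) := by
  have h := integrableOn_exp_P d (fun i => (d.choose i : ℝ)) a b
  simpa only [P_choose] using h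

lemma J_eq_sum (d : ℕ) (a b : ℝ) :
    J d a b = ∑ i ∈ range (d + 1), ((d.choose i : ℝ) * a ^ i * b ^ (d - i)) * gm i := by
  rw [J, ← integral_exp_P]
  simp only [P_choose]

lemma J_nonneg (d : ℕ) {a b : ℝ} (ha : 0 ≤ a) (hb : 0 ≤ b) : 0 ≤ J d a b := by
  rw [J_eq_sum]
  refine Finset.sum_nonneg (fun i _ => ?_)
  have := (gm_pos i).le
  positivity

lemma J_mono (d : ℕ) {a b a' b' : ℝ} (ha : 0 ≤ a) (hb : 0 ≤ b) (haa : a ≤ a') (hbb : b ≤ b') :
    J d a b ≤ J d a' b' := by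
  rw [J_eq_sum, J_eq_sum]
  refine Finset.sum_le_sum (fun i _ => ?_)
  have := (gm_pos i).le
  have ha' : 0 ≤ a' := ha.trans haa
  gcongr

lemma J_smul (d : ℕ) (c a b : ℝ) : J d (c * a) (c * b) = c ^ d * J d a b := by
  rw [J, J, ← integral_const_mul]
  refine setIntegral_congr_fun measurableSet_Ioi (fun y _ => ?_)
  show Real.exp (-y) * (c * a * √y + c * b) ^ d = c ^ d * (Real.exp (-y) * (a * √y + b) ^ d)
  rw [show c * a * √y + c * b = c * (a * √y + b) by ring, mul_pow]; ring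

end Pool.Agent.Wills.Param
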