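import Pool.Agent.Wills.ParamBasic

set_option autoImplicit false

open MeasureTheory Set Finset

namespace Pool.Agent.Wills.Param

lemma integral_shift (f : ℝ → ℝ) (X a : ℝ) :
    ∫ u in Ioi a, f (u + X) = ∫ v in Ioi (a + X), f v := by
  have h := (measurePreserving_add_right (volume : Measure ℝ) X).setIntegral_preimage_emb
    (measurableEmbedding_addRight X) f (Ioi (a + X))
  rw [← h, preimage_add_const_Ioi]
  congr 2; ring_nf

/-- shifted exponential integral -/
lemma integral_exp_shift_le (d : ℕ) {X : ℝ} (hX : 0 ≤ X) :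
    ∫ u in Ioi (0 : ℝ), Real.exp (-u) * √(u + X) ^ d ≤ Real.exp X * gm d := by
  have h1 : ∫ u in Ioi (0 : ℝ), Real.exp (-u) * √(u + X) ^ d
      = Real.exp X * ∫ v in Ioi X, Real.exp (-v) * √v ^ d := by
    have h2 := integral_shift (fun v => Real.exp X * (Real.exp (-v) * √v ^ d)) X 0
    rw [zero_add] at h2
    rw [← integral_const_mul, ← h2]
    refine setIntegral_congr_fun measurableSet_Ioi (fun u _ => ?_)
    show Real.exp (-u) * √(u + X) ^ d = Real.exp X * (Real.exp (-(u + X)) * √(u + X) ^ d)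
    rw [← mul_assoc, ← Real.exp_add]
    congr 2; ring
  rw [h1, ← integral_exp_sqrt_pow d]
  refine mul_le_mul_of_nonneg_left ?_ (Real.exp_pos X).le
  refine setIntegral_mono_set (integrableOn_exp_sqrt_pow d) ?_ ?_
  · exact Filter.Eventually.of_forall (fun v => by positivity)
  · exact (Ioi_subset_Ioi hX).eventuallyLE

/-- Jensen bound -/
lemma J_jensen (d : ℕ) {α β c : ℝ} (hα : 0 ≤ α) (hβ : 0 < β) (hαβ : α + β = 1) (hc : 0 < c) :
    J d (β * c) α ≤ (√β * c) ^ d * (Real.exp (α / (β * c ^ 2)) * gm d) := by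
  set B := β * c ^ 2 with hB
  have hB0 : 0 < B := by positivity
  have hX : 0 ≤ α / B := by positivity
  have hsB : √B = √β * c := by
    rw [hB, Real.sqrt_mul hβ.le, Real.sqrt_sq hc.le]
  rw [← hsB]
  refine le_trans ?_ (mul_le_mul_of_nonneg_left (integral_exp_shift_le d hX) (by positivity))
  rw [J, ← integral_const_mul]
  refine setIntegral_mono_on (integrableOn_J d _ _) ?_ measurableSet_Ioi (fun u hu => ?_)
  · -- integrability
    refine Integrable.const_mul ?_ _
    have h2 : IntegrableOn (fun v : ℝ => Real.exp (α / B) * (Real.exp (-v) * √v ^ d)) (Ioi (α / B)) :=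
      (((integrableOn_exp_sqrt_pow d).mono_set (Ioi_subset_Ioi hX))).const_mul _
    have h3 := ((measurePreserving_add_right (volume : Measure ℝ) (α / B)).integrableOn_comp_preimage
      (measurableEmbedding_addRight (α / B))).2 h2
    rw [preimage_add_const_Ioi, sub_self] at h3
    refine h3.congr_fun (fun u _ => ?_) measurableSet_Ioi
    show Real.exp (α / B) * (Real.exp (-(u + α / B)) * √(u + α / B) ^ d)
      = Real.exp (-u) * √(u + α / B) ^ d
    rw [← mul_assoc, ← Real.exp_add]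
    congr 2; ring
  · have hu0 : (0 : ℝ) < u := hu
    have h4 : β * c * √u + α ≤ √B * √(u + α / B) := by
      rw [← Real.sqrt_mul hB0.le]
      apply Real.le_sqrt_of_sq_le
      have h5 : B * (u + α / B) = B * u + α := by field_simp
      rw [h5, hB]
      have h6 : √u ^ 2 = u := Real.sq_sqrt hu0.le
      have hα' : α = 1 - β := by linarith
      have h7 : β * c ^ 2 * u + α - (β * c * √u + α) ^ 2 = α * β * (1 - c * √u) ^ 2 := by
        rw [← h6, hα', Real.sqrt_sq (Real.sqrt_nonneg u)]; ring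
      have h8 : 0 ≤ α * β * (1 - c * √u) ^ 2 := by positivity
      linarith
    calc Real.exp (-u) * (β * c * √u + α) ^ d ≤ Real.exp (-u) * (√B * √(u + α / B)) ^ d := by
          gcongr
      _ = _ := by rw [mul_pow]; ring

/-- the function `E(μ) = ∫ e^{-y+μ√y}` -/
noncomputable def EE (mu : ℝ) : ℝ := ∫ y in Ioi (0 : ℝ), Real.exp (-y + mu * √y)

lemma EE_subst (mu : ℝ) :
    EE mu = Real.exp (mu ^ 2 / 4) *
      ∫ v in Ioi (-(mu / 2)), 2 * (v + mu / 2) * Real.exp (-v ^ 2) := by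
  have h1 := integral_comp_rpow_Ioi_of_pos (g := fun y : ℝ => Real.exp (-y + mu * √y))
    (p := 2) (by norm_num)
  have h2 := integral_shift
    (fun v => Real.exp (mu ^ 2 / 4) * (2 * (v + mu / 2) * Real.exp (-v ^ 2))) (-(mu / 2)) 0
  rw [zero_add] at h2
  rw [EE, ← h1, ← integral_const_mul, ← h2]
  refine setIntegral_congr_fun measurableSet_Ioi (fun u hu => ?_)
  have hu0 : (0 : ℝ) < u := hu
  show (2 * u ^ ((2 : ℝ) - 1)) • Real.exp (-u ^ (2 : ℝ) + mu * √(u ^ (2 : ℝ)))
    = Real.exp (mu ^ 2 / 4) *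
      (2 * (u + -(mu / 2) + mu / 2) * Real.exp (-(u + -(mu / 2)) ^ 2))
  rw [show (2 : ℝ) - 1 = 1 by norm_num, Real.rpow_one, Real.rpow_two, Real.sqrt_sq hu0.le,
    smul_eq_mul]
  have h3 : Real.exp (-u ^ 2 + mu * u)
      = Real.exp (mu ^ 2 / 4) * Real.exp (-(u + -(mu / 2)) ^ 2) := by
    rw [← Real.exp_add]; congr 1; ring
  rw [h3]; ring

lemma integrable_lin_gauss (a : ℝ) :
    Integrable (fun v : ℝ => 2 * (v + a) * Real.exp (-v ^ 2)) := by
  have h1 := integrable_exp_neg_mul_sq (b := 1) one_pos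
  have h2 := integrable_mul_exp_neg_mul_sq (b := 1) one_pos
  have h3 := (h2.const_mul 2).add (h1.const_mul (2 * a))
  refine h3.congr (Filter.Eventually.of_forall (fun v => ?_))
  simp only [Pi.add_apply, neg_mul, one_mul]
  ring

lemma integral_lin_gauss (a : ℝ) :
    ∫ v in Ioi (0 : ℝ), 2 * (v + a) * Real.exp (-v ^ 2) = 1 + a * √Real.pi := by
  have h1 := (integrable_exp_neg_mul_sq (b := 1) one_pos).integrableOn (s := Ioi (0 : ℝ))
  have h2 := (integrable_mul_exp_neg_mul_sq (b := 1) one_pos).integrableOn (s := Ioi (0 : ℝ))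
  have e1 := integral_gaussian_Ioi 1
  have e2 : ∫ v in Ioi (0 : ℝ), v * Real.exp (-1 * v ^ 2) = 1 / 2 := by
    have h := integral_rpow_mul_exp_neg_rpow (p := 2) (q := 1) (by norm_num) (by norm_num)
    rw [show ((1 : ℝ) + 1) / 2 = 1 by norm_num, Real.Gamma_one, mul_one] at h
    rw [← h]
    refine setIntegral_congr_fun measurableSet_Ioi (fun u _ => ?_)
    simp only [Real.rpow_one, Real.rpow_two, neg_mul, one_mul]
  have h3 : ∀ v : ℝ, 2 * (v + a) * Real.exp (-v ^ 2)
      = 2 * (v * Real.exp (-1 * v ^ 2)) + 2 * a * Real.exp (-1 * v ^ 2) := by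
    intro v; rw [neg_mul, one_mul]; ring
  simp_rw [h3]
  rw [integral_add (h2.const_mul 2) (h1.const_mul (2 * a)), integral_const_mul, integral_const_mul,
    e1, e2, div_one]
  ring

/-- bound for `E(μ)` -/
lemma EE_le {mu : ℝ} (hmu : 0 ≤ mu) :
    EE mu ≤ Real.exp (mu ^ 2 / 4) * (1 + √Real.pi / 2 * mu + mu ^ 2 / 4) := by
  rw [EE_subst]
  refine mul_le_mul_of_nonneg_left ?_ (Real.exp_pos _).le
  have hle : -(mu / 2) ≤ 0 := by linarith
  have hint := integrable_lin_gauss (mu / 2)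
  rw [← Ioc_union_Ioi_eq_Ioi hle, setIntegral_union (Ioc_disjoint_Ioi le_rfl) measurableSet_Ioi
    hint.integrableOn hint.integrableOn, integral_lin_gauss]
  have h1 : ∫ v in Ioc (-(mu / 2)) 0, 2 * (v + mu / 2) * Real.exp (-v ^ 2)
      ≤ ∫ v in Ioc (-(mu / 2)) 0, 2 * (v + mu / 2) := by
    refine setIntegral_mono_on hint.integrableOn ?_ measurableSet_Ioc (fun v hv => ?_)
    · exact (Continuous.integrableOn_Ioc (by fun_prop))
    · have h2 : 0 ≤ 2 * (v + mu / 2) := by linarith [hv.1]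
      exact mul_le_of_le_one_right h2 (Real.exp_le_one_iff.2 (by nlinarith [sq_nonneg v]))
  have h3 : ∫ v in Ioc (-(mu / 2)) 0, 2 * (v + mu / 2) = mu ^ 2 / 4 := by
    rw [← intervalIntegral.integral_of_le hle]
    have h4 : ∀ v ∈ Set.uIcc (-(mu / 2)) 0,
        HasDerivAt (fun v : ℝ => (v + mu / 2) ^ 2) (2 * (v + mu / 2)) v := by
      intro v _
      have := ((hasDerivAt_id v).add_const (mu / 2)).fun_pow 2
      simpa using this
    rw [intervalIntegral.integral_eq_sub_of_hasDerivAt h4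
      ((by fun_prop : Continuous fun v : ℝ => 2 * (v + mu / 2)).intervalIntegrable _ _)]
    ring
  rw [h3] at h1
  linarith

lemma integrableOn_EE (mu : ℝ) :
    IntegrableOn (fun y : ℝ => Real.exp (-y + mu * √y)) (Ioi 0) := by
  -- `μ√y ≤ μ²/2 + y/2`
  have h1 : IntegrableOn (fun y : ℝ => Real.exp (mu ^ 2 / 2) * Real.exp (-(1 / 2) * y)) (Ioi 0) :=
    (integrableOn_exp_mul_Ioi (by norm_num) 0).const_mul _
  refine Integrable.mono' h1 (Continuous.aestronglyMeasurable (by fun_prop)) ?_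
  refine (ae_restrict_iff' measurableSet_Ioi).2 (Filter.Eventually.of_forall (fun y hy => ?_))
  have hy0 : (0 : ℝ) < y := hy
  rw [Real.norm_eq_abs, abs_of_pos (Real.exp_pos _), ← Real.exp_add]
  apply Real.exp_le_exp.2
  have h2 := Real.sq_sqrt hy0.le
  nlinarith [sq_nonneg (mu - √y)]

/-- tangent bound -/
lemma J_tangent (d : ℕ) {α β c : ℝ} (hα : 0 ≤ α) (hβ : 0 ≤ β) (hαβ : α + β = 1) (hc : 0 ≤ c) :
    J d (α * c) β ≤ Real.exp (-(d * α)) * EE (d * α * c) := by
  rw [J, EE, ← integral_const_mul]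
  refine setIntegral_mono_on (integrableOn_J d _ _) ((integrableOn_EE _).const_mul _)
    measurableSet_Ioi (fun y _ => ?_)
  have h1 : α * c * √y + β ≤ Real.exp (α * c * √y - α) := by
    have := Real.add_one_le_exp (α * c * √y - α)
    linarith
  have h0 : 0 ≤ α * c * √y + β := by positivity
  calc Real.exp (-y) * (α * c * √y + β) ^ d
      ≤ Real.exp (-y) * (Real.exp (α * c * √y - α)) ^ d := by gcongr
    _ = Real.exp (-(d * α)) * Real.exp (-y + d * α * c * √y) := by
        rw [← Real.exp_nat_mul, ← Real.exp_add, ← Real.exp_add]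
        congr 1; ring

lemma kap_mul_gm (d : ℕ) : kap d * gm d = √Real.pi ^ d := by
  rw [kap_eq]; field_simp [(gm_pos d).ne']

/-- closed form of the (A) side -/
lemma closedA (d : ℕ) {α β t lam th : ℝ} (hα : 0 ≤ α) (hβ : 0 < β) (hαβ : α + β = 1)
    (ht : 0 < t) (hl : 0 < lam) (hth : 0 ≤ th) :
    kap d * (th ^ d * √(lam / Real.pi) ^ d * J d (β / (t * √lam)) α *
      J d (α / √Real.pi) (β * t))
    ≤ th ^ d * √β ^ d * Real.exp (α * lam * t ^ 2 / β) * Real.exp (-(d * α)) *
      (Real.exp ((d * α / (t * √Real.pi)) ^ 2 / 4) *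
        (1 + √Real.pi / 2 * (d * α / (t * √Real.pi)) + (d * α / (t * √Real.pi)) ^ 2 / 4)) := by
  have hpi : 0 < √Real.pi := Real.sqrt_pos.2 Real.pi_pos
  have hsl : 0 < √lam := Real.sqrt_pos.2 hl
  have hk := kap_pos d
  have h1 := J_jensen d (c := 1 / (t * √lam)) hα hβ hαβ (by positivity)
  have h2 := J_tangent d (c := 1 / (t * √Real.pi)) hα hβ.le hαβ (by positivity)
  have h3 : J d (α / √Real.pi) (β * t) = t ^ d * J d (α * (1 / (t * √Real.pi))) β := by
    rw [← J_smul]; congr 1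
    · field_simp
    · ring
  have h4 := EE_le (mu := d * α * (1 / (t * √Real.pi))) (by positivity)
  have e1 : (α / (β * (1 / (t * √lam)) ^ 2)) = α * lam * t ^ 2 / β := by
    rw [div_pow, mul_pow, Real.sq_sqrt hl.le]; field_simp
  have e2 : d * α * (1 / (t * √Real.pi)) = d * α / (t * √Real.pi) := by ring
  have e3 : β * (1 / (t * √lam)) = β / (t * √lam) := by ring
  rw [e1, e3] at h1
  rw [e2] at h2 h4
  have hJ0 : 0 ≤ J d (β / (t * √lam)) α := J_nonneg d (by positivity) hα
  have hJ1 : 0 ≤ J d (α * (1 / (t * √Real.pi))) β := J_nonneg d (by positivity) hβ.le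
  have e4 : √(lam / Real.pi) ^ d * (√β * (1 / (t * √lam))) ^ d * t ^ d * √Real.pi ^ d = √β ^ d := by
    rw [← mul_pow, ← mul_pow, ← mul_pow, Real.sqrt_div hl.le]
    congr 1
    field_simp
  rw [h3]
  set M := 1 + √Real.pi / 2 * (d * α / (t * √Real.pi)) + (d * α / (t * √Real.pi)) ^ 2 / 4 with hM
  have hg := (gm_pos d).le
  calc kap d * (th ^ d * √(lam / Real.pi) ^ d * J d (β / (t * √lam)) α *
      (t ^ d * J d (α * (1 / (t * √Real.pi))) β))
      ≤ kap d * (th ^ d * √(lam / Real.pi) ^ d *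
        ((√β * (1 / (t * √lam))) ^ d * (Real.exp (α * lam * t ^ 2 / β) * gm d)) *
        (t ^ d * (Real.exp (-(d * α)) * (Real.exp ((d * α / (t * √Real.pi)) ^ 2 / 4) * M)))) := by
        gcongr
        exact h2.trans (by gcongr)
    _ = th ^ d * (√(lam / Real.pi) ^ d * (√β * (1 / (t * √lam))) ^ d * t ^ d * (kap d * gm d))
        * Real.exp (α * lam * t ^ 2 / β) * Real.exp (-(d * α)) *
        (Real.exp ((d * α / (t * √Real.pi)) ^ 2 / 4) * M) := by ring
    _ = _ := by rw [kap_mul_gm, e4]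

/-- closed form of the (B) side -/
lemma closedB (d : ℕ) {α β t : ℝ} (hα : 0 < α) (hβ : 0 ≤ β) (hαβ : α + β = 1)
    (ht : 0 < t) :
    kap d * (J d (β / (t * √2)) α * J d (α / √Real.pi) (β * t))
    ≤ √α ^ d * Real.exp (β * Real.pi * t ^ 2 / α) * Real.exp (-(d * β)) *
      (Real.exp ((d * β / (t * √2)) ^ 2 / 4) *
        (1 + √Real.pi / 2 * (d * β / (t * √2)) + (d * β / (t * √2)) ^ 2 / 4)) := by
  have hpi : 0 < √Real.pi := Real.sqrt_pos.2 Real.pi_pos
  have hk := kap_pos d
  have hαβ' : β + α = 1 := by linarith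
  have h1 := J_jensen d (c := 1 / (t * √Real.pi)) hβ hα hαβ' (by positivity)
  have h2 := J_tangent d (c := 1 / (t * √2)) hβ hα.le hαβ' (by positivity)
  have h3 : J d (α / √Real.pi) (β * t) = t ^ d * J d (α * (1 / (t * √Real.pi))) β := by
    rw [← J_smul]; congr 1
    · field_simp
    · ring
  have h4 := EE_le (mu := d * β * (1 / (t * √2))) (by positivity)
  have e1 : (β / (α * (1 / (t * √Real.pi)) ^ 2)) = β * Real.pi * t ^ 2 / α := by
    rw [div_pow, mul_pow, Real.sq_sqrt Real.pi_pos.le]; field_simp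
  have e2 : d * β * (1 / (t * √2)) = d * β / (t * √2) := by ring
  have e3 : β * (1 / (t * √2)) = β / (t * √2) := by ring
  rw [e1] at h1
  rw [e2, e3] at h2
  rw [e2] at h4
  have hJ0 : 0 ≤ J d (β / (t * √2)) α := J_nonneg d (by positivity) hα.le
  have hJ1 : 0 ≤ J d (α * (1 / (t * √Real.pi))) β := J_nonneg d (by positivity) hβ
  have e4 : (√α * (1 / (t * √Real.pi))) ^ d * t ^ d * √Real.pi ^ d = √α ^ d := by
    rw [← mul_pow, ← mul_pow]
    congr 1
    field_simp
  rw [h3]
  set M := 1 + √Real.pi / 2 * (d * β / (t * √2)) + (d * β / (t * √2)) ^ 2 / 4 with hM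
  have hg := (gm_pos d).le
  calc kap d * (J d (β / (t * √2)) α * (t ^ d * J d (α * (1 / (t * √Real.pi))) β))
      ≤ kap d * ((Real.exp (-(d * β)) * (Real.exp ((d * β / (t * √2)) ^ 2 / 4) * M)) *
        (t ^ d * ((√α * (1 / (t * √Real.pi))) ^ d *
          (Real.exp (β * Real.pi * t ^ 2 / α) * gm d)))) := by
        gcongr
        exact h2.trans (by gcongr)
    _ = ((√α * (1 / (t * √Real.pi))) ^ d * t ^ d * (kap d * gm d))
        * Real.exp (β * Real.pi * t ^ 2 / α) * Real.exp (-(d * β)) *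
        (Real.exp ((d * β / (t * √2)) ^ 2 / 4) * M) := by ring
    _ = _ := by rw [kap_mul_gm, e4]

end Pool.Agent.Wills.Param
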