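import Mathlib

set_option autoImplicit false

open Finset

namespace Pool.Agent.Wills.Param

/-- the theta sum `∑_{n∈ℤ} e^{-λ n²}` -/
noncomputable def theta (lam : ℝ) : ℝ := ∑' n : ℤ, Real.exp (-lam * (n : ℝ) ^ 2)

lemma exp_sq_le {lam : ℝ} (hl : 0 < lam) (n : ℕ) :
    Real.exp (-lam * ((n : ℝ) + 1) ^ 2) ≤ Real.exp (-lam) * Real.exp (-(3 * lam)) ^ n := by
  rw [← Real.exp_nat_mul, ← Real.exp_add]
  apply Real.exp_le_exp.2
  have h : (n : ℝ) ≤ (n : ℝ) ^ 2 := by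
    have : n ≤ n ^ 2 := Nat.le_self_pow (by norm_num) n
    exact_mod_cast this
  nlinarith

lemma summable_aux {lam : ℝ} (hl : 0 < lam) :
    Summable (fun n : ℕ => Real.exp (-lam * ((n : ℝ) + 1) ^ 2)) := by
  refine Summable.of_nonneg_of_le (fun n => (Real.exp_pos _).le) (fun n => exp_sq_le hl n) ?_
  refine (summable_geometric_of_lt_one (Real.exp_pos _).le ?_).mul_left _
  rw [Real.exp_lt_one_iff]; linarith

lemma theta_le {lam : ℝ} (hl : 0 < lam) :
    theta lam ≤ 1 + 2 * (Real.exp (-lam) / (1 - Real.exp (-(3 * lam)))) := by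
  have hr : Real.exp (-(3 * lam)) < 1 := by rw [Real.exp_lt_one_iff]; linarith
  have hs := summable_aux hl
  have h1 : ∀ n : ℕ, Real.exp (-lam * (((n : ℤ) + 1 : ℤ) : ℝ) ^ 2)
      = Real.exp (-lam * ((n : ℝ) + 1) ^ 2) := by intro n; push_cast; rfl
  have h2 : ∀ n : ℕ, Real.exp (-lam * ((-((n : ℤ) + 1) : ℤ) : ℝ) ^ 2)
      = Real.exp (-lam * ((n : ℝ) + 1) ^ 2) := by
    intro n; push_cast; congr 1; ring
  have hsum : HasSum (fun n : ℤ => Real.exp (-lam * (n : ℝ) ^ 2))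
      ((∑' n : ℕ, Real.exp (-lam * ((n : ℝ) + 1) ^ 2)) + Real.exp (-lam * ((0 : ℤ) : ℝ) ^ 2)
        + (∑' n : ℕ, Real.exp (-lam * ((n : ℝ) + 1) ^ 2))) := by
    refine HasSum.of_add_one_of_neg_add_one (f := fun n : ℤ => Real.exp (-lam * (n : ℝ) ^ 2)) ?_ ?_
    · simpa only [h1] using hs.hasSum
    · simpa only [h2] using hs.hasSum
  have hle : (∑' n : ℕ, Real.exp (-lam * ((n : ℝ) + 1) ^ 2))
      ≤ Real.exp (-lam) / (1 - Real.exp (-(3 * lam))) := by
    have hg := (summable_geometric_of_lt_one (Real.exp_pos (-(3 * lam))).le hr).mul_left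
      (Real.exp (-lam))
    refine (hs.tsum_le_tsum (fun n => exp_sq_le hl n) hg).trans (le_of_eq ?_)
    rw [tsum_mul_left, tsum_geometric_of_lt_one (Real.exp_pos _).le hr]
    rfl
  rw [theta, hsum.tsum_eq]
  simp only [Int.cast_zero, ne_eq, OfNat.ofNat_ne_zero, not_false_eq_true, zero_pow, mul_zero,
    Real.exp_zero]
  linarith

lemma theta_nonneg (lam : ℝ) : 0 ≤ theta lam := tsum_nonneg (fun _ => (Real.exp_pos _).le)

end Pool.Agent.Wills.Param
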