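import Pool.Agent.Wills.ParamClosed
import Pool.Agent.Wills.ParamTheta

set_option autoImplicit false

open MeasureTheory Set Finset

namespace Pool.Agent.Wills.Param

lemma one_sub_le_exp_series {a : ℝ} (h0 : 0 ≤ a) (h1 : a < 1) :
    1 - a ≤ Real.exp (-(a + a ^ 2 / 2 + a ^ 3 / 3 + a ^ 4 / 4)) := by
  have h := Real.hasSum_pow_div_log_of_abs_lt_one (x := a) (by rw [abs_of_nonneg h0]; exact h1)
  have h2 := sum_le_hasSum (Finset.range 4) (fun i _ => by positivity) h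
  simp only [Finset.sum_range_succ, Finset.sum_range_zero] at h2
  norm_num at h2
  have h3 : Real.log (1 - a) ≤ -(a + a ^ 2 / 2 + a ^ 3 / 3 + a ^ 4 / 4) := by linarith
  calc 1 - a = Real.exp (Real.log (1 - a)) := (Real.exp_log (by linarith)).symm
    _ ≤ _ := Real.exp_le_exp.2 h3

/-- monotone Bernoulli-type bound for the polynomial factor -/
lemma poly_le_exp {m m0 x x1 v K : ℝ} (hm0 : 0 < m0) (hm : m0 ≤ m) (hx : 0 ≤ x) (hx1 : x ≤ x1)
    (hv : 0 ≤ v) (n2 : Real.pi / 4 * (m0 * x1) ≤ v ^ 2)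
    (n3 : 1 + v + m0 * x1 / 4 ≤ Real.exp (m0 * K)) :
    1 + √Real.pi / 2 * √(m * x) + m * x / 4 ≤ Real.exp (m * K) := by
  set r := m / m0 with hr
  have hr1 : 1 ≤ r := by rw [hr, le_div_iff₀ hm0]; linarith
  have hmr : m = r * m0 := by rw [hr]; field_simp
  have hm' : 0 < m := lt_of_lt_of_le hm0 hm
  have h1 : √Real.pi / 2 * √(m * x) ≤ r * v := by
    have h2 : √Real.pi / 2 * √(m * x) = √(Real.pi / 4 * (m * x)) := by
      rw [Real.sqrt_mul (x := Real.pi / 4) (by positivity), Real.sqrt_div Real.pi_pos.le,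
        show (4 : ℝ) = 2 ^ 2 by norm_num, Real.sqrt_sq (by norm_num)]
    rw [h2]
    apply Real.sqrt_le_iff.2
    refine ⟨by positivity, ?_⟩
    have h3 : Real.pi / 4 * (m * x) ≤ r * (Real.pi / 4 * (m0 * x1)) := by
      rw [hmr]
      have : Real.pi / 4 * (r * m0 * x) ≤ Real.pi / 4 * (r * m0 * x1) := by gcongr
      linarith
    have h4 : r * v ^ 2 ≤ (r * v) ^ 2 := by nlinarith [sq_nonneg v]
    nlinarith
  have h5 : m * x / 4 ≤ r * (m0 * x1 / 4) := by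
    rw [hmr]
    have : r * m0 * x ≤ r * m0 * x1 := by gcongr
    linarith
  have hx1' : 0 ≤ x1 := hx.trans hx1
  have h6 : (0 : ℝ) ≤ v + m0 * x1 / 4 := by positivity
  have h7 := one_add_mul_self_le_rpow_one_add (s := v + m0 * x1 / 4) (by linarith) hr1
  calc 1 + √Real.pi / 2 * √(m * x) + m * x / 4 ≤ 1 + r * (v + m0 * x1 / 4) := by linarith
    _ ≤ (1 + (v + m0 * x1 / 4)) ^ r := h7
    _ ≤ (Real.exp (m0 * K)) ^ r := by
        apply Real.rpow_le_rpow (by linarith) (by linarith) (by linarith)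
    _ = Real.exp (m * K) := by
        rw [← Real.exp_mul]; congr 1; rw [hmr]; ring

/-- bound on theta for `λ = 2/s` -/
lemma theta_piece {s s1 tA : ℝ} (hs : 0 < s) (h11 : s ≤ s1) (hs1 : s1 ≤ 3 / 4)
    (n1 : 2.002 * Real.exp (-(2 / s1)) / s1 ^ 2 ≤ tA) :
    theta (2 / s) ≤ Real.exp (s ^ 2 * tA) := by
  have hs1' : 0 < s1 := lt_of_lt_of_le hs h11
  have hlam : 0 < 2 / s := by positivity
  have h1 := theta_le hlam
  -- e^{-3λ} small
  have h83 : (8 : ℝ) / 3 ≤ 2 / s := by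
    rw [le_div_iff₀ hs]; nlinarith
  have h2 : Real.exp (-(3 * (2 / s))) ≤ 0.0009 := by
    have h3 : Real.exp (-(3 * (2 / s))) ≤ Real.exp (-8) := Real.exp_le_exp.2 (by linarith)
    have h4 : Real.exp (-8) ≤ 0.0009 := by
      rw [Real.exp_neg, inv_le_comm₀ (Real.exp_pos _) (by norm_num)]
      have h5 := Real.sum_le_exp_of_nonneg (x := 8) (by norm_num) 12
      refine le_trans ?_ h5
      norm_num [Finset.sum_range_succ, Nat.factorial]
    exact h3.trans h4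
  have h6 : Real.exp (-(2 / s)) / (1 - Real.exp (-(3 * (2 / s)))) ≤ 1.001 * Real.exp (-(2 / s)) := by
    rw [div_le_iff₀ (by linarith)]
    nlinarith [Real.exp_pos (-(2 / s))]
  -- e^{-2/s} ≤ (s/s1)^2 e^{-2/s1}
  have h7 : s1 / s ≤ Real.exp (1 / s - 1 / s1) := by
    have h8 := Real.add_one_le_exp (1 / s - 1 / s1)
    have h9 : s1 / s - 1 ≤ 1 / s - 1 / s1 := by
      have : 1 / s - 1 / s1 - (s1 / s - 1) = (s1 - s) * (1 - s1) / (s * s1) := by
        field_simp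
      have h10 : 0 ≤ (s1 - s) * (1 - s1) / (s * s1) :=
        div_nonneg (mul_nonneg (by linarith) (by linarith)) (by positivity)
      linarith
    linarith
  have h11' : Real.exp (-(2 / s)) ≤ s ^ 2 * (Real.exp (-(2 / s1)) / s1 ^ 2) := by
    have h12 : (s1 / s) ^ 2 ≤ Real.exp (1 / s - 1 / s1) ^ 2 :=
      pow_le_pow_left₀ (by positivity) h7 2
    have h13 : Real.exp (1 / s - 1 / s1) ^ 2 = Real.exp (2 / s) * Real.exp (-(2 / s1)) := by
      rw [← Real.exp_nat_mul, ← Real.exp_add]; congr 1; push_cast; ring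
    rw [h13] at h12
    have h14 : Real.exp (-(2 / s)) * (s1 / s) ^ 2 ≤ Real.exp (-(2 / s1)) := by
      calc Real.exp (-(2 / s)) * (s1 / s) ^ 2
          ≤ Real.exp (-(2 / s)) * (Real.exp (2 / s) * Real.exp (-(2 / s1))) := by gcongr
        _ = Real.exp (-(2 / s1)) := by
            rw [← mul_assoc, ← Real.exp_add]; simp
    rw [div_pow] at h14
    rw [mul_div_assoc', le_div_iff₀ (by positivity)]
    have h15 : Real.exp (-(2 / s)) * (s1 ^ 2 / s ^ 2) * s ^ 2 = Real.exp (-(2 / s)) * s1 ^ 2 := by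
      field_simp
    nlinarith [mul_le_mul_of_nonneg_right h14 (sq_nonneg s)]
  have h16 : theta (2 / s) ≤ 1 + s ^ 2 * tA := by
    have h17 : 2.002 * Real.exp (-(2 / s)) ≤ s ^ 2 * tA := by
      calc 2.002 * Real.exp (-(2 / s)) ≤ 2.002 * (s ^ 2 * (Real.exp (-(2 / s1)) / s1 ^ 2)) := by
            gcongr
        _ = s ^ 2 * (2.002 * Real.exp (-(2 / s1)) / s1 ^ 2) := by ring
        _ ≤ _ := by gcongr
    linarith
  refine h16.trans ?_
  have := Real.add_one_le_exp (s ^ 2 * tA)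
  linarith

theorem pieceA {d : ℕ} {s t s0 s1 tA K v m0 : ℝ} (hd : 1 ≤ d) (hs : 0 < s) (ht : 0 < t)
    (ht2 : t ^ 2 = d * s / (2 * Real.pi)) (h01 : s0 ≤ s) (h11 : s ≤ s1) (hs0 : 0 ≤ s0)
    (hs1 : s1 ≤ 3 / 4) (hm0 : 0 < m0) (hm : m0 ≤ d * s ^ 2)
    (n1 : 2.002 * Real.exp (-(2 / s1)) / s1 ^ 2 ≤ tA)
    (hv : 0 ≤ v) (n2 : Real.pi / 4 * (m0 * (2 * s1)) ≤ v ^ 2)
    (n3 : 1 + v + m0 * (2 * s1) / 4 ≤ Real.exp (m0 * K))
    (n4 : tA - (1 + s0 ^ 2 / 2 + s0 ^ 4 / 3 + s0 ^ 6 / 4) / 2 + 1 / (Real.pi * (1 - s1 ^ 2)) - 1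
      + s1 / 2 + K ≤ 0) :
    kap d * (theta (2 / s) ^ d * √(2 / s / Real.pi) ^ d *
      J d ((1 - s ^ 2) / (t * √(2 / s))) (s ^ 2) * J d (s ^ 2 / √Real.pi) ((1 - s ^ 2) * t)) ≤ 1 := by
  have hd0 : (0 : ℝ) < d := by exact_mod_cast hd
  have hpi := Real.pi_pos
  have hs34 : s ≤ 3 / 4 := h11.trans hs1
  have hβ : 0 < 1 - s ^ 2 := by nlinarith
  have hβ1 : 0 < 1 - s1 ^ 2 := by nlinarith
  have h1 := closedA d (α := s ^ 2) (β := 1 - s ^ 2) (t := t) (lam := 2 / s) (th := theta (2 / s))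
    (by positivity) hβ (by ring) ht (by positivity) (theta_nonneg _)
  refine h1.trans ?_
  set m := (d : ℝ) * s ^ 2 with hmdef
  have hmpos : 0 < m := by positivity
  have e1 : s ^ 2 * (2 / s) * t ^ 2 / (1 - s ^ 2) = m * (1 / (Real.pi * (1 - s ^ 2))) := by
    rw [ht2, hmdef]; field_simp
  have e2 : (m / (t * √Real.pi)) ^ 2 = m * (2 * s) := by
    rw [div_pow, mul_pow t, Real.sq_sqrt hpi.le, ht2, hmdef]; field_simp
  have e3 : m / (t * √Real.pi) = √(m * (2 * s)) := by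
    rw [← e2, Real.sqrt_sq (by positivity)]
  rw [e1, e2, e3]
  -- factors
  have f1 : theta (2 / s) ^ d ≤ Real.exp (m * tA) := by
    calc theta (2 / s) ^ d ≤ Real.exp (s ^ 2 * tA) ^ d :=
          pow_le_pow_left₀ (theta_nonneg _) (theta_piece hs h11 hs1 n1) d
      _ = Real.exp (m * tA) := by rw [← Real.exp_nat_mul]; congr 1; rw [hmdef]; ring
  set L0 := 1 + s0 ^ 2 / 2 + s0 ^ 4 / 3 + s0 ^ 6 / 4 with hL0
  have f2 : √(1 - s ^ 2) ^ d ≤ Real.exp (-(m * (L0 / 2))) := by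
    have g1 := one_sub_le_exp_series (a := s ^ 2) (by positivity) (by nlinarith)
    have g2 : s ^ 2 * L0 ≤ s ^ 2 + (s ^ 2) ^ 2 / 2 + (s ^ 2) ^ 3 / 3 + (s ^ 2) ^ 4 / 4 := by
      have g3 : s0 ^ 2 ≤ s ^ 2 := by gcongr
      have g4 : s0 ^ 4 ≤ s ^ 4 := by gcongr
      have g5 : s0 ^ 6 ≤ s ^ 6 := by gcongr
      have g6 : L0 ≤ 1 + s ^ 2 / 2 + s ^ 4 / 3 + s ^ 6 / 4 := by rw [hL0]; linarith
      calc s ^ 2 * L0 ≤ s ^ 2 * (1 + s ^ 2 / 2 + s ^ 4 / 3 + s ^ 6 / 4) := by gcongr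
        _ = _ := by ring
    have g7 : √(1 - s ^ 2) ≤ Real.exp (-(s ^ 2 * L0 / 2)) := by
      apply Real.sqrt_le_iff.2
      refine ⟨(Real.exp_pos _).le, ?_⟩
      rw [← Real.exp_nat_mul]
      refine g1.trans (Real.exp_le_exp.2 ?_)
      push_cast
      linarith
    calc √(1 - s ^ 2) ^ d ≤ Real.exp (-(s ^ 2 * L0 / 2)) ^ d :=
          pow_le_pow_left₀ (Real.sqrt_nonneg _) g7 d
      _ = Real.exp (-(m * (L0 / 2))) := by rw [← Real.exp_nat_mul]; congr 1; rw [hmdef]; ring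
  have hss : s ^ 2 ≤ s1 ^ 2 := by gcongr
  have f3 : Real.exp (m * (1 / (Real.pi * (1 - s ^ 2)))) ≤ Real.exp (m * (1 / (Real.pi * (1 - s1 ^ 2)))) := by
    apply Real.exp_le_exp.2
    gcongr
  have f4 : Real.exp (m * (2 * s) / 4) ≤ Real.exp (m * (s1 / 2)) := by
    apply Real.exp_le_exp.2
    have : m * s ≤ m * s1 := by gcongr
    linarith
  have f5 := poly_le_exp (m := m) (m0 := m0) (x := 2 * s) (x1 := 2 * s1) (v := v) (K := K) hm0 hm
    (by positivity) (by linarith) hv n2 n3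
  calc theta (2 / s) ^ d * √(1 - s ^ 2) ^ d * Real.exp (m * (1 / (Real.pi * (1 - s ^ 2)))) *
        Real.exp (-m) * (Real.exp (m * (2 * s) / 4) *
          (1 + √Real.pi / 2 * √(m * (2 * s)) + m * (2 * s) / 4))
      ≤ Real.exp (m * tA) * Real.exp (-(m * (L0 / 2))) *
        Real.exp (m * (1 / (Real.pi * (1 - s1 ^ 2)))) * Real.exp (-m) *
        (Real.exp (m * (s1 / 2)) * Real.exp (m * K)) := by
        gcongr
    _ = Real.exp (m * (tA - L0 / 2 + 1 / (Real.pi * (1 - s1 ^ 2)) - 1 + s1 / 2 + K)) := by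
        rw [← Real.exp_add, ← Real.exp_add, ← Real.exp_add, ← Real.exp_add, ← Real.exp_add]
        congr 1; ring
    _ ≤ 1 := by
        apply Real.exp_le_one_iff.2
        exact mul_nonpos_of_nonneg_of_nonpos hmpos.le n4

theorem pieceB {d : ℕ} {s t β β0 β1 s1 K : ℝ} (hd : 1 ≤ d) (hs : 0 < s) (ht : 0 < t)
    (ht2 : t ^ 2 = d * s / (2 * Real.pi)) (hsβ : s ^ 2 + β = 1) (hβ : 0 ≤ β)
    (h01 : β0 ≤ β) (h11 : β ≤ β1) (hs1 : 0 < s1) (hs1' : s1 ≤ s) (hβ0 : 0 ≤ β0)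
    (n3 : 1 + √Real.pi / 2 * √(d * β * (β * Real.pi / s)) + d * β * (β * Real.pi / s) / 4
      ≤ Real.exp (d * β * K))
    (n4 : - (1 + β0 / 2 + β0 ^ 2 / 3 + β0 ^ 3 / 4) / 2 + 1 / (2 * s1) - 1
      + β1 * Real.pi / (4 * s1) + K ≤ 0) :
    kap d * (J d (β / (t * √2)) (s ^ 2) * J d (s ^ 2 / √Real.pi) (β * t)) ≤ 1 := by
  have hd0 : (0 : ℝ) < d := by exact_mod_cast hd
  have hpi := Real.pi_pos
  have hβ1 : β < 1 := by nlinarith [sq_nonneg s, mul_pos hs hs]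
  have h1 := closedB d (α := s ^ 2) (β := β) (t := t) (by positivity) hβ hsβ ht
  refine h1.trans ?_
  set c := (d : ℝ) * β with hcdef
  have hcpos : 0 ≤ c := by positivity
  have e1 : β * Real.pi * t ^ 2 / s ^ 2 = c * (1 / (2 * s)) := by
    rw [ht2, hcdef]; field_simp
  have e2 : (c / (t * √2)) ^ 2 = c * (β * Real.pi / s) := by
    rw [div_pow, mul_pow t, Real.sq_sqrt (by norm_num : (0 : ℝ) ≤ 2), ht2, hcdef]; field_simp
  have e3 : c / (t * √2) = √(c * (β * Real.pi / s)) := by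
    rw [← e2, Real.sqrt_sq (by positivity)]
  rw [e1, e2, e3]
  set L0 := 1 + β0 / 2 + β0 ^ 2 / 3 + β0 ^ 3 / 4 with hL0
  have f2 : √(s ^ 2) ^ d ≤ Real.exp (-(c * (L0 / 2))) := by
    have g1 := one_sub_le_exp_series (a := β) hβ hβ1
    have g2 : β * L0 ≤ β + β ^ 2 / 2 + β ^ 3 / 3 + β ^ 4 / 4 := by
      have g4 : β0 ^ 2 ≤ β ^ 2 := by gcongr
      have g5 : β0 ^ 3 ≤ β ^ 3 := by gcongr
      have g6 : L0 ≤ 1 + β / 2 + β ^ 2 / 3 + β ^ 3 / 4 := by rw [hL0]; linarith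
      calc β * L0 ≤ β * (1 + β / 2 + β ^ 2 / 3 + β ^ 3 / 4) := by gcongr
        _ = _ := by ring
    have hs2 : s ^ 2 = 1 - β := by linarith
    have g7 : √(s ^ 2) ≤ Real.exp (-(β * L0 / 2)) := by
      rw [hs2]
      apply Real.sqrt_le_iff.2
      refine ⟨(Real.exp_pos _).le, ?_⟩
      rw [← Real.exp_nat_mul]
      refine g1.trans (Real.exp_le_exp.2 ?_)
      push_cast
      linarith
    calc √(s ^ 2) ^ d ≤ Real.exp (-(β * L0 / 2)) ^ d :=
          pow_le_pow_left₀ (Real.sqrt_nonneg _) g7 d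
      _ = Real.exp (-(c * (L0 / 2))) := by rw [← Real.exp_nat_mul]; congr 1; rw [hcdef]; ring
  have f3 : Real.exp (c * (1 / (2 * s))) ≤ Real.exp (c * (1 / (2 * s1))) := by
    apply Real.exp_le_exp.2
    gcongr
  have f4 : Real.exp (c * (β * Real.pi / s) / 4) ≤ Real.exp (c * (β1 * Real.pi / (4 * s1))) := by
    apply Real.exp_le_exp.2
    have h5 : β * Real.pi / s ≤ β1 * Real.pi / s1 := by
      have : 0 ≤ β1 := hβ.trans h11
      gcongr
    have h6 : c * (β * Real.pi / s) ≤ c * (β1 * Real.pi / s1) := by gcongr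
    have h7 : c * (β1 * Real.pi / (4 * s1)) = c * (β1 * Real.pi / s1) / 4 := by
      field_simp
    rw [h7]; linarith
  calc √(s ^ 2) ^ d * Real.exp (c * (1 / (2 * s))) * Real.exp (-c) *
        (Real.exp (c * (β * Real.pi / s) / 4) *
          (1 + √Real.pi / 2 * √(c * (β * Real.pi / s)) + c * (β * Real.pi / s) / 4))
      ≤ Real.exp (-(c * (L0 / 2))) * Real.exp (c * (1 / (2 * s1))) * Real.exp (-c) *
        (Real.exp (c * (β1 * Real.pi / (4 * s1))) * Real.exp (c * K)) := by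
        gcongr
    _ = Real.exp (c * (-L0 / 2 + 1 / (2 * s1) - 1 + β1 * Real.pi / (4 * s1) + K)) := by
        rw [← Real.exp_add, ← Real.exp_add, ← Real.exp_add, ← Real.exp_add]
        congr 1; ring
    _ ≤ 1 := by
        apply Real.exp_le_one_iff.2
        exact mul_nonpos_of_nonneg_of_nonpos hcpos n4

end Pool.Agent.Wills.Param
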