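import Pool.Agent.Wills.ParamBasic

set_option autoImplicit false

open MeasureTheory Set Finset

namespace Pool.Agent.Wills.Param

/-- tangent property (Brunn-Minkowski type) at `(1,t)` with weights `α, β` -/
def Tangent (d : ℕ) (U : ℕ → ℝ) (t α β : ℝ) : Prop :=
  ∀ s r : ℝ, 0 < s → 0 ≤ r → P d U s r ≤ P d U 1 t * (α * s + β * (r / t)) ^ d

/-- lower bound for the right-hand side (Cauchy-Schwarz) -/
lemma lower_bound (d : ℕ) (U : ℕ → ℝ) (hU : ∀ i, i ≤ d → 0 ≤ U i) {t α β : ℝ} (ht : 0 < t)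
    (hp : 0 < P d U 1 t) (hT : Tangent d U t α β) :
    P d U 1 t ≤ (∑ i ∈ range (d + 1), kap i * U i) * J d (α / √Real.pi) (β * t) := by
  have hpi : 0 < √Real.pi := Real.sqrt_pos.2 Real.pi_pos
  have hcs : (∑ i ∈ range (d + 1), U i * t ^ (d - i)) ^ 2 ≤
      (∑ i ∈ range (d + 1), kap i * U i) *
        (∑ i ∈ range (d + 1), U i * (t ^ 2) ^ (d - i) / kap i) := by
    refine Finset.sum_sq_le_sum_mul_sum_of_sq_le_mul _ (fun i hi => ?_) (fun i hi => ?_)
      (fun i hi => le_of_eq ?_)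
    · exact mul_nonneg (kap_pos i).le (hU i (by simpa [Nat.lt_succ_iff] using hi))
    · have h1 := hU i (by simpa [Nat.lt_succ_iff] using hi)
      have h2 := kap_pos i
      positivity
    · have h2 := (kap_pos i).ne'
      field_simp
      ring
  have hint : (∑ i ∈ range (d + 1), U i * (t ^ 2) ^ (d - i) / kap i)
      = ∫ y in Ioi (0 : ℝ), Real.exp (-y) * P d U ((1 / √Real.pi) * √y) (t ^ 2) := by
    rw [integral_exp_P]
    refine Finset.sum_congr rfl (fun i _ => ?_)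
    rw [kap_eq, div_pow, one_pow]
    have h3 := (gm_pos i).ne'
    field_simp
  have hle : (∫ y in Ioi (0 : ℝ), Real.exp (-y) * P d U ((1 / √Real.pi) * √y) (t ^ 2))
      ≤ P d U 1 t * J d (α / √Real.pi) (β * t) := by
    rw [J, ← integral_const_mul]
    refine setIntegral_mono_on (integrableOn_exp_P d U _ _)
      ((integrableOn_J d _ _).const_mul _) measurableSet_Ioi (fun y hy => ?_)
    have hy0 : (0 : ℝ) < y := hy
    have h1 : 0 < (1 / √Real.pi) * √y := by
      have := Real.sqrt_pos.2 hy0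
      positivity
    have h2 := hT _ (t ^ 2) h1 (by positivity)
    have h3 : α * (1 / √Real.pi * √y) + β * (t ^ 2 / t) = α / √Real.pi * √y + β * t := by
      field_simp
    rw [h3] at h2
    calc Real.exp (-y) * P d U ((1 / √Real.pi) * √y) (t ^ 2)
        ≤ Real.exp (-y) * (P d U 1 t * (α / √Real.pi * √y + β * t) ^ d) :=
          mul_le_mul_of_nonneg_left h2 (Real.exp_pos _).le
      _ = _ := by ring
  have hP1 : (∑ i ∈ range (d + 1), U i * t ^ (d - i)) = P d U 1 t := by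
    rw [P]; exact Finset.sum_congr rfl (fun i _ => by ring)
  rw [hP1, hint] at hcs
  have hS : 0 ≤ ∑ i ∈ range (d + 1), kap i * U i :=
    Finset.sum_nonneg (fun i hi =>
      mul_nonneg (kap_pos i).le (hU i (by simpa [Nat.lt_succ_iff] using hi)))
  have h4 : P d U 1 t ^ 2 ≤ (∑ i ∈ range (d + 1), kap i * U i) *
      (P d U 1 t * J d (α / √Real.pi) (β * t)) :=
    hcs.trans (mul_le_mul_of_nonneg_left hle hS)
  have h5 : P d U 1 t * P d U 1 t ≤ P d U 1 t *
      ((∑ i ∈ range (d + 1), kap i * U i) * J d (α / √Real.pi) (β * t)) := by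
    calc P d U 1 t * P d U 1 t = P d U 1 t ^ 2 := by ring
      _ ≤ _ := h4
      _ = _ := by ring
  exact le_of_mul_le_mul_left h5 hp

/-- upper bound for the exponential integrals -/
lemma upper_bound (d : ℕ) (U : ℕ → ℝ) {t α β c : ℝ} (hc : 0 ≤ c)
    (hT : Tangent d U t α β) :
    (∫ u in Ioi (0 : ℝ), Real.exp (-u) * P d U 1 (c * √u))
      ≤ P d U 1 t * J d (β * c / t) α := by
  rw [J, ← integral_const_mul]
  refine setIntegral_mono_on (integrableOn_exp_P' d U _ _)
    ((integrableOn_J d _ _).const_mul _) measurableSet_Ioi (fun y hy => ?_)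
  have hy0 : (0 : ℝ) < y := hy
  have h2 := hT 1 (c * √y) one_pos (mul_nonneg hc (Real.sqrt_nonneg _))
  have h3 : α * 1 + β * (c * √y / t) = β * c / t * √y + α := by ring
  rw [h3] at h2
  calc Real.exp (-y) * P d U 1 (c * √y)
      ≤ Real.exp (-y) * (P d U 1 t * (β * c / t * √y + α) ^ d) :=
        mul_le_mul_of_nonneg_left h2 (Real.exp_pos _).le
    _ = _ := by ring

/-- the bound (A) in the form `θ^d ∑ (λ/π)^{i/2} V_i` as an exponential integral -/
lemma boundA_eq (d : ℕ) (U : ℕ → ℝ) {lam : ℝ} (hl : 0 < lam) :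
    (∑ i ∈ range (d + 1), (lam / Real.pi) ^ ((i : ℝ) / 2) * (U i / kap (d - i)))
      = √(lam / Real.pi) ^ d *
        ∫ u in Ioi (0 : ℝ), Real.exp (-u) * P d U 1 ((1 / √lam) * √u) := by
  have hpi : 0 < √Real.pi := Real.sqrt_pos.2 Real.pi_pos
  have hsl : 0 < √lam := Real.sqrt_pos.2 hl
  rw [integral_exp_P', Finset.mul_sum]
  refine Finset.sum_congr rfl (fun i hi => ?_)
  have hi' : i ≤ d := by simpa [Nat.lt_succ_iff] using hi
  obtain ⟨k, rfl⟩ := Nat.exists_eq_add_of_le hi'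
  have h3 := (gm_pos (i + k - i)).ne'
  rw [kap_eq, Real.rpow_div_two_eq_sqrt _ (by positivity), Real.rpow_natCast,
    Nat.add_sub_cancel_left] at *
  rw [pow_add, Real.sqrt_div hl.le, div_pow (1 : ℝ), one_pow, one_pow, div_pow, div_pow]
  field_simp

/-- the bound (B) in the form `∑ (π/2)^{(d-i)/2} V_i` as an exponential integral -/
lemma boundB_eq (d : ℕ) (U : ℕ → ℝ) :
    (∑ i ∈ range (d + 1), (Real.pi / 2) ^ (((d - i : ℕ) : ℝ) / 2) * (U i / kap (d - i)))
      = ∫ u in Ioi (0 : ℝ), Real.exp (-u) * P d U 1 ((1 / √2) * √u) := by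
  have hpi : 0 < √Real.pi := Real.sqrt_pos.2 Real.pi_pos
  rw [integral_exp_P']
  refine Finset.sum_congr rfl (fun i hi => ?_)
  have h3 := (gm_pos (d - i)).ne'
  rw [kap_eq, Real.rpow_div_two_eq_sqrt _ (by positivity), Real.rpow_natCast,
    Real.sqrt_div Real.pi_pos.le, div_pow, div_pow, one_pow, one_pow]
  field_simp

/-- **Reduction, (A) side.** -/
lemma redA (d : ℕ) (U : ℕ → ℝ) (hU : ∀ i, i ≤ d → 0 ≤ U i) {t α β : ℝ} (ht : 0 < t)
    (hα : 0 ≤ α) (hβ : 0 ≤ β) (hp : 0 < P d U 1 t) (hT : Tangent d U t α β) {lam th G : ℝ}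
    (hl : 0 < lam) (hth : 0 ≤ th)
    (hA : G ≤ th ^ d * ∑ i ∈ range (d + 1), (lam / Real.pi) ^ ((i : ℝ) / 2) * (U i / kap (d - i)))
    (hF : kap d * (th ^ d * √(lam / Real.pi) ^ d * J d (β / (t * √lam)) α *
      J d (α / √Real.pi) (β * t)) ≤ 1) :
    kap d * G ≤ ∑ i ∈ range (d + 1), kap i * U i := by
  rw [boundA_eq d U hl] at hA
  have h1 := upper_bound d U (c := 1 / √lam) (by positivity) hT
  have h2 := lower_bound d U hU ht hp hT
  have hS : 0 ≤ ∑ i ∈ range (d + 1), kap i * U i :=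
    Finset.sum_nonneg (fun i hi =>
      mul_nonneg (kap_pos i).le (hU i (by simpa [Nat.lt_succ_iff] using hi)))
  have hJ1 : 0 ≤ J d (β / (t * √lam)) α := J_nonneg d (by positivity) hα
  have he : β * (1 / √lam) / t = β / (t * √lam) := by
    field_simp
  rw [he] at h1
  have hk := (kap_pos d).le
  calc kap d * G ≤ kap d * (th ^ d * (√(lam / Real.pi) ^ d *
        ∫ u in Ioi (0 : ℝ), Real.exp (-u) * P d U 1 ((1 / √lam) * √u))) := by gcongr
    _ ≤ kap d * (th ^ d * (√(lam / Real.pi) ^ d * (P d U 1 t * J d (β / (t * √lam)) α))) := by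
        gcongr
    _ ≤ kap d * (th ^ d * (√(lam / Real.pi) ^ d * (((∑ i ∈ range (d + 1), kap i * U i) *
          J d (α / √Real.pi) (β * t)) * J d (β / (t * √lam)) α))) := by
        gcongr
    _ = (kap d * (th ^ d * √(lam / Real.pi) ^ d * J d (β / (t * √lam)) α *
      J d (α / √Real.pi) (β * t))) * ∑ i ∈ range (d + 1), kap i * U i := by ring
    _ ≤ 1 * ∑ i ∈ range (d + 1), kap i * U i := by gcongr
    _ = _ := one_mul _

/-- **Reduction, (B) side.** -/
lemma redB (d : ℕ) (U : ℕ → ℝ) (hU : ∀ i, i ≤ d → 0 ≤ U i) {t α β : ℝ} (ht : 0 < t)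
    (hα : 0 ≤ α) (hβ : 0 ≤ β) (hp : 0 < P d U 1 t) (hT : Tangent d U t α β) {G : ℝ}
    (hB : G ≤ ∑ i ∈ range (d + 1), (Real.pi / 2) ^ (((d - i : ℕ) : ℝ) / 2) * (U i / kap (d - i)))
    (hF : kap d * (J d (β / (t * √2)) α * J d (α / √Real.pi) (β * t)) ≤ 1) :
    kap d * G ≤ ∑ i ∈ range (d + 1), kap i * U i := by
  rw [boundB_eq d U] at hB
  have h1 := upper_bound d U (c := 1 / √2) (by positivity) hT
  have h2 := lower_bound d U hU ht hp hT
  have hS : 0 ≤ ∑ i ∈ range (d + 1), kap i * U i :=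
    Finset.sum_nonneg (fun i hi =>
      mul_nonneg (kap_pos i).le (hU i (by simpa [Nat.lt_succ_iff] using hi)))
  have hJ1 : 0 ≤ J d (β / (t * √2)) α := J_nonneg d (by positivity) hα
  have he : β * (1 / √2) / t = β / (t * √2) := by
    field_simp
  rw [he] at h1
  have hk := (kap_pos d).le
  calc kap d * G ≤ kap d * (∫ u in Ioi (0 : ℝ), Real.exp (-u) * P d U 1 ((1 / √2) * √u)) := by
        gcongr
    _ ≤ kap d * (P d U 1 t * J d (β / (t * √2)) α) := by gcongr
    _ ≤ kap d * (((∑ i ∈ range (d + 1), kap i * U i) *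
          J d (α / √Real.pi) (β * t)) * J d (β / (t * √2)) α) := by gcongr
    _ = (kap d * (J d (β / (t * √2)) α *
      J d (α / √Real.pi) (β * t))) * ∑ i ∈ range (d + 1), kap i * U i := by ring
    _ ≤ 1 * ∑ i ∈ range (d + 1), kap i * U i := by gcongr
    _ = _ := one_mul _

end Pool.Agent.Wills.Param
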