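import Pool.Agent.Wills.ParamBasic
import Pool.Agent.Wills.ParamTheta

/-!
# The parameter inequality for `3 ≤ d ≤ 9`

Finite table of polynomial inequalities: the two exponential integrals are replaced by explicit
polynomials with rational coefficients; each of the resulting homogeneous polynomials has
nonnegative Bernstein coefficients on the interval in question.
-/

set_option autoImplicit false

open MeasureTheory Set Finset

namespace Pool.Agent.Wills.Param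

/-- rational upper bounds for `gm` -/
noncomputable def gUp : ℕ → ℝ
  | 0 => 1
  | 1 => 88623 / 100000
  | (n + 2) => ((n : ℝ) / 2 + 1) * gUp n

/-- rational lower bounds for `gm` -/
noncomputable def gLo : ℕ → ℝ
  | 0 => 1
  | 1 => 177245 / 200000
  | (n + 2) => ((n : ℝ) / 2 + 1) * gLo n

lemma sqrt_pi_lt : √Real.pi < 177246 / 100000 := by
  rw [Real.sqrt_lt' (by norm_num)]
  have := Real.pi_lt_d6
  norm_num at this ⊢
  linarith

lemma lt_sqrt_pi : 177245 / 100000 < √Real.pi := by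
  apply Real.lt_sqrt_of_sq_lt
  have := Real.pi_gt_d6
  norm_num at this ⊢
  linarith

lemma gm_le_gUp : ∀ i : ℕ, gm i ≤ gUp i
  | 0 => by rw [gm_zero, gUp]
  | 1 => by
      rw [gm_one, gUp]
      have := sqrt_pi_lt
      linarith
  | (n + 2) => by
      rw [gm_add_two, gUp]
      exact mul_le_mul_of_nonneg_left (gm_le_gUp n) (by positivity)

lemma gLo_le_gm : ∀ i : ℕ, gLo i ≤ gm i
  | 0 => by rw [gm_zero, gLo]
  | 1 => by
      rw [gm_one, gLo]
      have := lt_sqrt_pi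
      linarith
  | (n + 2) => by
      rw [gm_add_two, gLo]
      exact mul_le_mul_of_nonneg_left (gLo_le_gm n) (by positivity)

lemma gLo_pos : ∀ i : ℕ, 0 < gLo i
  | 0 => by rw [gLo]; norm_num
  | 1 => by rw [gLo]; norm_num
  | (n + 2) => by
      rw [gLo]
      have := gLo_pos n
      positivity

lemma gUp_nonneg (i : ℕ) : 0 ≤ gUp i := (gm_pos i).le.trans (gm_le_gUp i)

/-- first polynomial -/
noncomputable def F1 (d : ℕ) (T Q a b : ℝ) : ℝ :=
  ∑ i ∈ range (d + 1), ((d.choose i : ℝ) * (T * b) ^ i * (Q * a) ^ (d - i)) * gUp i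

/-- second polynomial -/
noncomputable def F2 (d : ℕ) (a b : ℝ) : ℝ :=
  a ^ d + ∑ i ∈ range d, ((d.choose i : ℝ) * a ^ i * b ^ (d - i)) * (gUp i / gLo d)

lemma J_le_F1 (d : ℕ) {x y T Q a b : ℝ} (hx : 0 ≤ x) (hy : 0 ≤ y) (hxT : x ≤ T * b)
    (hyQ : y ≤ Q * a) : J d x y ≤ F1 d T Q a b := by
  refine (J_mono d hx hy hxT hyQ).trans ?_
  rw [J_eq_sum, F1]
  refine Finset.sum_le_sum (fun i _ => ?_)
  have h1 : 0 ≤ T * b := hx.trans hxT
  have h2 : 0 ≤ Q * a := hy.trans hyQ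
  exact mul_le_mul_of_nonneg_left (gm_le_gUp i) (by positivity)

lemma J_le_F2 (d : ℕ) {a b : ℝ} (ha : 0 ≤ a) (hb : 0 ≤ b) : J d a b ≤ gm d * F2 d a b := by
  rw [J_eq_sum, F2, Finset.sum_range_succ, mul_add, Finset.mul_sum, add_comm]
  refine add_le_add (le_of_eq ?_) (Finset.sum_le_sum (fun i _ => ?_))
  · simp; ring
  · have h1 : gm i ≤ gm d * (gUp i / gLo d) := by
      have h2 := gLo_pos d
      have h3 := gLo_le_gm d
      calc gm i ≤ gUp i := gm_le_gUp i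
        _ = gLo d * (gUp i / gLo d) := by field_simp
        _ ≤ gm d * (gUp i / gLo d) :=
          mul_le_mul_of_nonneg_right h3 (div_nonneg (gUp_nonneg i) h2.le)
    calc ((d.choose i : ℝ) * a ^ i * b ^ (d - i)) * gm i
        ≤ ((d.choose i : ℝ) * a ^ i * b ^ (d - i)) * (gm d * (gUp i / gLo d)) :=
          mul_le_mul_of_nonneg_left h1 (by positivity)
      _ = _ := by ring

lemma F2_nonneg (d : ℕ) {a b : ℝ} (ha : 0 ≤ a) (hb : 0 ≤ b) : 0 ≤ F2 d a b := by
  rw [F2]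
  have h2 := (gLo_pos d).le
  refine add_nonneg (by positivity) (Finset.sum_nonneg (fun i _ => ?_))
  have := gUp_nonneg i
  positivity

/-- the (A) side in normal form -/
lemma formA (d : ℕ) {lam : ℝ} (hl : 0 < lam) (th a b : ℝ) :
    kap d * (th ^ d * √(lam / Real.pi) ^ d * J d (b / ((1 / √Real.pi) * √lam)) a *
      J d (a / √Real.pi) (b * (1 / √Real.pi)))
      = J d (th * b) (th * √(lam / Real.pi) * a) * J d a b / gm d := by
  have hpi : 0 < √Real.pi := Real.sqrt_pos.2 Real.pi_pos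
  have hsl : 0 < √lam := Real.sqrt_pos.2 hl
  have hg := gm_pos d
  have h1 : J d (a / √Real.pi) (b * (1 / √Real.pi)) = (1 / √Real.pi) ^ d * J d a b := by
    rw [← J_smul]; congr 1 <;> ring
  have h2 : J d (th * b) (th * √(lam / Real.pi) * a)
      = th ^ d * (√(lam / Real.pi) ^ d * J d (b / ((1 / √Real.pi) * √lam)) a) := by
    rw [← J_smul, ← J_smul, Real.sqrt_div hl.le]
    congr 1
    · field_simp
    · ring
  rw [h1, h2, kap_eq, div_pow 1, one_pow]
  field_simp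

/-- the (B) side in normal form -/
lemma formB (d : ℕ) (a b : ℝ) :
    kap d * (J d (b / ((1 / √Real.pi) * √2)) a * J d (a / √Real.pi) (b * (1 / √Real.pi)))
      = J d (√(Real.pi / 2) * b) a * J d a b / gm d := by
  have hpi : 0 < √Real.pi := Real.sqrt_pos.2 Real.pi_pos
  have hs2 : 0 < √(2 : ℝ) := Real.sqrt_pos.2 two_pos
  have hg := gm_pos d
  have h1 : J d (a / √Real.pi) (b * (1 / √Real.pi)) = (1 / √Real.pi) ^ d * J d a b := by
    rw [← J_smul]; congr 1 <;> ring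
  have h2 : √(Real.pi / 2) * b = b / ((1 / √Real.pi) * √2) := by
    rw [Real.sqrt_div Real.pi_pos.le]
    field_simp
  rw [h1, h2, kap_eq, div_pow 1, one_pow]
  field_simp

lemma finishA (d : ℕ) {lam T Q a b : ℝ} (hl : 0 < lam) (hT : theta lam ≤ T)
    (hQ : theta lam * √(lam / Real.pi) ≤ Q) (ha : 0 ≤ a) (hb : 0 ≤ b)
    (hF : F1 d T Q a b * F2 d a b ≤ 1) :
    kap d * ((∑' n : ℤ, Real.exp (-lam * (n : ℝ) ^ 2)) ^ d * √(lam / Real.pi) ^ d *
      J d (b / ((1 / √Real.pi) * √lam)) a * J d (a / √Real.pi) (b * (1 / √Real.pi))) ≤ 1 := by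
  have h := formA d hl (theta lam) a b
  rw [theta] at h
  rw [h, ← theta, div_le_one (gm_pos d)]
  have h0 := theta_nonneg lam
  have h1 : J d (theta lam * b) (theta lam * √(lam / Real.pi) * a) ≤ F1 d T Q a b :=
    J_le_F1 d (by positivity) (by positivity) (mul_le_mul_of_nonneg_right hT hb)
      (mul_le_mul_of_nonneg_right hQ ha)
  have h2 := J_le_F2 d ha hb
  have h3 : 0 ≤ F1 d T Q a b := le_trans (J_nonneg d (by positivity) (by positivity)) h1
  calc J d (theta lam * b) (theta lam * √(lam / Real.pi) * a) * J d a b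
      ≤ F1 d T Q a b * (gm d * F2 d a b) :=
        mul_le_mul h1 h2 (J_nonneg d ha hb) h3
    _ = gm d * (F1 d T Q a b * F2 d a b) := by ring
    _ ≤ gm d * 1 := mul_le_mul_of_nonneg_left hF (gm_pos d).le
    _ = gm d := mul_one _

lemma sqrt_pi_two_le : √(Real.pi / 2) ≤ 627 / 500 := by
  rw [Real.sqrt_le_left (by norm_num)]
  have := Real.pi_lt_d6
  norm_num at this ⊢
  linarith

/-- first polynomial for (B): constant term kept exact -/
lemma finishB (d : ℕ) {a b : ℝ} (ha : 0 ≤ a) (hb : 0 ≤ b)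
    (hF : F1 d (627 / 500) 1 a b * F2 d a b ≤ 1) :
    kap d * (J d (b / ((1 / √Real.pi) * √2)) a * J d (a / √Real.pi) (b * (1 / √Real.pi))) ≤ 1 := by
  rw [formB, div_le_one (gm_pos d)]
  have h1 : J d (√(Real.pi / 2) * b) a ≤ F1 d (627 / 500) 1 a b :=
    J_le_F1 d (by positivity) ha (mul_le_mul_of_nonneg_right sqrt_pi_two_le hb) (by rw [one_mul])
  have h2 := J_le_F2 d ha hb
  have h3 : 0 ≤ F1 d (627 / 500) 1 a b := le_trans (J_nonneg d (by positivity) ha) h1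
  calc J d (√(Real.pi / 2) * b) a * J d a b
      ≤ F1 d (627 / 500) 1 a b * (gm d * F2 d a b) :=
        mul_le_mul h1 h2 (J_nonneg d ha hb) h3
    _ = gm d * (F1 d (627 / 500) 1 a b * F2 d a b) := by ring
    _ ≤ gm d * 1 := mul_le_mul_of_nonneg_left hF (gm_pos d).le
    _ = gm d := mul_one _

/-! ### theta values -/

lemma theta_le_of {lam e T : ℝ} (hl : 0 < lam) (he : Real.exp (-lam) ≤ e)
    (he1 : e < 1) (hT : 1 + 2 * (e / (1 - e ^ 3)) ≤ T) : theta lam ≤ T := by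
  refine (theta_le hl).trans (le_trans ?_ hT)
  have h0 := Real.exp_pos (-lam)
  have h3 : Real.exp (-(3 * lam)) = Real.exp (-lam) ^ 3 := by
    rw [← Real.exp_nat_mul]; congr 1; push_cast; ring
  rw [h3]
  have h4 : Real.exp (-lam) ^ 3 ≤ e ^ 3 := pow_le_pow_left₀ h0.le he 3
  have h5 : e ^ 3 < 1 := pow_lt_one₀ (h0.le.trans he) he1 (by norm_num)
  have h6 : Real.exp (-lam) / (1 - Real.exp (-lam) ^ 3) ≤ e / (1 - e ^ 3) :=
    div_le_div₀ (h0.le.trans he) he (by linarith) (by linarith)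
  linarith

lemma exp_neg_four : Real.exp (-4) ≤ 18320 / 1000000 := by
  have h : Real.exp (-4) = Real.exp (-1) ^ 4 := by
    rw [← Real.exp_nat_mul]; norm_num
  have h1 : Real.exp (-1) ≤ 3679 / 10000 := by
    have := Real.exp_neg_one_lt_d9
    norm_num at this ⊢
    linarith
  rw [h]
  refine (pow_le_pow_left₀ (Real.exp_pos _).le h1 4).trans (by norm_num)

lemma exp_neg_three : Real.exp (-3) ≤ 49800 / 1000000 := by
  have h : Real.exp (-3) = Real.exp (-1) ^ 3 := by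
    rw [← Real.exp_nat_mul]; norm_num
  have h1 : Real.exp (-1) ≤ 3679 / 10000 := by
    have := Real.exp_neg_one_lt_d9
    norm_num at this ⊢
    linarith
  rw [h]
  refine (pow_le_pow_left₀ (Real.exp_pos _).le h1 3).trans (by norm_num)

lemma theta_four : theta 4 ≤ 10367 / 10000 :=
  theta_le_of (by norm_num) exp_neg_four (by norm_num) (by norm_num)

lemma theta_three : theta 3 ≤ 10997 / 10000 :=
  theta_le_of (by norm_num) exp_neg_three (by norm_num) (by norm_num)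

lemma q_four : theta 4 * √(4 / Real.pi) ≤ 117 / 100 := by
  have h1 : √(4 / Real.pi) ≤ 11284 / 10000 := by
    rw [Real.sqrt_le_left (by norm_num), div_le_iff₀ Real.pi_pos]
    have := Real.pi_gt_d6
    norm_num at this ⊢
    linarith
  calc theta 4 * √(4 / Real.pi) ≤ (10367 / 10000) * (11284 / 10000) :=
        mul_le_mul theta_four h1 (Real.sqrt_nonneg _) (by norm_num)
    _ ≤ _ := by norm_num

lemma q_three : theta 3 * √(3 / Real.pi) ≤ 43 / 40 := by
  have h1 : √(3 / Real.pi) ≤ 9773 / 10000 := by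
    rw [Real.sqrt_le_left (by norm_num), div_le_iff₀ Real.pi_pos]
    have := Real.pi_gt_d6
    norm_num at this ⊢
    linarith
  calc theta 3 * √(3 / Real.pi) ≤ (10997 / 10000) * (9773 / 10000) :=
        mul_le_mul theta_three h1 (Real.sqrt_nonneg _) (by norm_num)
    _ ≤ _ := by norm_num

/-! ### the polynomial inequalities -/

lemma polyA3_aux (u v : ℝ) (hu : 0 ≤ u) (hv : 0 ≤ v) :
    F1 3 (1037 / 1000) (117 / 100) (19 / 100 * u + 1 / 2 * v) (81 / 100 * u + 1 / 2 * v) *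
      F2 3 (19 / 100 * u + 1 / 2 * v) (81 / 100 * u + 1 / 2 * v) ≤ (u + v) ^ 6 := by
  simp only [F1, F2, Finset.sum_range_succ, Finset.sum_range_zero]
  norm_num [gUp, gLo, Nat.choose]
  rw [← sub_nonneg]
  ring_nf
  positivity

lemma polyA3 (a b : ℝ) (hab : a + b = 1) (h1 : 19 / 100 ≤ a) (h2 : a ≤ 1 / 2) :
    F1 3 (1037 / 1000) (117 / 100) a b * F2 3 a b ≤ 1 := by
  have h := polyA3_aux ((1 / 2 - a) / (31 / 100)) ((a - 19 / 100) / (31 / 100))
    (div_nonneg (by linarith) (by norm_num)) (div_nonneg (by linarith) (by norm_num))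
  have e1 : 19 / 100 * ((1 / 2 - a) / (31 / 100)) + 1 / 2 * ((a - 19 / 100) / (31 / 100)) = a := by
    ring
  have e2 : 81 / 100 * ((1 / 2 - a) / (31 / 100)) + 1 / 2 * ((a - 19 / 100) / (31 / 100)) = b := by
    rw [show b = 1 - a by linarith]; ring
  have e3 : (1 / 2 - a) / (31 / 100) + (a - 19 / 100) / (31 / 100) = 1 := by ring
  rw [e1, e2, e3, one_pow] at h
  exact h

lemma polyA3'_aux (u v : ℝ) (hu : 0 ≤ u) (hv : 0 ≤ v) :
    F1 3 (11 / 10) (43 / 40) (1 / 2 * u + 17 / 25 * v) (1 / 2 * u + 8 / 25 * v) *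
      F2 3 (1 / 2 * u + 17 / 25 * v) (1 / 2 * u + 8 / 25 * v) ≤ (u + v) ^ 6 := by
  simp only [F1, F2, Finset.sum_range_succ, Finset.sum_range_zero]
  norm_num [gUp, gLo, Nat.choose]
  rw [← sub_nonneg]
  ring_nf
  positivity

lemma polyA3' (a b : ℝ) (hab : a + b = 1) (h1 : 1 / 2 ≤ a) (h2 : a ≤ 17 / 25) :
    F1 3 (11 / 10) (43 / 40) a b * F2 3 a b ≤ 1 := by
  have h := polyA3'_aux ((17 / 25 - a) / (9 / 50)) ((a - 1 / 2) / (9 / 50))
    (div_nonneg (by linarith) (by norm_num)) (div_nonneg (by linarith) (by norm_num))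
  have e1 : 1 / 2 * ((17 / 25 - a) / (9 / 50)) + 17 / 25 * ((a - 1 / 2) / (9 / 50)) = a := by
    ring
  have e2 : 1 / 2 * ((17 / 25 - a) / (9 / 50)) + 8 / 25 * ((a - 1 / 2) / (9 / 50)) = b := by
    rw [show b = 1 - a by linarith]; ring
  have e3 : (17 / 25 - a) / (9 / 50) + (a - 1 / 2) / (9 / 50) = 1 := by ring
  rw [e1, e2, e3, one_pow] at h
  exact h

lemma polyB3_aux (u v : ℝ) (hu : 0 ≤ u) (hv : 0 ≤ v) :
    F1 3 (627 / 500) (1) (17 / 25 * u + v) (8 / 25 * u) *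
      F2 3 (17 / 25 * u + v) (8 / 25 * u) ≤ (u + v) ^ 6 := by
  simp only [F1, F2, Finset.sum_range_succ, Finset.sum_range_zero]
  norm_num [gUp, gLo, Nat.choose]
  rw [← sub_nonneg]
  ring_nf
  positivity

lemma polyB3 (a b : ℝ) (hab : a + b = 1) (h1 : 17 / 25 ≤ a) (h2 : a ≤ 1) :
    F1 3 (627 / 500) (1) a b * F2 3 a b ≤ 1 := by
  have h := polyB3_aux ((1 - a) / (8 / 25)) ((a - 17 / 25) / (8 / 25))
    (div_nonneg (by linarith) (by norm_num)) (div_nonneg (by linarith) (by norm_num))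
  have e1 : 17 / 25 * ((1 - a) / (8 / 25)) + ((a - 17 / 25) / (8 / 25)) = a := by
    ring
  have e2 : 8 / 25 * ((1 - a) / (8 / 25)) = b := by
    rw [show b = 1 - a by linarith]; ring
  have e3 : (1 - a) / (8 / 25) + (a - 17 / 25) / (8 / 25) = 1 := by ring
  rw [e1, e2, e3, one_pow] at h
  exact h

lemma polyA4_aux (u v : ℝ) (hu : 0 ≤ u) (hv : 0 ≤ v) :
    F1 4 (1037 / 1000) (117 / 100) (3 / 20 * u + 3 / 5 * v) (17 / 20 * u + 2 / 5 * v) *
      F2 4 (3 / 20 * u + 3 / 5 * v) (17 / 20 * u + 2 / 5 * v) ≤ (u + v) ^ 8 := by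
  simp only [F1, F2, Finset.sum_range_succ, Finset.sum_range_zero]
  norm_num [gUp, gLo, Nat.choose]
  rw [← sub_nonneg]
  ring_nf
  positivity

lemma polyA4 (a b : ℝ) (hab : a + b = 1) (h1 : 3 / 20 ≤ a) (h2 : a ≤ 3 / 5) :
    F1 4 (1037 / 1000) (117 / 100) a b * F2 4 a b ≤ 1 := by
  have h := polyA4_aux ((3 / 5 - a) / (9 / 20)) ((a - 3 / 20) / (9 / 20))
    (div_nonneg (by linarith) (by norm_num)) (div_nonneg (by linarith) (by norm_num))
  have e1 : 3 / 20 * ((3 / 5 - a) / (9 / 20)) + 3 / 5 * ((a - 3 / 20) / (9 / 20)) = a := by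
    ring
  have e2 : 17 / 20 * ((3 / 5 - a) / (9 / 20)) + 2 / 5 * ((a - 3 / 20) / (9 / 20)) = b := by
    rw [show b = 1 - a by linarith]; ring
  have e3 : (3 / 5 - a) / (9 / 20) + (a - 3 / 20) / (9 / 20) = 1 := by ring
  rw [e1, e2, e3, one_pow] at h
  exact h

lemma polyB4_aux (u v : ℝ) (hu : 0 ≤ u) (hv : 0 ≤ v) :
    F1 4 (627 / 500) (1) (3 / 5 * u + v) (2 / 5 * u) *
      F2 4 (3 / 5 * u + v) (2 / 5 * u) ≤ (u + v) ^ 8 := by
  simp only [F1, F2, Finset.sum_range_succ, Finset.sum_range_zero]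
  norm_num [gUp, gLo, Nat.choose]
  rw [← sub_nonneg]
  ring_nf
  positivity

lemma polyB4 (a b : ℝ) (hab : a + b = 1) (h1 : 3 / 5 ≤ a) (h2 : a ≤ 1) :
    F1 4 (627 / 500) (1) a b * F2 4 a b ≤ 1 := by
  have h := polyB4_aux ((1 - a) / (2 / 5)) ((a - 3 / 5) / (2 / 5))
    (div_nonneg (by linarith) (by norm_num)) (div_nonneg (by linarith) (by norm_num))
  have e1 : 3 / 5 * ((1 - a) / (2 / 5)) + ((a - 3 / 5) / (2 / 5)) = a := by
    ring
  have e2 : 2 / 5 * ((1 - a) / (2 / 5)) = b := by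
    rw [show b = 1 - a by linarith]; ring
  have e3 : (1 - a) / (2 / 5) + (a - 3 / 5) / (2 / 5) = 1 := by ring
  rw [e1, e2, e3, one_pow] at h
  exact h

lemma polyA5_aux (u v : ℝ) (hu : 0 ≤ u) (hv : 0 ≤ v) :
    F1 5 (1037 / 1000) (117 / 100) (3 / 25 * u + 3 / 5 * v) (22 / 25 * u + 2 / 5 * v) *
      F2 5 (3 / 25 * u + 3 / 5 * v) (22 / 25 * u + 2 / 5 * v) ≤ (u + v) ^ 10 := by
  simp only [F1, F2, Finset.sum_range_succ, Finset.sum_range_zero]
  norm_num [gUp, gLo, Nat.choose]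
  rw [← sub_nonneg]
  ring_nf
  positivity

lemma polyA5 (a b : ℝ) (hab : a + b = 1) (h1 : 3 / 25 ≤ a) (h2 : a ≤ 3 / 5) :
    F1 5 (1037 / 1000) (117 / 100) a b * F2 5 a b ≤ 1 := by
  have h := polyA5_aux ((3 / 5 - a) / (12 / 25)) ((a - 3 / 25) / (12 / 25))
    (div_nonneg (by linarith) (by norm_num)) (div_nonneg (by linarith) (by norm_num))
  have e1 : 3 / 25 * ((3 / 5 - a) / (12 / 25)) + 3 / 5 * ((a - 3 / 25) / (12 / 25)) = a := by
    ring
  have e2 : 22 / 25 * ((3 / 5 - a) / (12 / 25)) + 2 / 5 * ((a - 3 / 25) / (12 / 25)) = b := by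
    rw [show b = 1 - a by linarith]; ring
  have e3 : (3 / 5 - a) / (12 / 25) + (a - 3 / 25) / (12 / 25) = 1 := by ring
  rw [e1, e2, e3, one_pow] at h
  exact h

lemma polyB5_aux (u v : ℝ) (hu : 0 ≤ u) (hv : 0 ≤ v) :
    F1 5 (627 / 500) (1) (3 / 5 * u + v) (2 / 5 * u) *
      F2 5 (3 / 5 * u + v) (2 / 5 * u) ≤ (u + v) ^ 10 := by
  simp only [F1, F2, Finset.sum_range_succ, Finset.sum_range_zero]
  norm_num [gUp, gLo, Nat.choose]
  rw [← sub_nonneg]
  ring_nf
  positivity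

lemma polyB5 (a b : ℝ) (hab : a + b = 1) (h1 : 3 / 5 ≤ a) (h2 : a ≤ 1) :
    F1 5 (627 / 500) (1) a b * F2 5 a b ≤ 1 := by
  have h := polyB5_aux ((1 - a) / (2 / 5)) ((a - 3 / 5) / (2 / 5))
    (div_nonneg (by linarith) (by norm_num)) (div_nonneg (by linarith) (by norm_num))
  have e1 : 3 / 5 * ((1 - a) / (2 / 5)) + ((a - 3 / 5) / (2 / 5)) = a := by
    ring
  have e2 : 2 / 5 * ((1 - a) / (2 / 5)) = b := by
    rw [show b = 1 - a by linarith]; ring
  have e3 : (1 - a) / (2 / 5) + (a - 3 / 5) / (2 / 5) = 1 := by ring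
  rw [e1, e2, e3, one_pow] at h
  exact h

lemma polyA6_aux (u v : ℝ) (hu : 0 ≤ u) (hv : 0 ≤ v) :
    F1 6 (1037 / 1000) (117 / 100) (1 / 10 * u + 3 / 5 * v) (9 / 10 * u + 2 / 5 * v) *
      F2 6 (1 / 10 * u + 3 / 5 * v) (9 / 10 * u + 2 / 5 * v) ≤ (u + v) ^ 12 := by
  simp only [F1, F2, Finset.sum_range_succ, Finset.sum_range_zero]
  norm_num [gUp, gLo, Nat.choose]
  rw [← sub_nonneg]
  ring_nf
  positivity

lemma polyA6 (a b : ℝ) (hab : a + b = 1) (h1 : 1 / 10 ≤ a) (h2 : a ≤ 3 / 5) :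
    F1 6 (1037 / 1000) (117 / 100) a b * F2 6 a b ≤ 1 := by
  have h := polyA6_aux ((3 / 5 - a) / (1 / 2)) ((a - 1 / 10) / (1 / 2))
    (div_nonneg (by linarith) (by norm_num)) (div_nonneg (by linarith) (by norm_num))
  have e1 : 1 / 10 * ((3 / 5 - a) / (1 / 2)) + 3 / 5 * ((a - 1 / 10) / (1 / 2)) = a := by
    ring
  have e2 : 9 / 10 * ((3 / 5 - a) / (1 / 2)) + 2 / 5 * ((a - 1 / 10) / (1 / 2)) = b := by
    rw [show b = 1 - a by linarith]; ring
  have e3 : (3 / 5 - a) / (1 / 2) + (a - 1 / 10) / (1 / 2) = 1 := by ring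
  rw [e1, e2, e3, one_pow] at h
  exact h

lemma polyB6_aux (u v : ℝ) (hu : 0 ≤ u) (hv : 0 ≤ v) :
    F1 6 (627 / 500) (1) (3 / 5 * u + v) (2 / 5 * u) *
      F2 6 (3 / 5 * u + v) (2 / 5 * u) ≤ (u + v) ^ 12 := by
  simp only [F1, F2, Finset.sum_range_succ, Finset.sum_range_zero]
  norm_num [gUp, gLo, Nat.choose]
  rw [← sub_nonneg]
  ring_nf
  positivity

lemma polyB6 (a b : ℝ) (hab : a + b = 1) (h1 : 3 / 5 ≤ a) (h2 : a ≤ 1) :
    F1 6 (627 / 500) (1) a b * F2 6 a b ≤ 1 := by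
  have h := polyB6_aux ((1 - a) / (2 / 5)) ((a - 3 / 5) / (2 / 5))
    (div_nonneg (by linarith) (by norm_num)) (div_nonneg (by linarith) (by norm_num))
  have e1 : 3 / 5 * ((1 - a) / (2 / 5)) + ((a - 3 / 5) / (2 / 5)) = a := by
    ring
  have e2 : 2 / 5 * ((1 - a) / (2 / 5)) = b := by
    rw [show b = 1 - a by linarith]; ring
  have e3 : (1 - a) / (2 / 5) + (a - 3 / 5) / (2 / 5) = 1 := by ring
  rw [e1, e2, e3, one_pow] at h
  exact h

lemma polyA7_aux (u v : ℝ) (hu : 0 ≤ u) (hv : 0 ≤ v) :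
    F1 7 (1037 / 1000) (117 / 100) (9 / 100 * u + 3 / 5 * v) (91 / 100 * u + 2 / 5 * v) *
      F2 7 (9 / 100 * u + 3 / 5 * v) (91 / 100 * u + 2 / 5 * v) ≤ (u + v) ^ 14 := by
  simp only [F1, F2, Finset.sum_range_succ, Finset.sum_range_zero]
  norm_num [gUp, gLo, Nat.choose]
  rw [← sub_nonneg]
  ring_nf
  positivity

lemma polyA7 (a b : ℝ) (hab : a + b = 1) (h1 : 9 / 100 ≤ a) (h2 : a ≤ 3 / 5) :
    F1 7 (1037 / 1000) (117 / 100) a b * F2 7 a b ≤ 1 := by
  have h := polyA7_aux ((3 / 5 - a) / (51 / 100)) ((a - 9 / 100) / (51 / 100))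
    (div_nonneg (by linarith) (by norm_num)) (div_nonneg (by linarith) (by norm_num))
  have e1 : 9 / 100 * ((3 / 5 - a) / (51 / 100)) + 3 / 5 * ((a - 9 / 100) / (51 / 100)) = a := by
    ring
  have e2 : 91 / 100 * ((3 / 5 - a) / (51 / 100)) + 2 / 5 * ((a - 9 / 100) / (51 / 100)) = b := by
    rw [show b = 1 - a by linarith]; ring
  have e3 : (3 / 5 - a) / (51 / 100) + (a - 9 / 100) / (51 / 100) = 1 := by ring
  rw [e1, e2, e3, one_pow] at h
  exact h

lemma polyB7_aux (u v : ℝ) (hu : 0 ≤ u) (hv : 0 ≤ v) :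
    F1 7 (627 / 500) (1) (3 / 5 * u + v) (2 / 5 * u) *
      F2 7 (3 / 5 * u + v) (2 / 5 * u) ≤ (u + v) ^ 14 := by
  simp only [F1, F2, Finset.sum_range_succ, Finset.sum_range_zero]
  norm_num [gUp, gLo, Nat.choose]
  rw [← sub_nonneg]
  ring_nf
  positivity

lemma polyB7 (a b : ℝ) (hab : a + b = 1) (h1 : 3 / 5 ≤ a) (h2 : a ≤ 1) :
    F1 7 (627 / 500) (1) a b * F2 7 a b ≤ 1 := by
  have h := polyB7_aux ((1 - a) / (2 / 5)) ((a - 3 / 5) / (2 / 5))
    (div_nonneg (by linarith) (by norm_num)) (div_nonneg (by linarith) (by norm_num))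
  have e1 : 3 / 5 * ((1 - a) / (2 / 5)) + ((a - 3 / 5) / (2 / 5)) = a := by
    ring
  have e2 : 2 / 5 * ((1 - a) / (2 / 5)) = b := by
    rw [show b = 1 - a by linarith]; ring
  have e3 : (1 - a) / (2 / 5) + (a - 3 / 5) / (2 / 5) = 1 := by ring
  rw [e1, e2, e3, one_pow] at h
  exact h

lemma polyA8_aux (u v : ℝ) (hu : 0 ≤ u) (hv : 0 ≤ v) :
    F1 8 (1037 / 1000) (117 / 100) (2 / 25 * u + 3 / 5 * v) (23 / 25 * u + 2 / 5 * v) *
      F2 8 (2 / 25 * u + 3 / 5 * v) (23 / 25 * u + 2 / 5 * v) ≤ (u + v) ^ 16 := by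
  simp only [F1, F2, Finset.sum_range_succ, Finset.sum_range_zero]
  norm_num [gUp, gLo, Nat.choose]
  rw [← sub_nonneg]
  ring_nf
  positivity

lemma polyA8 (a b : ℝ) (hab : a + b = 1) (h1 : 2 / 25 ≤ a) (h2 : a ≤ 3 / 5) :
    F1 8 (1037 / 1000) (117 / 100) a b * F2 8 a b ≤ 1 := by
  have h := polyA8_aux ((3 / 5 - a) / (13 / 25)) ((a - 2 / 25) / (13 / 25))
    (div_nonneg (by linarith) (by norm_num)) (div_nonneg (by linarith) (by norm_num))
  have e1 : 2 / 25 * ((3 / 5 - a) / (13 / 25)) + 3 / 5 * ((a - 2 / 25) / (13 / 25)) = a := by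
    ring
  have e2 : 23 / 25 * ((3 / 5 - a) / (13 / 25)) + 2 / 5 * ((a - 2 / 25) / (13 / 25)) = b := by
    rw [show b = 1 - a by linarith]; ring
  have e3 : (3 / 5 - a) / (13 / 25) + (a - 2 / 25) / (13 / 25) = 1 := by ring
  rw [e1, e2, e3, one_pow] at h
  exact h

lemma polyB8_aux (u v : ℝ) (hu : 0 ≤ u) (hv : 0 ≤ v) :
    F1 8 (627 / 500) (1) (3 / 5 * u + v) (2 / 5 * u) *
      F2 8 (3 / 5 * u + v) (2 / 5 * u) ≤ (u + v) ^ 16 := by
  simp only [F1, F2, Finset.sum_range_succ, Finset.sum_range_zero]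
  norm_num [gUp, gLo, Nat.choose]
  rw [← sub_nonneg]
  ring_nf
  positivity

lemma polyB8 (a b : ℝ) (hab : a + b = 1) (h1 : 3 / 5 ≤ a) (h2 : a ≤ 1) :
    F1 8 (627 / 500) (1) a b * F2 8 a b ≤ 1 := by
  have h := polyB8_aux ((1 - a) / (2 / 5)) ((a - 3 / 5) / (2 / 5))
    (div_nonneg (by linarith) (by norm_num)) (div_nonneg (by linarith) (by norm_num))
  have e1 : 3 / 5 * ((1 - a) / (2 / 5)) + ((a - 3 / 5) / (2 / 5)) = a := by
    ring
  have e2 : 2 / 5 * ((1 - a) / (2 / 5)) = b := by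
    rw [show b = 1 - a by linarith]; ring
  have e3 : (1 - a) / (2 / 5) + (a - 3 / 5) / (2 / 5) = 1 := by ring
  rw [e1, e2, e3, one_pow] at h
  exact h

lemma polyA9_aux (u v : ℝ) (hu : 0 ≤ u) (hv : 0 ≤ v) :
    F1 9 (1037 / 1000) (117 / 100) (7 / 100 * u + 3 / 5 * v) (93 / 100 * u + 2 / 5 * v) *
      F2 9 (7 / 100 * u + 3 / 5 * v) (93 / 100 * u + 2 / 5 * v) ≤ (u + v) ^ 18 := by
  simp only [F1, F2, Finset.sum_range_succ, Finset.sum_range_zero]
  norm_num [gUp, gLo, Nat.choose]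
  rw [← sub_nonneg]
  ring_nf
  positivity

lemma polyA9 (a b : ℝ) (hab : a + b = 1) (h1 : 7 / 100 ≤ a) (h2 : a ≤ 3 / 5) :
    F1 9 (1037 / 1000) (117 / 100) a b * F2 9 a b ≤ 1 := by
  have h := polyA9_aux ((3 / 5 - a) / (53 / 100)) ((a - 7 / 100) / (53 / 100))
    (div_nonneg (by linarith) (by norm_num)) (div_nonneg (by linarith) (by norm_num))
  have e1 : 7 / 100 * ((3 / 5 - a) / (53 / 100)) + 3 / 5 * ((a - 7 / 100) / (53 / 100)) = a := by
    ring
  have e2 : 93 / 100 * ((3 / 5 - a) / (53 / 100)) + 2 / 5 * ((a - 7 / 100) / (53 / 100)) = b := by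
    rw [show b = 1 - a by linarith]; ring
  have e3 : (3 / 5 - a) / (53 / 100) + (a - 7 / 100) / (53 / 100) = 1 := by ring
  rw [e1, e2, e3, one_pow] at h
  exact h

lemma polyB9_aux (u v : ℝ) (hu : 0 ≤ u) (hv : 0 ≤ v) :
    F1 9 (627 / 500) (1) (3 / 5 * u + v) (2 / 5 * u) *
      F2 9 (3 / 5 * u + v) (2 / 5 * u) ≤ (u + v) ^ 18 := by
  simp only [F1, F2, Finset.sum_range_succ, Finset.sum_range_zero]
  norm_num [gUp, gLo, Nat.choose]
  rw [← sub_nonneg]
  ring_nf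
  positivity

lemma polyB9 (a b : ℝ) (hab : a + b = 1) (h1 : 3 / 5 ≤ a) (h2 : a ≤ 1) :
    F1 9 (627 / 500) (1) a b * F2 9 a b ≤ 1 := by
  have h := polyB9_aux ((1 - a) / (2 / 5)) ((a - 3 / 5) / (2 / 5))
    (div_nonneg (by linarith) (by norm_num)) (div_nonneg (by linarith) (by norm_num))
  have e1 : 3 / 5 * ((1 - a) / (2 / 5)) + ((a - 3 / 5) / (2 / 5)) = a := by
    ring
  have e2 : 2 / 5 * ((1 - a) / (2 / 5)) = b := by
    rw [show b = 1 - a by linarith]; ring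
  have e3 : (1 - a) / (2 / 5) + (a - 3 / 5) / (2 / 5) = 1 := by ring
  rw [e1, e2, e3, one_pow] at h
  exact h

/-! ### assembly -/

lemma frac_eq (d : ℕ) (hd : 1 ≤ d) :
    kap (d - 1) / (kap d * (1 / √Real.pi) + kap (d - 1)) = gm d / (gm (d - 1) + gm d) := by
  have hpi : 0 < √Real.pi := Real.sqrt_pos.2 Real.pi_pos
  have h1 := gm_pos d
  have h2 := gm_pos (d - 1)
  obtain ⟨k, rfl⟩ := Nat.exists_eq_add_of_le' hd
  rw [kap_eq, kap_eq, Nat.add_sub_cancel, pow_succ] at *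
  field_simp

lemma frac_lower (d : ℕ) (hd : 1 ≤ d) {m : ℝ} (hm0 : 0 ≤ m) (hm1 : m ≤ 1)
    (hm : m * gUp (d - 1) ≤ (1 - m) * gLo d) :
    m ≤ kap (d - 1) / (kap d * (1 / √Real.pi) + kap (d - 1)) := by
  have h1 := gm_pos d
  have h2 := gm_pos (d - 1)
  rw [frac_eq d hd, le_div_iff₀ (by positivity)]
  have h3 := mul_le_mul_of_nonneg_left (gm_le_gUp (d - 1)) hm0
  have h4 := mul_le_mul_of_nonneg_left (gLo_le_gm d) (show 0 ≤ 1 - m by linarith)
  nlinarith

/-- **The parameter inequality for `3 ≤ d ≤ 9`.** -/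
theorem small_d (d : ℕ) (h3 : 3 ≤ d) (h9 : d ≤ 9) (a b : ℝ) (hab : a + b = 1) (ha : 0 ≤ a)
    (hb : 0 ≤ b)
    (hm : kap (d - 1) / (kap d * (1 / √Real.pi) + kap (d - 1)) ≤ d * a) :
    (∃ lam : ℝ, 0 < lam ∧
      kap d * ((∑' n : ℤ, Real.exp (-lam * (n : ℝ) ^ 2)) ^ d * √(lam / Real.pi) ^ d *
        J d (b / ((1 / √Real.pi) * √lam)) a * J d (a / √Real.pi) (b * (1 / √Real.pi))) ≤ 1)
    ∨ kap d * (J d (b / ((1 / √Real.pi) * √2)) a *
        J d (a / √Real.pi) (b * (1 / √Real.pi))) ≤ 1 := by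
  have hT4 : theta 4 ≤ 1037 / 1000 := theta_four.trans (by norm_num)
  have hT3 : theta 3 ≤ 11 / 10 := theta_three.trans (by norm_num)
  have ha1 : a ≤ 1 := by linarith
  interval_cases d
  · have hm' : (57 : ℝ) / 100 ≤ _ :=
      frac_lower 3 (by norm_num) (by norm_num) (by norm_num) (by norm_num [gUp, gLo])
    have h0 : 19 / 100 ≤ a := by
      have := hm'.trans hm
      push_cast at this
      linarith
    rcases le_total a (1 / 2) with h | h
    · exact Or.inl ⟨4, by norm_num, finishA 3 (by norm_num) hT4 q_four ha hb (polyA3 a b hab h0 h)⟩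
    rcases le_total a (17 / 25) with h' | h'
    · exact Or.inl ⟨3, by norm_num, finishA 3 (by norm_num) hT3 q_three ha hb
        (polyA3' a b hab h h')⟩
    · exact Or.inr (finishB 3 ha hb (polyB3 a b hab h' ha1))
  · have hm' : (3 : ℝ) / 5 ≤ _ :=
      frac_lower 4 (by norm_num) (by norm_num) (by norm_num) (by norm_num [gUp, gLo])
    have h0 : 3 / 20 ≤ a := by
      have := hm'.trans hm
      push_cast at this
      linarith
    rcases le_total a (3 / 5) with h | h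
    · exact Or.inl ⟨4, by norm_num, finishA 4 (by norm_num) hT4 q_four ha hb (polyA4 a b hab h0 h)⟩
    · exact Or.inr (finishB 4 ha hb (polyB4 a b hab h ha1))
  · have hm' : (3 : ℝ) / 5 ≤ _ :=
      frac_lower 5 (by norm_num) (by norm_num) (by norm_num) (by norm_num [gUp, gLo])
    have h0 : 3 / 25 ≤ a := by
      have := hm'.trans hm
      push_cast at this
      linarith
    rcases le_total a (3 / 5) with h | h
    · exact Or.inl ⟨4, by norm_num, finishA 5 (by norm_num) hT4 q_four ha hb (polyA5 a b hab h0 h)⟩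
    · exact Or.inr (finishB 5 ha hb (polyB5 a b hab h ha1))
  · have hm' : (3 : ℝ) / 5 ≤ _ :=
      frac_lower 6 (by norm_num) (by norm_num) (by norm_num) (by norm_num [gUp, gLo])
    have h0 : 1 / 10 ≤ a := by
      have := hm'.trans hm
      push_cast at this
      linarith
    rcases le_total a (3 / 5) with h | h
    · exact Or.inl ⟨4, by norm_num, finishA 6 (by norm_num) hT4 q_four ha hb (polyA6 a b hab h0 h)⟩
    · exact Or.inr (finishB 6 ha hb (polyB6 a b hab h ha1))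
  · have hm' : (63 : ℝ) / 100 ≤ _ :=
      frac_lower 7 (by norm_num) (by norm_num) (by norm_num) (by norm_num [gUp, gLo])
    have h0 : 9 / 100 ≤ a := by
      have := hm'.trans hm
      push_cast at this
      linarith
    rcases le_total a (3 / 5) with h | h
    · exact Or.inl ⟨4, by norm_num, finishA 7 (by norm_num) hT4 q_four ha hb (polyA7 a b hab h0 h)⟩
    · exact Or.inr (finishB 7 ha hb (polyB7 a b hab h ha1))
  · have hm' : (16 : ℝ) / 25 ≤ _ :=
      frac_lower 8 (by norm_num) (by norm_num) (by norm_num) (by norm_num [gUp, gLo])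
    have h0 : 2 / 25 ≤ a := by
      have := hm'.trans hm
      push_cast at this
      linarith
    rcases le_total a (3 / 5) with h | h
    · exact Or.inl ⟨4, by norm_num, finishA 8 (by norm_num) hT4 q_four ha hb (polyA8 a b hab h0 h)⟩
    · exact Or.inr (finishB 8 ha hb (polyB8 a b hab h ha1))
  · have hm' : (63 : ℝ) / 100 ≤ _ :=
      frac_lower 9 (by norm_num) (by norm_num) (by norm_num) (by norm_num [gUp, gLo])
    have h0 : 7 / 100 ≤ a := by
      have := hm'.trans hm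
      push_cast at this
      linarith
    rcases le_total a (3 / 5) with h | h
    · exact Or.inl ⟨4, by norm_num, finishA 9 (by norm_num) hT4 q_four ha hb (polyA9 a b hab h0 h)⟩
    · exact Or.inr (finishB 9 ha hb (polyB9 a b hab h ha1))

end Pool.Agent.Wills.Param
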