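import Pool.Agent.Wills.OneDim

set_option autoImplicit false

/-! Pointwise kernel estimates (helper7). -/

open Real MeasureTheory
open scoped RealInnerProductSpace

namespace Pool.Agent.Wills

variable {d : ℕ}

/-- the integer point `z` as an element of Euclidean space -/
noncomputable def pt (z : Fin d → ℤ) : EuclideanSpace ℝ (Fin d) :=
  WithLp.toLp 2 (fun j => (z j : ℝ))

@[simp] lemma pt_apply (z : Fin d → ℤ) (j : Fin d) : pt z j = (z j : ℝ) := rfl

lemma pt_injective : Function.Injective (pt (d := d)) := by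
  intro z w h
  funext j
  have : pt z j = pt w j := by rw [h]
  simpa using this

/-- nearest point -/
lemma exists_nearest {K : Set (EuclideanSpace ℝ (Fin d))} (hK : IsCompact K) (hc : Convex ℝ K)
    (hne : K.Nonempty) (x : EuclideanSpace ℝ (Fin d)) :
    ∃ y ∈ K, ‖x - y‖ = Metric.infDist x K ∧ ∀ w ∈ K, ⟪x - y, w - y⟫ ≤ 0 := by
  obtain ⟨y, hy, hd⟩ := hK.exists_infDist_eq_dist hne x
  refine ⟨y, hy, by rw [hd, dist_eq_norm], ?_⟩
  have h1 : ‖x - y‖ = ⨅ w : K, ‖x - w‖ := by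
    rw [← dist_eq_norm, ← hd, Metric.infDist_eq_iInf]
    simp_rw [dist_eq_norm]
  exact (norm_eq_iInf_iff_real_inner_le_zero hc hy).mp h1

lemma norm_sub_sq_ge {x y w : EuclideanSpace ℝ (Fin d)} (h : ⟪x - y, w - y⟫ ≤ 0) :
    ‖x - y‖ ^ 2 + ‖y - w‖ ^ 2 ≤ ‖x - w‖ ^ 2 := by
  have e : x - w = (x - y) + (y - w) := by abel
  have h2 : ⟪x - y, y - w⟫ = - ⟪x - y, w - y⟫ := by
    rw [← inner_neg_right]; congr 1; abel
  rw [e, norm_add_sq_real, h2]
  linarith

lemma sum_prod_le (A : Finset (Fin d → ℤ)) (g : Fin d → ℤ → ℝ) (hg : ∀ j k, 0 ≤ g j k)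
    (c : Fin d → ℝ) (hc : ∀ j (s : Finset ℤ), ∑ k ∈ s, g j k ≤ c j) :
    ∑ z ∈ A, ∏ j, g j (z j) ≤ ∏ j, c j := by
  classical
  have h1 : A ⊆ Fintype.piFinset (fun j => A.image (fun z => z j)) := by
    intro z hz
    rw [Fintype.mem_piFinset]
    intro j
    exact Finset.mem_image_of_mem _ hz
  refine (Finset.sum_le_sum_of_subset_of_nonneg h1
    (fun z _ _ => Finset.prod_nonneg (fun j _ => hg j (z j)))).trans ?_
  rw [← Finset.prod_univ_sum]
  exact Finset.prod_le_prod (fun j _ => Finset.sum_nonneg (fun k _ => hg j k)) (fun j _ => hc j _)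

lemma norm_sq_sub_pt (y : EuclideanSpace ℝ (Fin d)) (z : Fin d → ℤ) :
    ‖y - pt z‖ ^ 2 = ∑ j, (y j - z j) ^ 2 := by
  rw [EuclideanSpace.norm_sq_eq]
  simp

lemma sum_gauss_le_theta {lam : ℝ} (hlam : 0 < lam) (y : EuclideanSpace ℝ (Fin d))
    (A : Finset (Fin d → ℤ)) :
    ∑ z ∈ A, Real.exp (-lam * ‖y - pt z‖ ^ 2) ≤ thetaSum lam ^ d := by
  have h := sum_prod_le A (fun j k => Real.exp (-lam * (y j - k) ^ 2))
    (fun j k => (Real.exp_pos _).le) (fun _ => thetaSum lam)
    (fun j s => sum_gauss_le hlam (y j) s)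
  refine le_trans (le_of_eq ?_) (h.trans (le_of_eq (by simp)))
  refine Finset.sum_congr rfl (fun z _ => ?_)
  rw [norm_sq_sub_pt, Finset.mul_sum, Real.exp_sum]

/-- pointwise estimate for the Gaussian kernel -/
lemma pointwiseA {K : Set (EuclideanSpace ℝ (Fin d))} (hK : IsCompact K) (hc : Convex ℝ K)
    (hne : K.Nonempty) (A : Finset (Fin d → ℤ)) (hA : ∀ z ∈ A, pt z ∈ K) {lam : ℝ}
    (hlam : 0 < lam) (x : EuclideanSpace ℝ (Fin d)) :
    ∑ z ∈ A, Real.exp (-lam * ‖x - pt z‖ ^ 2) ≤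
      Real.exp (-lam * Metric.infDist x K ^ 2) * thetaSum lam ^ d := by
  obtain ⟨y, hy, hd, hin⟩ := exists_nearest hK hc hne x
  calc ∑ z ∈ A, Real.exp (-lam * ‖x - pt z‖ ^ 2)
      ≤ ∑ z ∈ A, Real.exp (-lam * Metric.infDist x K ^ 2) * Real.exp (-lam * ‖y - pt z‖ ^ 2) := by
        refine Finset.sum_le_sum (fun z hz => ?_)
        rw [← Real.exp_add, ← hd]
        refine Real.exp_le_exp.mpr ?_
        have := norm_sub_sq_ge (hin (pt z) (hA z hz))
        nlinarith
    _ = Real.exp (-lam * Metric.infDist x K ^ 2) * ∑ z ∈ A, Real.exp (-lam * ‖y - pt z‖ ^ 2) := by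
        rw [Finset.mul_sum]
    _ ≤ _ := mul_le_mul_of_nonneg_left (sum_gauss_le_theta hlam y A) (Real.exp_pos _).le

/-- tensor product of tents -/
noncomputable def phi (x : EuclideanSpace ℝ (Fin d)) : ℝ := ∏ j, tent (x j)

lemma phi_nonneg (x : EuclideanSpace ℝ (Fin d)) : 0 ≤ phi x :=
  Finset.prod_nonneg (fun _ _ => tent_nonneg _)

lemma phi_continuous : Continuous (phi (d := d)) := by
  unfold phi
  refine continuous_finsetProd _ (fun j _ => tent_continuous.comp ?_)
  fun_prop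

/-- pointwise estimate for the random rounding kernel -/
lemma pointwiseB {K : Set (EuclideanSpace ℝ (Fin d))} (hK : IsCompact K) (hc : Convex ℝ K)
    (hne : K.Nonempty) (A : Finset (Fin d → ℤ)) (hA : ∀ z ∈ A, pt z ∈ K)
    (x : EuclideanSpace ℝ (Fin d)) :
    ∑ z ∈ A, phi (x - pt z) ≤ Real.exp (-2 * Metric.infDist x K ^ 2) := by
  obtain ⟨y, hy, hd, hin⟩ := exists_nearest hK hc hne x
  set n : EuclideanSpace ℝ (Fin d) := x - y with hn
  calc ∑ z ∈ A, phi (x - pt z)
      ≤ ∑ z ∈ A, Real.exp (-4 * ‖n‖ ^ 2) * (phi (x - pt z) * Real.exp (4 * ⟪n, x - pt z⟫)) := by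
        refine Finset.sum_le_sum (fun z hz => ?_)
        have h1 : ⟪n, pt z - y⟫ ≤ 0 := hin (pt z) (hA z hz)
        have h2 : ⟪n, x - pt z⟫ = ‖n‖ ^ 2 - ⟪n, pt z - y⟫ := by
          have : x - pt z = n - (pt z - y) := by rw [hn]; abel
          rw [this, inner_sub_right, real_inner_self_eq_norm_sq]
        have h3 : 1 ≤ Real.exp (-4 * ‖n‖ ^ 2) * Real.exp (4 * ⟪n, x - pt z⟫) := by
          rw [← Real.exp_add]
          apply Real.one_le_exp
          rw [h2]
          linarith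
        calc phi (x - pt z) = phi (x - pt z) * 1 := (mul_one _).symm
          _ ≤ phi (x - pt z) * (Real.exp (-4 * ‖n‖ ^ 2) * Real.exp (4 * ⟪n, x - pt z⟫)) :=
            mul_le_mul_of_nonneg_left h3 (phi_nonneg _)
          _ = _ := by ring
    _ = Real.exp (-4 * ‖n‖ ^ 2) * ∑ z ∈ A, (phi (x - pt z) * Real.exp (4 * ⟪n, x - pt z⟫)) := by
        rw [Finset.mul_sum]
    _ ≤ Real.exp (-4 * ‖n‖ ^ 2) * Real.exp (2 * ‖n‖ ^ 2) := by
        refine mul_le_mul_of_nonneg_left ?_ (Real.exp_pos _).le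
        have h := sum_prod_le A (fun j k => tent (x j - k) * Real.exp (4 * (x j - k) * n j))
          (fun j k => mul_nonneg (tent_nonneg _) (Real.exp_pos _).le)
          (fun j => Real.exp (2 * n j ^ 2)) (fun j s => sum_tent_exp_le (x j) (n j) s)
        refine le_trans (le_of_eq ?_) (h.trans (le_of_eq ?_))
        · refine Finset.sum_congr rfl (fun z _ => ?_)
          rw [Finset.prod_mul_distrib, ← Real.exp_sum]
          congr 1
          rw [PiLp.inner_apply]
          congr 1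
          rw [Finset.mul_sum]
          refine Finset.sum_congr rfl (fun j _ => ?_)
          simp
          ring
        · rw [← Real.exp_sum, EuclideanSpace.norm_sq_eq, Finset.mul_sum]
          simp
    _ = _ := by
        rw [← Real.exp_add, ← hd]
        congr 1
        ring

end Pool.Agent.Wills
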