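import Pool.Agent.Wills.SmallDims

set_option autoImplicit false

/-! All dimensions `d ≤ 9` (helper7). -/

open Finset

namespace Pool.Agent.Wills

open Param (P Tangent al gm gm_pos gm_zero gm_one gm_add_two)

lemma gsum_two_eq (d : ℕ) (V : ℕ → ℝ) :
    gsum d V 2 = ∑ i ∈ range (d + 1), pb (d - i) * V i := rfl

theorem small0 (V : ℕ → ℝ) (G : ℝ)
    (hB : G + pb 0 ≤ 1 + ∑ i ∈ range (0 + 1), pb (0 - i) * V i) :
    G ≤ ∑ i ∈ range (0 + 1), beta 0 i * V i := by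
  have b0 : beta 0 0 = 1 := by
    rw [beta_eq le_rfl]; norm_num [gm_zero]
  have p0 := pb_zero
  simp only [Finset.sum_range_succ, Finset.sum_range_zero] at hB ⊢
  norm_num [b0, p0] at hB ⊢
  linarith

theorem small1 (V : ℕ → ℝ) (h0 : V 0 = 1) (G : ℝ)
    (hB : G + pb 1 ≤ 1 + ∑ i ∈ range (1 + 1), pb (1 - i) * V i) :
    G ≤ ∑ i ∈ range (1 + 1), beta 1 i * V i := by
  have b0 : beta 1 0 = 1 := by
    rw [beta_eq (by norm_num), gm_zero, Nat.sub_zero, one_mul, div_self (gm_pos 1).ne']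
  have b1 : beta 1 1 = 1 := by
    rw [beta_eq (by norm_num), Nat.sub_self, gm_zero, mul_one, div_self (gm_pos 1).ne']
  have p0 := pb_zero
  simp only [Finset.sum_range_succ, Finset.sum_range_zero] at hB ⊢
  norm_num [b0, b1, p0, h0] at hB ⊢
  linarith

theorem small2 (V : ℕ → ℝ) (hV : ∀ i, i ≤ 2 → 0 ≤ V i) (h0 : V 0 = 1) (G : ℝ)
    (hB : G + pb 2 ≤ 1 + ∑ i ∈ range (2 + 1), pb (2 - i) * V i) :
    G ≤ ∑ i ∈ range (2 + 1), beta 2 i * V i := by
  have hs1 := sqrt_pi_gt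
  have hs2 := sqrt_pi_lt
  have hs0 : 0 < √Real.pi := by linarith
  have v1 := hV 1 (by norm_num)
  have b0 : beta 2 0 = 1 := by
    rw [beta_eq (by norm_num), gm_zero, Nat.sub_zero, one_mul, div_self (gm_pos 2).ne']
  have b2 : beta 2 2 = 1 := by
    rw [beta_eq (by norm_num), Nat.sub_self, gm_zero, mul_one, div_self (gm_pos 2).ne']
  have b1 : 1.2732 ≤ beta 2 1 := by
    rw [beta_eq (by norm_num), show 2 - 1 = 1 from rfl, gm_one', gm_two,
      le_div_iff₀ (by positivity)]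
    nlinarith
  have p0 := pb_zero
  have p1 := pb_one
  have bv1 := mul_le_mul_of_nonneg_right b1 v1
  have pv1 := mul_le_mul_of_nonneg_right p1 v1
  simp only [Finset.sum_range_succ, Finset.sum_range_zero] at hB ⊢
  norm_num [b0, b2, p0, h0] at hB ⊢
  norm_num at pv1 bv1
  linarith

theorem small_ineq (d : ℕ) (hd : d ≤ 9) (V : ℕ → ℝ) (hV : ∀ i, i ≤ d → 0 ≤ V i) (h0 : V 0 = 1)
    (h1 : 1 ≤ d → 1 ≤ V 1)
    (hBM : 1 ≤ d → ConcaveOn ℝ (Set.Ici 0)
      (fun t => (P d (fun i => kap (d - i) * V i) 1 t) ^ (1 / (d : ℝ)))) (G : ℝ)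
    (hA : ∀ lam : ℝ, 0 < lam → G ≤ thetaSum lam ^ d *
      ∑ i ∈ range (d + 1), (lam / Real.pi) ^ ((i : ℝ) / 2) * V i)
    (hB : G + (Real.pi / 2) ^ ((d : ℝ) / 2) ≤ 1 + gsum d V 2) :
    G ≤ ∑ i ∈ range (d + 1), beta d i * V i := by
  have hA' := A_bound d V hV G hA
  have hB' : G + pb d ≤ 1 + ∑ i ∈ range (d + 1), pb (d - i) * V i := hB
  interval_cases d
  · exact small0 V G hB'
  · exact small1 V h0 G hB'
  · exact small2 V hV h0 G hB'
  · exact small3 V hV h0 (h1 (by norm_num)) (hBM (by norm_num)) G hA' hB'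
  · exact small4 V hV h0 (h1 (by norm_num)) (hBM (by norm_num)) G hA' hB'
  · exact small5 V hV h0 (h1 (by norm_num)) (hBM (by norm_num)) G hA' hB'
  · exact small6 V hV h0 (h1 (by norm_num)) (hBM (by norm_num)) G hA' hB'
  · exact small7 V hV h0 (h1 (by norm_num)) (hBM (by norm_num)) G hA' hB'
  · exact small8 V hV h0 (h1 (by norm_num)) (hBM (by norm_num)) G hA' hB'
  · exact small9 V hV h0 (h1 (by norm_num)) (hBM (by norm_num)) G hA' hB'

end Pool.Agent.Wills
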