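import Pool.Agent.Wills.SmallCore

set_option autoImplicit false

/-! Numerical constants for the small dimensions (helper7). -/

open Finset

namespace Pool.Agent.Wills

open Param (P Tangent al gm gm_pos gm_zero gm_one gm_add_two)

lemma sqrt_pi_gt : (1.77245 : ℝ) < √Real.pi := by
  rw [Real.lt_sqrt (by norm_num)]
  have := Real.pi_gt_d6
  norm_num at this ⊢
  linarith

lemma sqrt_pi_lt : √Real.pi < (1.77246 : ℝ) := by
  rw [Real.sqrt_lt' (by norm_num)]
  have := Real.pi_lt_d6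
  norm_num at this ⊢
  linarith

lemma gm_two : gm 2 = 1 := by rw [gm_add_two, gm_zero]; norm_num
lemma gm_three : gm 3 = 3 / 4 * √Real.pi := by rw [gm_add_two, gm_one]; push_cast; ring
lemma gm_four : gm 4 = 2 := by rw [gm_add_two, gm_two]; norm_num
lemma gm_five : gm 5 = 15 / 8 * √Real.pi := by rw [gm_add_two, gm_three]; push_cast; ring
lemma gm_six : gm 6 = 6 := by rw [gm_add_two, gm_four]; norm_num
lemma gm_seven : gm 7 = 105 / 16 * √Real.pi := by rw [gm_add_two, gm_five]; push_cast; ring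
lemma gm_eight : gm 8 = 24 := by rw [gm_add_two, gm_six]; norm_num
lemma gm_nine : gm 9 = 945 / 32 * √Real.pi := by rw [gm_add_two, gm_seven]; push_cast; ring
lemma gm_one' : gm 1 = 1 / 2 * √Real.pi := by rw [gm_one]; ring

/-- the coefficient in Wills' inequality -/
noncomputable def beta (d i : ℕ) : ℝ := kap i * kap (d - i) / kap d

lemma beta_eq {d i : ℕ} (hi : i ≤ d) : beta d i = gm d / (gm i * gm (d - i)) := by
  unfold beta
  rw [← kap_eq_kap, ← kap_eq_kap, ← kap_eq_kap, Param.kap_eq, Param.kap_eq, Param.kap_eq]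
  have hpi : 0 < √Real.pi := Real.sqrt_pos.2 Real.pi_pos
  have h1 := (gm_pos d).ne'
  have h2 := (gm_pos i).ne'
  have h3 := (gm_pos (d - i)).ne'
  have e : √Real.pi ^ d = √Real.pi ^ i * √Real.pi ^ (d - i) := by
    rw [← pow_add]; congr 1; omega
  rw [e]
  field_simp

/-- theta at `lam = π (16/15)^2` -/
lemma theta_bound : thetaSum (Real.pi * (16 / 15) ^ 2) ≤ 1.0562 := by
  have hpi := Real.pi_gt_d6
  have hlam : (3.5744 : ℝ) ≤ Real.pi * (16 / 15) ^ 2 := by
    norm_num at hpi ⊢; linarith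
  have h1 : Param.theta (Real.pi * (16 / 15) ^ 2) ≤ _ := Param.theta_le (by positivity)
  have e0 : thetaSum (Real.pi * (16 / 15) ^ 2) = Param.theta (Real.pi * (16 / 15) ^ 2) := rfl
  rw [e0]
  refine h1.trans ?_
  have h2 : (2.4435 : ℝ) ≤ Real.exp 0.8936 := by
    refine le_trans ?_ (Real.sum_le_exp_of_nonneg (by norm_num) 9)
    norm_num [Finset.sum_range_succ, Nat.factorial]
  have h3 : (35.645 : ℝ) ≤ Real.exp 3.5744 := by
    have : Real.exp 3.5744 = Real.exp 0.8936 ^ 4 := by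
      rw [← Real.exp_nat_mul]; norm_num
    rw [this]
    have h4 := pow_le_pow_left₀ (by norm_num) h2 4
    refine le_trans ?_ h4
    norm_num
  have h5 : Real.exp (-(Real.pi * (16 / 15) ^ 2)) ≤ 1 / 35.645 := by
    rw [Real.exp_neg, ← one_div]
    exact one_div_le_one_div_of_le (by norm_num) (h3.trans (Real.exp_le_exp.mpr hlam))
  have h6 : Real.exp (-(3 * (Real.pi * (16 / 15) ^ 2))) ≤ (1 / 35.645) ^ 3 := by
    have : Real.exp (-(3 * (Real.pi * (16 / 15) ^ 2)))
        = Real.exp (-(Real.pi * (16 / 15) ^ 2)) ^ 3 := by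
      rw [← Real.exp_nat_mul]; congr 1; push_cast; ring
    rw [this]
    exact pow_le_pow_left₀ (Real.exp_pos _).le h5 3
  have h7 : Real.exp (-(Real.pi * (16 / 15) ^ 2)) / (1 - Real.exp (-(3 * (Real.pi * (16 / 15) ^ 2))))
      ≤ (1 / 35.645) / (1 - (1 / 35.645) ^ 3) := by
    refine div_le_div₀ (by norm_num) h5 (by norm_num) (by linarith)
  have h8 : (1 / 35.645 : ℝ) / (1 - (1 / 35.645) ^ 3) ≤ 0.0281 := by norm_num
  linarith

noncomputable def pb (j : ℕ) : ℝ := (Real.pi / 2) ^ ((j : ℝ) / 2)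

lemma pb_zero : pb 0 = 1 := by simp [pb]
lemma pb_add_two (j : ℕ) : pb (j + 2) = Real.pi / 2 * pb j := by
  unfold pb
  have : ((j + 2 : ℕ) : ℝ) / 2 = 1 + (j : ℝ) / 2 := by push_cast; ring
  rw [this, Real.rpow_add (by positivity), Real.rpow_one]
lemma pb_nonneg (j : ℕ) : 0 ≤ pb j := by unfold pb; positivity
lemma pb_one : pb 1 ≤ 1.25332 := by
  unfold pb
  have h1 : ((1 : ℕ) : ℝ) / 2 = 1 / 2 := by norm_num
  rw [h1, ← Real.sqrt_eq_rpow, Real.sqrt_le_left (by norm_num)]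
  have := Real.pi_lt_d6
  norm_num at this ⊢
  linarith
lemma pb_step {j : ℕ} {q : ℝ} (h : pb j ≤ q) : pb (j + 2) ≤ 1.5707965 * q := by
  rw [pb_add_two]
  have := Real.pi_lt_d6
  have h1 : Real.pi / 2 ≤ 1.5707965 := by norm_num at this ⊢; linarith
  exact mul_le_mul h1 h (pb_nonneg j) (by norm_num)

lemma A_bound (d : ℕ) (V : ℕ → ℝ) (hV : ∀ i, i ≤ d → 0 ≤ V i) (G : ℝ)
    (hA : ∀ lam : ℝ, 0 < lam → G ≤ thetaSum lam ^ d *
      ∑ i ∈ range (d + 1), (lam / Real.pi) ^ ((i : ℝ) / 2) * V i) :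
    G ≤ 1.0562 ^ d * ∑ i ∈ range (d + 1), (16 / 15 : ℝ) ^ i * V i := by
  have h := hA (Real.pi * (16 / 15) ^ 2) (by positivity)
  have e : Real.pi * (16 / 15) ^ 2 / Real.pi = (16 / 15 : ℝ) ^ 2 := by
    field_simp
  have e2 : ∀ i : ℕ, ((16 / 15 : ℝ) ^ 2) ^ ((i : ℝ) / 2) = (16 / 15 : ℝ) ^ i := by
    intro i
    rw [← Real.rpow_natCast (16 / 15 : ℝ) 2, ← Real.rpow_mul (by norm_num)]
    rw [← Real.rpow_natCast]
    congr 1
    push_cast
    ring
  simp_rw [e, e2] at h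
  refine h.trans (mul_le_mul_of_nonneg_right ?_ (Finset.sum_nonneg (fun i hi => ?_)))
  · exact pow_le_pow_left₀ (zero_le_one.trans (one_le_thetaSum (by positivity))) theta_bound d
  · exact mul_nonneg (by positivity) (hV i (by have := Finset.mem_range.1 hi; omega))

end Pool.Agent.Wills
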