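import Pool.Agent.Wills.ParamTan
import Pool.Agent.Wills.ParamTheta
import Pool.Agent.Wills.KernelB

set_option autoImplicit false

/-! Linear certificates: the linearised tangent inequalities (helper7). -/

open Finset

namespace Pool.Agent.Wills

open Param (P Tangent al gm gm_pos gm_zero gm_one gm_add_two)

lemma kap_eq_kap (j : ℕ) : Param.kap j = kap j := rfl

/-- convexity of the power on a segment starting at `1` -/
lemma pow_linearise (d : ℕ) {a as x : ℝ} (ha : 0 ≤ a) (has : 0 < as) (hle : a ≤ as) (hx : 1 ≤ x) :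
    (1 + a * (x - 1)) ^ d ≤ 1 + a / as * ((1 + as * (x - 1)) ^ d - 1) := by
  have m1 : (1 : ℝ) ∈ Set.Ici (0 : ℝ) := by simp
  have m2 : (1 + as * (x - 1) : ℝ) ∈ Set.Ici (0 : ℝ) := by
    simp only [Set.mem_Ici]
    nlinarith [mul_nonneg has.le (by linarith : 0 ≤ x - 1)]
  have c1 : 0 ≤ 1 - a / as := by rw [sub_nonneg, div_le_one has]; exact hle
  have c2 : 0 ≤ a / as := by positivity
  have h := (convexOn_pow (𝕜 := ℝ) d).2 m1 m2 c1 c2 (by ring)
  simp only [smul_eq_mul, one_pow, mul_one] at h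
  have e : 1 - a / as + a / as * (1 + as * (x - 1)) = 1 + a * (x - 1) := by
    field_simp
    ring
  rw [e] at h
  linarith

lemma lin_small (d : ℕ) (hd : 1 ≤ d) (U : ℕ → ℝ) (hU : ∀ i, i ≤ d → 0 ≤ U i) (h0 : 0 < U 0)
    {t : ℝ} (ht : 0 < t) (hT : Tangent d U t (al d U t) (1 - al d U t)) {as x : ℝ}
    (has : 0 < as) (hx : 1 ≤ x) (hle : al d U t ≤ as) :
    ∑ i ∈ range (d + 1), U i * t ^ (d - i) *
      (x ^ i - 1 - ((1 + as * (x - 1)) ^ d - 1) / (as * d) * i) ≤ 0 := by
  have hal := Param.al_nonneg d U hU ht.le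
  have hP := Param.P_pos d U hU h0 zero_le_one ht
  have hd0 : (0 : ℝ) < d := by exact_mod_cast hd
  have h1 := hT x t (by linarith) ht.le
  have e1 : al d U t * x + (1 - al d U t) * (t / t) = 1 + al d U t * (x - 1) := by
    rw [div_self ht.ne']; ring
  rw [e1] at h1
  have h2 := pow_linearise d hal has hle hx
  set M := (1 + as * (x - 1)) ^ d - 1 with hM
  have h3 : P d U x t ≤ P d U 1 t * (1 + al d U t / as * M) :=
    h1.trans (mul_le_mul_of_nonneg_left h2 hP.le)
  have h4 : P d U 1 t * al d U t * d = ∑ i ∈ range (d + 1), (i : ℝ) * U i * t ^ (d - i) := by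
    rw [al]; field_simp
  have e2 : ∑ i ∈ range (d + 1), U i * t ^ (d - i) * (x ^ i - 1 - M / (as * d) * i)
      = P d U x t - P d U 1 t - M / (as * d) *
        ∑ i ∈ range (d + 1), (i : ℝ) * U i * t ^ (d - i) := by
    rw [P, P, Finset.mul_sum, ← Finset.sum_sub_distrib, ← Finset.sum_sub_distrib]
    refine Finset.sum_congr rfl (fun i _ => ?_)
    rw [one_pow]
    ring
  rw [e2, ← h4]
  have e3 : M / (as * d) * (P d U 1 t * al d U t * d) = P d U 1 t * (al d U t / as * M) := by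
    field_simp
  rw [e3]
  nlinarith

lemma lin_large (d : ℕ) (hd : 1 ≤ d) (U : ℕ → ℝ) (hU : ∀ i, i ≤ d → 0 ≤ U i) (h0 : 0 < U 0)
    {t : ℝ} (ht : 0 < t) (hT : Tangent d U t (al d U t) (1 - al d U t)) {as y : ℝ}
    (has : as < 1) (hy : 1 ≤ y) (hle : as ≤ al d U t) :
    ∑ i ∈ range (d + 1), U i * t ^ (d - i) *
      (y ^ (d - i) - 1 - ((1 + (1 - as) * (y - 1)) ^ d - 1) / ((1 - as) * d) * ((d - i : ℕ) : ℝ))
        ≤ 0 := by
  have hal := Param.al_le_one d hd U hU h0 ht
  have hP := Param.P_pos d U hU h0 zero_le_one ht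
  have hd0 : (0 : ℝ) < d := by exact_mod_cast hd
  have h1 := hT 1 (y * t) one_pos (by positivity)
  have e1 : al d U t * 1 + (1 - al d U t) * (y * t / t) = 1 + (1 - al d U t) * (y - 1) := by
    rw [mul_div_assoc, div_self ht.ne']; ring
  rw [e1] at h1
  have h2 := pow_linearise d (a := 1 - al d U t) (as := 1 - as) (x := y)
    (by linarith) (by linarith) (by linarith) hy
  have has' : 0 < 1 - as := by linarith
  set M := (1 + (1 - as) * (y - 1)) ^ d - 1 with hM
  have h3 : P d U 1 (y * t) ≤ P d U 1 t * (1 + (1 - al d U t) / (1 - as) * M) :=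
    h1.trans (mul_le_mul_of_nonneg_left h2 hP.le)
  have h4 := Param.one_sub_al d hd U hU h0 ht
  have e2 : ∑ i ∈ range (d + 1), U i * t ^ (d - i) *
      (y ^ (d - i) - 1 - M / ((1 - as) * d) * ((d - i : ℕ) : ℝ))
      = P d U 1 (y * t) - P d U 1 t - M / ((1 - as) * d) *
        ∑ i ∈ range (d + 1), ((d - i : ℕ) : ℝ) * U i * t ^ (d - i) := by
    rw [P, P, Finset.mul_sum, ← Finset.sum_sub_distrib, ← Finset.sum_sub_distrib]
    refine Finset.sum_congr rfl (fun i _ => ?_)
    rw [one_pow, mul_pow]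
    ring
  rw [e2, ← h4]
  have e3 : M / ((1 - as) * d) * ((1 - al d U t) * (d * P d U 1 t))
      = P d U 1 t * ((1 - al d U t) / (1 - as) * M) := by
    field_simp
  rw [e3]
  nlinarith

/-- `hh s j = s^j / Γ(j/2+1)` -/
noncomputable def hh (s : ℝ) (j : ℕ) : ℝ := s ^ j / gm j

/-- the dichotomy -/
lemma dichotomy (d : ℕ) (hd : 1 ≤ d) (V : ℕ → ℝ) (hV : ∀ i, i ≤ d → 0 ≤ V i) (h0 : V 0 = 1)
    (hBM : ConcaveOn ℝ (Set.Ici 0)
      (fun t => (P d (fun i => kap (d - i) * V i) 1 t) ^ (1 / (d : ℝ))))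
    {s as x y : ℝ} (hs : 0 < s) (has : 0 < as) (has1 : as < 1) (hx : 1 ≤ x) (hy : 1 ≤ y) :
    (∑ i ∈ range (d + 1), V i * hh s (d - i) *
      (x ^ i - 1 - ((1 + as * (x - 1)) ^ d - 1) / (as * d) * i) ≤ 0) ∨
    (∑ i ∈ range (d + 1), V i * hh s (d - i) *
      (y ^ (d - i) - 1 - ((1 + (1 - as) * (y - 1)) ^ d - 1) / ((1 - as) * d) * ((d - i : ℕ) : ℝ))
        ≤ 0) := by
  set U : ℕ → ℝ := fun i => kap (d - i) * V i with hUdef
  have hU : ∀ i, i ≤ d → 0 ≤ U i := fun i hi => mul_nonneg (kap_pos _).le (hV i hi)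
  have hU0 : 0 < U 0 := by
    simp only [hUdef, h0, mul_one]
    exact kap_pos _
  have hpi : 0 < √Real.pi := Real.sqrt_pos.2 Real.pi_pos
  set t : ℝ := s / √Real.pi with ht
  have ht0 : 0 < t := by positivity
  have hT := Param.tangent_of_concave d hd U hU hU0 hBM ht0
  have e : ∀ i, U i * t ^ (d - i) = V i * hh s (d - i) := by
    intro i
    simp only [hUdef, ht, hh]
    rw [← kap_eq_kap, Param.kap_eq, div_pow]
    have := (gm_pos (d - i)).ne'
    field_simp
  rcases le_total (al d U t) as with hle | hle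
  · left
    have := lin_small d hd U hU hU0 ht0 hT has hx hle
    simp_rw [e] at this
    exact this
  · right
    have := lin_large d hd U hU hU0 ht0 hT has1 hy hle
    simp_rw [e] at this
    exact this

end Pool.Agent.Wills
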