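import Pool.Agent.Wills.SmallConst

set_option autoImplicit false

/-! Small dimensions: linear certificates for `3 ≤ d ≤ 9` (helper7; generated by a script). -/

open Finset

namespace Pool.Agent.Wills

open Param (P Tangent al gm gm_pos gm_zero gm_one gm_add_two)

theorem small3 (V : ℕ → ℝ) (hV : ∀ i, i ≤ 3 → 0 ≤ V i) (h0 : V 0 = 1) (h1 : 1 ≤ V 1)
    (hBM : ConcaveOn ℝ (Set.Ici 0)
      (fun t => (P 3 (fun i => kap (3 - i) * V i) 1 t) ^ (1 / ((3 : ℕ) : ℝ)))) (G : ℝ)
    (hA : G ≤ 1.0562 ^ 3 * ∑ i ∈ range (3 + 1), (16 / 15 : ℝ) ^ i * V i)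
    (hB : G + pb 3 ≤ 1 + ∑ i ∈ range (3 + 1), pb (3 - i) * V i) :
    G ≤ ∑ i ∈ range (3 + 1), beta 3 i * V i := by
  have hs1 := sqrt_pi_gt
  have hs2 := sqrt_pi_lt
  have hs0 : 0 < √Real.pi := by linarith
  have v1 := hV 1 (by norm_num)
  have v2 := hV 2 (by norm_num)
  have v3 := hV 3 (by norm_num)
  have b0 : beta 3 0 = 1 := by
    rw [beta_eq (by norm_num), gm_zero, Nat.sub_zero, one_mul, div_self (gm_pos 3).ne']
  have b3 : beta 3 3 = 1 := by
    rw [beta_eq (by norm_num), Nat.sub_self, gm_zero, mul_one, div_self (gm_pos 3).ne']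
  have b1 : beta 3 1 = 3 / 2 := by
    rw [beta_eq (by norm_num)]
    norm_num [gm_zero, gm_one', gm_two, gm_three]
    try field_simp
    try norm_num
  have b2 : beta 3 2 = 3 / 2 := by
    rw [beta_eq (by norm_num)]
    norm_num [gm_zero, gm_one', gm_two, gm_three]
    try field_simp
    try norm_num
  have u1 : (1 : ℝ) / 1.77246 ≤ (√Real.pi)⁻¹ := by
    rw [← one_div]; exact one_div_le_one_div_of_le hs0 hs2.le
  have u2 : (√Real.pi)⁻¹ ≤ (1 : ℝ) / 1.77245 := by
    rw [← one_div]; exact one_div_le_one_div_of_le (by norm_num) hs1.le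
  have g0 : hh (1/3) 0 = 1 := by
    unfold hh; rw [gm_zero]; field_simp; try norm_num
  have g1 : hh (1/3) 1 = 2 / 3 * (√Real.pi)⁻¹ := by
    unfold hh; rw [gm_one']; field_simp; try norm_num
  have g2 : hh (1/3) 2 = 1 / 9 := by
    unfold hh; rw [gm_two]; field_simp; try norm_num
  have g3 : hh (1/3) 3 = 4 / 81 * (√Real.pi)⁻¹ := by
    unfold hh; rw [gm_three]; field_simp; try norm_num
  have w2 := mul_le_mul_of_nonneg_left u1 v2
  have w2' := mul_le_mul_of_nonneg_left u2 v2
  rcases dichotomy 3 (by norm_num) V hV h0 hBM (s := 1/3) (as := 0.72) (x := 2) (y := 1.1)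
    (by norm_num) (by norm_num) (by norm_num) (by norm_num) (by norm_num) with T | T
  · simp only [Finset.sum_range_succ, Finset.sum_range_zero] at T hA ⊢
    norm_num [g0, g1, g2, g3, h0, b0, b1, b2, b3] at T hA ⊢
    linarith
  · have p0 := pb_zero
    have p1 := pb_one
    have p2 := pb_step p0.le
    have pv1 := mul_le_mul_of_nonneg_right p2 v1
    have pv2 := mul_le_mul_of_nonneg_right p1 v2
    simp only [Finset.sum_range_succ, Finset.sum_range_zero] at T hB ⊢
    norm_num [g0, g1, g2, g3, h0, b0, b1, b2, b3, p0] at T hB ⊢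
    norm_num at pv1 pv2
    linarith

theorem small4 (V : ℕ → ℝ) (hV : ∀ i, i ≤ 4 → 0 ≤ V i) (h0 : V 0 = 1) (h1 : 1 ≤ V 1)
    (hBM : ConcaveOn ℝ (Set.Ici 0)
      (fun t => (P 4 (fun i => kap (4 - i) * V i) 1 t) ^ (1 / ((4 : ℕ) : ℝ)))) (G : ℝ)
    (hA : G ≤ 1.0562 ^ 4 * ∑ i ∈ range (4 + 1), (16 / 15 : ℝ) ^ i * V i)
    (hB : G + pb 4 ≤ 1 + ∑ i ∈ range (4 + 1), pb (4 - i) * V i) :
    G ≤ ∑ i ∈ range (4 + 1), beta 4 i * V i := by
  have hs1 := sqrt_pi_gt
  have hs2 := sqrt_pi_lt
  have hs0 : 0 < √Real.pi := by linarith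
  have v1 := hV 1 (by norm_num)
  have v2 := hV 2 (by norm_num)
  have v3 := hV 3 (by norm_num)
  have v4 := hV 4 (by norm_num)
  have b0 : beta 4 0 = 1 := by
    rw [beta_eq (by norm_num), gm_zero, Nat.sub_zero, one_mul, div_self (gm_pos 4).ne']
  have b4 : beta 4 4 = 1 := by
    rw [beta_eq (by norm_num), Nat.sub_self, gm_zero, mul_one, div_self (gm_pos 4).ne']
  have b1 : 16976 / 10000 ≤ beta 4 1 := by
    rw [beta_eq (by norm_num)]
    norm_num [gm_zero, gm_one', gm_two, gm_three, gm_four]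
    rw [le_div_iff₀ (by positivity)]
    nlinarith
  have b2 : beta 4 2 = 2 / 1 := by
    rw [beta_eq (by norm_num)]
    norm_num [gm_zero, gm_one', gm_two, gm_three, gm_four]
    try field_simp
    try norm_num
  have b3 : 16976 / 10000 ≤ beta 4 3 := by
    rw [beta_eq (by norm_num)]
    norm_num [gm_zero, gm_one', gm_two, gm_three, gm_four]
    rw [le_div_iff₀ (by positivity)]
    nlinarith
  have u1 : (1 : ℝ) / 1.77246 ≤ (√Real.pi)⁻¹ := by
    rw [← one_div]; exact one_div_le_one_div_of_le hs0 hs2.le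
  have u2 : (√Real.pi)⁻¹ ≤ (1 : ℝ) / 1.77245 := by
    rw [← one_div]; exact one_div_le_one_div_of_le (by norm_num) hs1.le
  have g0 : hh (1) 0 = 1 := by
    unfold hh; rw [gm_zero]; field_simp; try norm_num
  have g1 : hh (1) 1 = 2 * (√Real.pi)⁻¹ := by
    unfold hh; rw [gm_one']; field_simp; try norm_num
  have g2 : hh (1) 2 = 1 := by
    unfold hh; rw [gm_two]; field_simp; try norm_num
  have g3 : hh (1) 3 = 4 / 3 * (√Real.pi)⁻¹ := by
    unfold hh; rw [gm_three]; field_simp; try norm_num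
  have g4 : hh (1) 4 = 1 / 2 := by
    unfold hh; rw [gm_four]; field_simp; try norm_num
  have w1 := mul_le_mul_of_nonneg_left u1 v1
  have w1' := mul_le_mul_of_nonneg_left u2 v1
  have w3 := mul_le_mul_of_nonneg_left u1 v3
  have w3' := mul_le_mul_of_nonneg_left u2 v3
  have bv1 := mul_le_mul_of_nonneg_right b1 v1
  have bv3 := mul_le_mul_of_nonneg_right b3 v3
  rcases dichotomy 4 (by norm_num) V hV h0 hBM (s := 1) (as := 0.6) (x := 6) (y := 2)
    (by norm_num) (by norm_num) (by norm_num) (by norm_num) (by norm_num) with T | T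
  · simp only [Finset.sum_range_succ, Finset.sum_range_zero] at T hA ⊢
    norm_num [g0, g1, g2, g3, g4, h0, b0, b2, b4] at T hA ⊢
    linarith
  · have p0 := pb_zero
    have p1 := pb_one
    have p2 := pb_step p0.le
    have p3 := pb_step p1
    have pv1 := mul_le_mul_of_nonneg_right p3 v1
    have pv2 := mul_le_mul_of_nonneg_right p2 v2
    have pv3 := mul_le_mul_of_nonneg_right p1 v3
    simp only [Finset.sum_range_succ, Finset.sum_range_zero] at T hB ⊢
    norm_num [g0, g1, g2, g3, g4, h0, b0, b2, b4, p0] at T hB ⊢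
    norm_num at pv1 pv2 pv3
    linarith

theorem small5 (V : ℕ → ℝ) (hV : ∀ i, i ≤ 5 → 0 ≤ V i) (h0 : V 0 = 1) (h1 : 1 ≤ V 1)
    (hBM : ConcaveOn ℝ (Set.Ici 0)
      (fun t => (P 5 (fun i => kap (5 - i) * V i) 1 t) ^ (1 / ((5 : ℕ) : ℝ)))) (G : ℝ)
    (hA : G ≤ 1.0562 ^ 5 * ∑ i ∈ range (5 + 1), (16 / 15 : ℝ) ^ i * V i)
    (hB : G + pb 5 ≤ 1 + ∑ i ∈ range (5 + 1), pb (5 - i) * V i) :
    G ≤ ∑ i ∈ range (5 + 1), beta 5 i * V i := by
  have hs1 := sqrt_pi_gt
  have hs2 := sqrt_pi_lt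
  have hs0 : 0 < √Real.pi := by linarith
  have v1 := hV 1 (by norm_num)
  have v2 := hV 2 (by norm_num)
  have v3 := hV 3 (by norm_num)
  have v4 := hV 4 (by norm_num)
  have v5 := hV 5 (by norm_num)
  have b0 : beta 5 0 = 1 := by
    rw [beta_eq (by norm_num), gm_zero, Nat.sub_zero, one_mul, div_self (gm_pos 5).ne']
  have b5 : beta 5 5 = 1 := by
    rw [beta_eq (by norm_num), Nat.sub_self, gm_zero, mul_one, div_self (gm_pos 5).ne']
  have b1 : beta 5 1 = 15 / 8 := by
    rw [beta_eq (by norm_num)]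
    norm_num [gm_zero, gm_one', gm_two, gm_three, gm_four, gm_five]
    try field_simp
    try norm_num
  have b2 : beta 5 2 = 5 / 2 := by
    rw [beta_eq (by norm_num)]
    norm_num [gm_zero, gm_one', gm_two, gm_three, gm_four, gm_five]
    try field_simp
    try norm_num
  have b3 : beta 5 3 = 5 / 2 := by
    rw [beta_eq (by norm_num)]
    norm_num [gm_zero, gm_one', gm_two, gm_three, gm_four, gm_five]
    try field_simp
    try norm_num
  have b4 : beta 5 4 = 15 / 8 := by
    rw [beta_eq (by norm_num)]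
    norm_num [gm_zero, gm_one', gm_two, gm_three, gm_four, gm_five]
    try field_simp
    try norm_num
  have u1 : (1 : ℝ) / 1.77246 ≤ (√Real.pi)⁻¹ := by
    rw [← one_div]; exact one_div_le_one_div_of_le hs0 hs2.le
  have u2 : (√Real.pi)⁻¹ ≤ (1 : ℝ) / 1.77245 := by
    rw [← one_div]; exact one_div_le_one_div_of_le (by norm_num) hs1.le
  have g0 : hh (1) 0 = 1 := by
    unfold hh; rw [gm_zero]; field_simp; try norm_num
  have g1 : hh (1) 1 = 2 * (√Real.pi)⁻¹ := by
    unfold hh; rw [gm_one']; field_simp; try norm_num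
  have g2 : hh (1) 2 = 1 := by
    unfold hh; rw [gm_two]; field_simp; try norm_num
  have g3 : hh (1) 3 = 4 / 3 * (√Real.pi)⁻¹ := by
    unfold hh; rw [gm_three]; field_simp; try norm_num
  have g4 : hh (1) 4 = 1 / 2 := by
    unfold hh; rw [gm_four]; field_simp; try norm_num
  have g5 : hh (1) 5 = 8 / 15 * (√Real.pi)⁻¹ := by
    unfold hh; rw [gm_five]; field_simp; try norm_num
  have w2 := mul_le_mul_of_nonneg_left u1 v2
  have w2' := mul_le_mul_of_nonneg_left u2 v2
  have w4 := mul_le_mul_of_nonneg_left u1 v4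
  have w4' := mul_le_mul_of_nonneg_left u2 v4
  rcases dichotomy 5 (by norm_num) V hV h0 hBM (s := 1) (as := 0.64) (x := 5) (y := 5)
    (by norm_num) (by norm_num) (by norm_num) (by norm_num) (by norm_num) with T | T
  · simp only [Finset.sum_range_succ, Finset.sum_range_zero] at T hA ⊢
    norm_num [g0, g1, g2, g3, g4, g5, h0, b0, b1, b2, b3, b4, b5] at T hA ⊢
    linarith
  · have p0 := pb_zero
    have p1 := pb_one
    have p2 := pb_step p0.le
    have p3 := pb_step p1
    have p4 := pb_step p2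
    have pv1 := mul_le_mul_of_nonneg_right p4 v1
    have pv2 := mul_le_mul_of_nonneg_right p3 v2
    have pv3 := mul_le_mul_of_nonneg_right p2 v3
    have pv4 := mul_le_mul_of_nonneg_right p1 v4
    simp only [Finset.sum_range_succ, Finset.sum_range_zero] at T hB ⊢
    norm_num [g0, g1, g2, g3, g4, g5, h0, b0, b1, b2, b3, b4, b5, p0] at T hB ⊢
    norm_num at pv1 pv2 pv3 pv4
    linarith

theorem small6 (V : ℕ → ℝ) (hV : ∀ i, i ≤ 6 → 0 ≤ V i) (h0 : V 0 = 1) (h1 : 1 ≤ V 1)
    (hBM : ConcaveOn ℝ (Set.Ici 0)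
      (fun t => (P 6 (fun i => kap (6 - i) * V i) 1 t) ^ (1 / ((6 : ℕ) : ℝ)))) (G : ℝ)
    (hA : G ≤ 1.0562 ^ 6 * ∑ i ∈ range (6 + 1), (16 / 15 : ℝ) ^ i * V i)
    (hB : G + pb 6 ≤ 1 + ∑ i ∈ range (6 + 1), pb (6 - i) * V i) :
    G ≤ ∑ i ∈ range (6 + 1), beta 6 i * V i := by
  have hs1 := sqrt_pi_gt
  have hs2 := sqrt_pi_lt
  have hs0 : 0 < √Real.pi := by linarith
  have v1 := hV 1 (by norm_num)
  have v2 := hV 2 (by norm_num)
  have v3 := hV 3 (by norm_num)
  have v4 := hV 4 (by norm_num)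
  have v5 := hV 5 (by norm_num)
  have v6 := hV 6 (by norm_num)
  have b0 : beta 6 0 = 1 := by
    rw [beta_eq (by norm_num), gm_zero, Nat.sub_zero, one_mul, div_self (gm_pos 6).ne']
  have b6 : beta 6 6 = 1 := by
    rw [beta_eq (by norm_num), Nat.sub_self, gm_zero, mul_one, div_self (gm_pos 6).ne']
  have b1 : 20371 / 10000 ≤ beta 6 1 := by
    rw [beta_eq (by norm_num)]
    norm_num [gm_zero, gm_one', gm_two, gm_three, gm_four, gm_five, gm_six]
    rw [le_div_iff₀ (by positivity)]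
    nlinarith
  have b2 : beta 6 2 = 3 / 1 := by
    rw [beta_eq (by norm_num)]
    norm_num [gm_zero, gm_one', gm_two, gm_three, gm_four, gm_five, gm_six]
    try field_simp
    try norm_num
  have b3 : 33952 / 10000 ≤ beta 6 3 := by
    rw [beta_eq (by norm_num)]
    norm_num [gm_zero, gm_one', gm_two, gm_three, gm_four, gm_five, gm_six]
    rw [le_div_iff₀ (by positivity)]
    nlinarith
  have b4 : beta 6 4 = 3 / 1 := by
    rw [beta_eq (by norm_num)]
    norm_num [gm_zero, gm_one', gm_two, gm_three, gm_four, gm_five, gm_six]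
    try field_simp
    try norm_num
  have b5 : 20371 / 10000 ≤ beta 6 5 := by
    rw [beta_eq (by norm_num)]
    norm_num [gm_zero, gm_one', gm_two, gm_three, gm_four, gm_five, gm_six]
    rw [le_div_iff₀ (by positivity)]
    nlinarith
  have u1 : (1 : ℝ) / 1.77246 ≤ (√Real.pi)⁻¹ := by
    rw [← one_div]; exact one_div_le_one_div_of_le hs0 hs2.le
  have u2 : (√Real.pi)⁻¹ ≤ (1 : ℝ) / 1.77245 := by
    rw [← one_div]; exact one_div_le_one_div_of_le (by norm_num) hs1.le
  have g0 : hh (1) 0 = 1 := by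
    unfold hh; rw [gm_zero]; field_simp; try norm_num
  have g1 : hh (1) 1 = 2 * (√Real.pi)⁻¹ := by
    unfold hh; rw [gm_one']; field_simp; try norm_num
  have g2 : hh (1) 2 = 1 := by
    unfold hh; rw [gm_two]; field_simp; try norm_num
  have g3 : hh (1) 3 = 4 / 3 * (√Real.pi)⁻¹ := by
    unfold hh; rw [gm_three]; field_simp; try norm_num
  have g4 : hh (1) 4 = 1 / 2 := by
    unfold hh; rw [gm_four]; field_simp; try norm_num
  have g5 : hh (1) 5 = 8 / 15 * (√Real.pi)⁻¹ := by
    unfold hh; rw [gm_five]; field_simp; try norm_num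
  have g6 : hh (1) 6 = 1 / 6 := by
    unfold hh; rw [gm_six]; field_simp; try norm_num
  have w1 := mul_le_mul_of_nonneg_left u1 v1
  have w1' := mul_le_mul_of_nonneg_left u2 v1
  have w3 := mul_le_mul_of_nonneg_left u1 v3
  have w3' := mul_le_mul_of_nonneg_left u2 v3
  have w5 := mul_le_mul_of_nonneg_left u1 v5
  have w5' := mul_le_mul_of_nonneg_left u2 v5
  have bv1 := mul_le_mul_of_nonneg_right b1 v1
  have bv3 := mul_le_mul_of_nonneg_right b3 v3
  have bv5 := mul_le_mul_of_nonneg_right b5 v5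
  rcases dichotomy 6 (by norm_num) V hV h0 hBM (s := 1) (as := 0.66) (x := 6) (y := 10)
    (by norm_num) (by norm_num) (by norm_num) (by norm_num) (by norm_num) with T | T
  · simp only [Finset.sum_range_succ, Finset.sum_range_zero] at T hA ⊢
    norm_num [g0, g1, g2, g3, g4, g5, g6, h0, b0, b2, b4, b6] at T hA ⊢
    linarith
  · have p0 := pb_zero
    have p1 := pb_one
    have p2 := pb_step p0.le
    have p3 := pb_step p1
    have p4 := pb_step p2
    have p5 := pb_step p3
    have pv1 := mul_le_mul_of_nonneg_right p5 v1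
    have pv2 := mul_le_mul_of_nonneg_right p4 v2
    have pv3 := mul_le_mul_of_nonneg_right p3 v3
    have pv4 := mul_le_mul_of_nonneg_right p2 v4
    have pv5 := mul_le_mul_of_nonneg_right p1 v5
    simp only [Finset.sum_range_succ, Finset.sum_range_zero] at T hB ⊢
    norm_num [g0, g1, g2, g3, g4, g5, g6, h0, b0, b2, b4, b6, p0] at T hB ⊢
    norm_num at pv1 pv2 pv3 pv4 pv5
    linarith

theorem small7 (V : ℕ → ℝ) (hV : ∀ i, i ≤ 7 → 0 ≤ V i) (h0 : V 0 = 1) (h1 : 1 ≤ V 1)
    (hBM : ConcaveOn ℝ (Set.Ici 0)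
      (fun t => (P 7 (fun i => kap (7 - i) * V i) 1 t) ^ (1 / ((7 : ℕ) : ℝ)))) (G : ℝ)
    (hA : G ≤ 1.0562 ^ 7 * ∑ i ∈ range (7 + 1), (16 / 15 : ℝ) ^ i * V i)
    (hB : G + pb 7 ≤ 1 + ∑ i ∈ range (7 + 1), pb (7 - i) * V i) :
    G ≤ ∑ i ∈ range (7 + 1), beta 7 i * V i := by
  have hs1 := sqrt_pi_gt
  have hs2 := sqrt_pi_lt
  have hs0 : 0 < √Real.pi := by linarith
  have v1 := hV 1 (by norm_num)
  have v2 := hV 2 (by norm_num)
  have v3 := hV 3 (by norm_num)
  have v4 := hV 4 (by norm_num)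
  have v5 := hV 5 (by norm_num)
  have v6 := hV 6 (by norm_num)
  have v7 := hV 7 (by norm_num)
  have b0 : beta 7 0 = 1 := by
    rw [beta_eq (by norm_num), gm_zero, Nat.sub_zero, one_mul, div_self (gm_pos 7).ne']
  have b7 : beta 7 7 = 1 := by
    rw [beta_eq (by norm_num), Nat.sub_self, gm_zero, mul_one, div_self (gm_pos 7).ne']
  have b1 : beta 7 1 = 35 / 16 := by
    rw [beta_eq (by norm_num)]
    norm_num [gm_zero, gm_one', gm_two, gm_three, gm_four, gm_five, gm_six, gm_seven]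
    try field_simp
    try norm_num
  have b2 : beta 7 2 = 7 / 2 := by
    rw [beta_eq (by norm_num)]
    norm_num [gm_zero, gm_one', gm_two, gm_three, gm_four, gm_five, gm_six, gm_seven]
    try field_simp
    try norm_num
  have b3 : beta 7 3 = 35 / 8 := by
    rw [beta_eq (by norm_num)]
    norm_num [gm_zero, gm_one', gm_two, gm_three, gm_four, gm_five, gm_six, gm_seven]
    try field_simp
    try norm_num
  have b4 : beta 7 4 = 35 / 8 := by
    rw [beta_eq (by norm_num)]
    norm_num [gm_zero, gm_one', gm_two, gm_three, gm_four, gm_five, gm_six, gm_seven]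
    try field_simp
    try norm_num
  have b5 : beta 7 5 = 7 / 2 := by
    rw [beta_eq (by norm_num)]
    norm_num [gm_zero, gm_one', gm_two, gm_three, gm_four, gm_five, gm_six, gm_seven]
    try field_simp
    try norm_num
  have b6 : beta 7 6 = 35 / 16 := by
    rw [beta_eq (by norm_num)]
    norm_num [gm_zero, gm_one', gm_two, gm_three, gm_four, gm_five, gm_six, gm_seven]
    try field_simp
    try norm_num
  have u1 : (1 : ℝ) / 1.77246 ≤ (√Real.pi)⁻¹ := by
    rw [← one_div]; exact one_div_le_one_div_of_le hs0 hs2.le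
  have u2 : (√Real.pi)⁻¹ ≤ (1 : ℝ) / 1.77245 := by
    rw [← one_div]; exact one_div_le_one_div_of_le (by norm_num) hs1.le
  have g0 : hh (1) 0 = 1 := by
    unfold hh; rw [gm_zero]; field_simp; try norm_num
  have g1 : hh (1) 1 = 2 * (√Real.pi)⁻¹ := by
    unfold hh; rw [gm_one']; field_simp; try norm_num
  have g2 : hh (1) 2 = 1 := by
    unfold hh; rw [gm_two]; field_simp; try norm_num
  have g3 : hh (1) 3 = 4 / 3 * (√Real.pi)⁻¹ := by
    unfold hh; rw [gm_three]; field_simp; try norm_num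
  have g4 : hh (1) 4 = 1 / 2 := by
    unfold hh; rw [gm_four]; field_simp; try norm_num
  have g5 : hh (1) 5 = 8 / 15 * (√Real.pi)⁻¹ := by
    unfold hh; rw [gm_five]; field_simp; try norm_num
  have g6 : hh (1) 6 = 1 / 6 := by
    unfold hh; rw [gm_six]; field_simp; try norm_num
  have g7 : hh (1) 7 = 16 / 105 * (√Real.pi)⁻¹ := by
    unfold hh; rw [gm_seven]; field_simp; try norm_num
  have w2 := mul_le_mul_of_nonneg_left u1 v2
  have w2' := mul_le_mul_of_nonneg_left u2 v2
  have w4 := mul_le_mul_of_nonneg_left u1 v4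
  have w4' := mul_le_mul_of_nonneg_left u2 v4
  have w6 := mul_le_mul_of_nonneg_left u1 v6
  have w6' := mul_le_mul_of_nonneg_left u2 v6
  rcases dichotomy 7 (by norm_num) V hV h0 hBM (s := 1) (as := 0.67) (x := 8) (y := 10)
    (by norm_num) (by norm_num) (by norm_num) (by norm_num) (by norm_num) with T | T
  · simp only [Finset.sum_range_succ, Finset.sum_range_zero] at T hA ⊢
    norm_num [g0, g1, g2, g3, g4, g5, g6, g7, h0, b0, b1, b2, b3, b4, b5, b6, b7] at T hA ⊢
    linarith
  · have p0 := pb_zero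
    have p1 := pb_one
    have p2 := pb_step p0.le
    have p3 := pb_step p1
    have p4 := pb_step p2
    have p5 := pb_step p3
    have p6 := pb_step p4
    have pv1 := mul_le_mul_of_nonneg_right p6 v1
    have pv2 := mul_le_mul_of_nonneg_right p5 v2
    have pv3 := mul_le_mul_of_nonneg_right p4 v3
    have pv4 := mul_le_mul_of_nonneg_right p3 v4
    have pv5 := mul_le_mul_of_nonneg_right p2 v5
    have pv6 := mul_le_mul_of_nonneg_right p1 v6
    simp only [Finset.sum_range_succ, Finset.sum_range_zero] at T hB ⊢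
    norm_num [g0, g1, g2, g3, g4, g5, g6, g7, h0, b0, b1, b2, b3, b4, b5, b6, b7, p0] at T hB ⊢
    norm_num at pv1 pv2 pv3 pv4 pv5 pv6
    linarith

theorem small8 (V : ℕ → ℝ) (hV : ∀ i, i ≤ 8 → 0 ≤ V i) (h0 : V 0 = 1) (h1 : 1 ≤ V 1)
    (hBM : ConcaveOn ℝ (Set.Ici 0)
      (fun t => (P 8 (fun i => kap (8 - i) * V i) 1 t) ^ (1 / ((8 : ℕ) : ℝ)))) (G : ℝ)
    (hA : G ≤ 1.0562 ^ 8 * ∑ i ∈ range (8 + 1), (16 / 15 : ℝ) ^ i * V i)
    (hB : G + pb 8 ≤ 1 + ∑ i ∈ range (8 + 1), pb (8 - i) * V i) :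
    G ≤ ∑ i ∈ range (8 + 1), beta 8 i * V i := by
  have hs1 := sqrt_pi_gt
  have hs2 := sqrt_pi_lt
  have hs0 : 0 < √Real.pi := by linarith
  have v1 := hV 1 (by norm_num)
  have v2 := hV 2 (by norm_num)
  have v3 := hV 3 (by norm_num)
  have v4 := hV 4 (by norm_num)
  have v5 := hV 5 (by norm_num)
  have v6 := hV 6 (by norm_num)
  have v7 := hV 7 (by norm_num)
  have v8 := hV 8 (by norm_num)
  have b0 : beta 8 0 = 1 := by
    rw [beta_eq (by norm_num), gm_zero, Nat.sub_zero, one_mul, div_self (gm_pos 8).ne']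
  have b8 : beta 8 8 = 1 := by
    rw [beta_eq (by norm_num), Nat.sub_self, gm_zero, mul_one, div_self (gm_pos 8).ne']
  have b1 : 23281 / 10000 ≤ beta 8 1 := by
    rw [beta_eq (by norm_num)]
    norm_num [gm_zero, gm_one', gm_two, gm_three, gm_four, gm_five, gm_six, gm_seven, gm_eight]
    rw [le_div_iff₀ (by positivity)]
    nlinarith
  have b2 : beta 8 2 = 4 / 1 := by
    rw [beta_eq (by norm_num)]
    norm_num [gm_zero, gm_one', gm_two, gm_three, gm_four, gm_five, gm_six, gm_seven, gm_eight]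
    try field_simp
    try norm_num
  have b3 : 54324 / 10000 ≤ beta 8 3 := by
    rw [beta_eq (by norm_num)]
    norm_num [gm_zero, gm_one', gm_two, gm_three, gm_four, gm_five, gm_six, gm_seven, gm_eight]
    rw [le_div_iff₀ (by positivity)]
    nlinarith
  have b4 : beta 8 4 = 6 / 1 := by
    rw [beta_eq (by norm_num)]
    norm_num [gm_zero, gm_one', gm_two, gm_three, gm_four, gm_five, gm_six, gm_seven, gm_eight]
    try field_simp
    try norm_num
  have b5 : 54324 / 10000 ≤ beta 8 5 := by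
    rw [beta_eq (by norm_num)]
    norm_num [gm_zero, gm_one', gm_two, gm_three, gm_four, gm_five, gm_six, gm_seven, gm_eight]
    rw [le_div_iff₀ (by positivity)]
    nlinarith
  have b6 : beta 8 6 = 4 / 1 := by
    rw [beta_eq (by norm_num)]
    norm_num [gm_zero, gm_one', gm_two, gm_three, gm_four, gm_five, gm_six, gm_seven, gm_eight]
    try field_simp
    try norm_num
  have b7 : 23281 / 10000 ≤ beta 8 7 := by
    rw [beta_eq (by norm_num)]
    norm_num [gm_zero, gm_one', gm_two, gm_three, gm_four, gm_five, gm_six, gm_seven, gm_eight]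
    rw [le_div_iff₀ (by positivity)]
    nlinarith
  have u1 : (1 : ℝ) / 1.77246 ≤ (√Real.pi)⁻¹ := by
    rw [← one_div]; exact one_div_le_one_div_of_le hs0 hs2.le
  have u2 : (√Real.pi)⁻¹ ≤ (1 : ℝ) / 1.77245 := by
    rw [← one_div]; exact one_div_le_one_div_of_le (by norm_num) hs1.le
  have g0 : hh (1) 0 = 1 := by
    unfold hh; rw [gm_zero]; field_simp; try norm_num
  have g1 : hh (1) 1 = 2 * (√Real.pi)⁻¹ := by
    unfold hh; rw [gm_one']; field_simp; try norm_num
  have g2 : hh (1) 2 = 1 := by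
    unfold hh; rw [gm_two]; field_simp; try norm_num
  have g3 : hh (1) 3 = 4 / 3 * (√Real.pi)⁻¹ := by
    unfold hh; rw [gm_three]; field_simp; try norm_num
  have g4 : hh (1) 4 = 1 / 2 := by
    unfold hh; rw [gm_four]; field_simp; try norm_num
  have g5 : hh (1) 5 = 8 / 15 * (√Real.pi)⁻¹ := by
    unfold hh; rw [gm_five]; field_simp; try norm_num
  have g6 : hh (1) 6 = 1 / 6 := by
    unfold hh; rw [gm_six]; field_simp; try norm_num
  have g7 : hh (1) 7 = 16 / 105 * (√Real.pi)⁻¹ := by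
    unfold hh; rw [gm_seven]; field_simp; try norm_num
  have g8 : hh (1) 8 = 1 / 24 := by
    unfold hh; rw [gm_eight]; field_simp; try norm_num
  have w1 := mul_le_mul_of_nonneg_left u1 v1
  have w1' := mul_le_mul_of_nonneg_left u2 v1
  have w3 := mul_le_mul_of_nonneg_left u1 v3
  have w3' := mul_le_mul_of_nonneg_left u2 v3
  have w5 := mul_le_mul_of_nonneg_left u1 v5
  have w5' := mul_le_mul_of_nonneg_left u2 v5
  have w7 := mul_le_mul_of_nonneg_left u1 v7
  have w7' := mul_le_mul_of_nonneg_left u2 v7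
  have bv1 := mul_le_mul_of_nonneg_right b1 v1
  have bv3 := mul_le_mul_of_nonneg_right b3 v3
  have bv5 := mul_le_mul_of_nonneg_right b5 v5
  have bv7 := mul_le_mul_of_nonneg_right b7 v7
  rcases dichotomy 8 (by norm_num) V hV h0 hBM (s := 1) (as := 0.68) (x := 3) (y := 10)
    (by norm_num) (by norm_num) (by norm_num) (by norm_num) (by norm_num) with T | T
  · simp only [Finset.sum_range_succ, Finset.sum_range_zero] at T hA ⊢
    norm_num [g0, g1, g2, g3, g4, g5, g6, g7, g8, h0, b0, b2, b4, b6, b8] at T hA ⊢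
    linarith
  · have p0 := pb_zero
    have p1 := pb_one
    have p2 := pb_step p0.le
    have p3 := pb_step p1
    have p4 := pb_step p2
    have p5 := pb_step p3
    have p6 := pb_step p4
    have p7 := pb_step p5
    have pv1 := mul_le_mul_of_nonneg_right p7 v1
    have pv2 := mul_le_mul_of_nonneg_right p6 v2
    have pv3 := mul_le_mul_of_nonneg_right p5 v3
    have pv4 := mul_le_mul_of_nonneg_right p4 v4
    have pv5 := mul_le_mul_of_nonneg_right p3 v5
    have pv6 := mul_le_mul_of_nonneg_right p2 v6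
    have pv7 := mul_le_mul_of_nonneg_right p1 v7
    simp only [Finset.sum_range_succ, Finset.sum_range_zero] at T hB ⊢
    norm_num [g0, g1, g2, g3, g4, g5, g6, g7, g8, h0, b0, b2, b4, b6, b8, p0] at T hB ⊢
    norm_num at pv1 pv2 pv3 pv4 pv5 pv6 pv7
    linarith

theorem small9 (V : ℕ → ℝ) (hV : ∀ i, i ≤ 9 → 0 ≤ V i) (h0 : V 0 = 1) (h1 : 1 ≤ V 1)
    (hBM : ConcaveOn ℝ (Set.Ici 0)
      (fun t => (P 9 (fun i => kap (9 - i) * V i) 1 t) ^ (1 / ((9 : ℕ) : ℝ)))) (G : ℝ)
    (hA : G ≤ 1.0562 ^ 9 * ∑ i ∈ range (9 + 1), (16 / 15 : ℝ) ^ i * V i)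
    (hB : G + pb 9 ≤ 1 + ∑ i ∈ range (9 + 1), pb (9 - i) * V i) :
    G ≤ ∑ i ∈ range (9 + 1), beta 9 i * V i := by
  have hs1 := sqrt_pi_gt
  have hs2 := sqrt_pi_lt
  have hs0 : 0 < √Real.pi := by linarith
  have v1 := hV 1 (by norm_num)
  have v2 := hV 2 (by norm_num)
  have v3 := hV 3 (by norm_num)
  have v4 := hV 4 (by norm_num)
  have v5 := hV 5 (by norm_num)
  have v6 := hV 6 (by norm_num)
  have v7 := hV 7 (by norm_num)
  have v8 := hV 8 (by norm_num)
  have v9 := hV 9 (by norm_num)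
  have b0 : beta 9 0 = 1 := by
    rw [beta_eq (by norm_num), gm_zero, Nat.sub_zero, one_mul, div_self (gm_pos 9).ne']
  have b9 : beta 9 9 = 1 := by
    rw [beta_eq (by norm_num), Nat.sub_self, gm_zero, mul_one, div_self (gm_pos 9).ne']
  have b1 : beta 9 1 = 315 / 128 := by
    rw [beta_eq (by norm_num)]
    norm_num [gm_zero, gm_one', gm_two, gm_three, gm_four, gm_five, gm_six, gm_seven, gm_eight, gm_nine]
    try field_simp
    try norm_num
  have b2 : beta 9 2 = 9 / 2 := by
    rw [beta_eq (by norm_num)]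
    norm_num [gm_zero, gm_one', gm_two, gm_three, gm_four, gm_five, gm_six, gm_seven, gm_eight, gm_nine]
    try field_simp
    try norm_num
  have b3 : beta 9 3 = 105 / 16 := by
    rw [beta_eq (by norm_num)]
    norm_num [gm_zero, gm_one', gm_two, gm_three, gm_four, gm_five, gm_six, gm_seven, gm_eight, gm_nine]
    try field_simp
    try norm_num
  have b4 : beta 9 4 = 63 / 8 := by
    rw [beta_eq (by norm_num)]
    norm_num [gm_zero, gm_one', gm_two, gm_three, gm_four, gm_five, gm_six, gm_seven, gm_eight, gm_nine]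
    try field_simp
    try norm_num
  have b5 : beta 9 5 = 63 / 8 := by
    rw [beta_eq (by norm_num)]
    norm_num [gm_zero, gm_one', gm_two, gm_three, gm_four, gm_five, gm_six, gm_seven, gm_eight, gm_nine]
    try field_simp
    try norm_num
  have b6 : beta 9 6 = 105 / 16 := by
    rw [beta_eq (by norm_num)]
    norm_num [gm_zero, gm_one', gm_two, gm_three, gm_four, gm_five, gm_six, gm_seven, gm_eight, gm_nine]
    try field_simp
    try norm_num
  have b7 : beta 9 7 = 9 / 2 := by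
    rw [beta_eq (by norm_num)]
    norm_num [gm_zero, gm_one', gm_two, gm_three, gm_four, gm_five, gm_six, gm_seven, gm_eight, gm_nine]
    try field_simp
    try norm_num
  have b8 : beta 9 8 = 315 / 128 := by
    rw [beta_eq (by norm_num)]
    norm_num [gm_zero, gm_one', gm_two, gm_three, gm_four, gm_five, gm_six, gm_seven, gm_eight, gm_nine]
    try field_simp
    try norm_num
  have u1 : (1 : ℝ) / 1.77246 ≤ (√Real.pi)⁻¹ := by
    rw [← one_div]; exact one_div_le_one_div_of_le hs0 hs2.le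
  have u2 : (√Real.pi)⁻¹ ≤ (1 : ℝ) / 1.77245 := by
    rw [← one_div]; exact one_div_le_one_div_of_le (by norm_num) hs1.le
  have g0 : hh (1) 0 = 1 := by
    unfold hh; rw [gm_zero]; field_simp; try norm_num
  have g1 : hh (1) 1 = 2 * (√Real.pi)⁻¹ := by
    unfold hh; rw [gm_one']; field_simp; try norm_num
  have g2 : hh (1) 2 = 1 := by
    unfold hh; rw [gm_two]; field_simp; try norm_num
  have g3 : hh (1) 3 = 4 / 3 * (√Real.pi)⁻¹ := by
    unfold hh; rw [gm_three]; field_simp; try norm_num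
  have g4 : hh (1) 4 = 1 / 2 := by
    unfold hh; rw [gm_four]; field_simp; try norm_num
  have g5 : hh (1) 5 = 8 / 15 * (√Real.pi)⁻¹ := by
    unfold hh; rw [gm_five]; field_simp; try norm_num
  have g6 : hh (1) 6 = 1 / 6 := by
    unfold hh; rw [gm_six]; field_simp; try norm_num
  have g7 : hh (1) 7 = 16 / 105 * (√Real.pi)⁻¹ := by
    unfold hh; rw [gm_seven]; field_simp; try norm_num
  have g8 : hh (1) 8 = 1 / 24 := by
    unfold hh; rw [gm_eight]; field_simp; try norm_num
  have g9 : hh (1) 9 = 32 / 945 * (√Real.pi)⁻¹ := by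
    unfold hh; rw [gm_nine]; field_simp; try norm_num
  have w2 := mul_le_mul_of_nonneg_left u1 v2
  have w2' := mul_le_mul_of_nonneg_left u2 v2
  have w4 := mul_le_mul_of_nonneg_left u1 v4
  have w4' := mul_le_mul_of_nonneg_left u2 v4
  have w6 := mul_le_mul_of_nonneg_left u1 v6
  have w6' := mul_le_mul_of_nonneg_left u2 v6
  have w8 := mul_le_mul_of_nonneg_left u1 v8
  have w8' := mul_le_mul_of_nonneg_left u2 v8
  rcases dichotomy 9 (by norm_num) V hV h0 hBM (s := 1) (as := 0.7) (x := 3) (y := 10)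
    (by norm_num) (by norm_num) (by norm_num) (by norm_num) (by norm_num) with T | T
  · simp only [Finset.sum_range_succ, Finset.sum_range_zero] at T hA ⊢
    norm_num [g0, g1, g2, g3, g4, g5, g6, g7, g8, g9, h0, b0, b1, b2, b3, b4, b5, b6, b7, b8, b9] at T hA ⊢
    linarith
  · have p0 := pb_zero
    have p1 := pb_one
    have p2 := pb_step p0.le
    have p3 := pb_step p1
    have p4 := pb_step p2
    have p5 := pb_step p3
    have p6 := pb_step p4
    have p7 := pb_step p5
    have p8 := pb_step p6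
    have pv1 := mul_le_mul_of_nonneg_right p8 v1
    have pv2 := mul_le_mul_of_nonneg_right p7 v2
    have pv3 := mul_le_mul_of_nonneg_right p6 v3
    have pv4 := mul_le_mul_of_nonneg_right p5 v4
    have pv5 := mul_le_mul_of_nonneg_right p4 v5
    have pv6 := mul_le_mul_of_nonneg_right p3 v6
    have pv7 := mul_le_mul_of_nonneg_right p2 v7
    have pv8 := mul_le_mul_of_nonneg_right p1 v8
    simp only [Finset.sum_range_succ, Finset.sum_range_zero] at T hB ⊢
    norm_num [g0, g1, g2, g3, g4, g5, g6, g7, g8, g9, h0, b0, b1, b2, b3, b4, b5, b6, b7, b8, b9, p0] at T hB ⊢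
    norm_num at pv1 pv2 pv3 pv4 pv5 pv6 pv7 pv8
    linarith

end Pool.Agent.Wills
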