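import Pool.Agent.Wills.Pointwise

set_option autoImplicit false

/-! The Gaussian integral of the distance function via the Steiner formula (helper7). -/

open Real MeasureTheory Set
open scoped RealInnerProductSpace Pointwise

namespace Pool.Agent.Wills

variable {d : ℕ}

/-- volume of the unit `j`-ball -/
noncomputable def kap (j : ℕ) : ℝ := Real.pi ^ ((j : ℝ) / 2) / Real.Gamma ((j : ℝ) / 2 + 1)

lemma kap_pos (j : ℕ) : 0 < kap j := by
  unfold kap
  have : 0 < Real.Gamma ((j : ℝ) / 2 + 1) := Real.Gamma_pos_of_pos (by positivity)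
  positivity

/-- The Steiner formula for `K` with coefficients `V`. -/
def IsSteiner (K : Set (EuclideanSpace ℝ (Fin d))) (V : ℕ → ℝ) : Prop :=
  ∀ t : ℝ, 0 ≤ t → (volume (K + Metric.closedBall (0 : EuclideanSpace ℝ (Fin d)) t)).toReal
    = ∑ i ∈ Finset.range (d + 1), kap (d - i) * V i * t ^ (d - i)

lemma setOf_infDist_le {K : Set (EuclideanSpace ℝ (Fin d))} (hK : IsCompact K)
    (hne : K.Nonempty) (r : ℝ) :
    {x | Metric.infDist x K ≤ r} = K + Metric.closedBall (0 : EuclideanSpace ℝ (Fin d)) r := by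
  ext x
  simp only [Set.mem_ofPred_eq, Set.mem_add, Metric.mem_closedBall, dist_zero_right]
  constructor
  · intro h
    obtain ⟨y, hy, hd⟩ := hK.exists_infDist_eq_dist hne x
    refine ⟨y, hy, x - y, ?_, by abel⟩
    rw [← dist_eq_norm, ← hd]
    exact h
  · rintro ⟨k, hk, b, hb, rfl⟩
    refine (Metric.infDist_le_dist_of_mem hk).trans ?_
    rw [dist_eq_norm]
    simpa using hb

lemma exp_eq_lintegral {lam : ℝ} (hlam : 0 < lam) {D : ℝ} (hD : 0 ≤ D) :
    ∫⁻ r in Ioi D, ENNReal.ofReal (2 * lam * r * Real.exp (-lam * r ^ 2))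
      = ENNReal.ofReal (Real.exp (-lam * D ^ 2)) := by
  have hderiv : ∀ x ∈ Ici D, HasDerivAt (fun r : ℝ => -Real.exp (-lam * r ^ 2))
      (2 * lam * x * Real.exp (-lam * x ^ 2)) x := by
    intro x _
    have h1 : HasDerivAt (fun r : ℝ => -lam * r ^ 2) (-lam * (2 * x)) x := by
      have := (hasDerivAt_pow 2 x).const_mul (-lam)
      simpa using this
    have h2 := h1.exp.neg
    refine h2.congr_deriv ?_
    ring
  have hpos : ∀ x ∈ Ioi D, 0 ≤ 2 * lam * x * Real.exp (-lam * x ^ 2) := by
    intro x hx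
    have : 0 < x := lt_of_le_of_lt hD hx
    positivity
  have htend : Filter.Tendsto (fun r : ℝ => -Real.exp (-lam * r ^ 2)) Filter.atTop (nhds 0) := by
    rw [← neg_zero]
    refine Filter.Tendsto.neg ?_
    refine Real.tendsto_exp_atBot.comp ?_
    refine Filter.Tendsto.const_mul_atTop_of_neg (by linarith) ?_
    exact Filter.tendsto_pow_atTop (by norm_num)
  have hint := integrableOn_Ioi_deriv_of_nonneg' hderiv hpos htend
  have hval := integral_Ioi_of_hasDerivAt_of_nonneg' hderiv hpos htend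
  rw [← ofReal_integral_eq_lintegral_ofReal hint
    ((ae_restrict_iff' measurableSet_Ioi).mpr (Filter.Eventually.of_forall hpos)), hval]
  congr 1
  ring

lemma integrableOn_term {lam : ℝ} (hlam : 0 < lam) (j : ℕ) :
    IntegrableOn (fun r : ℝ => 2 * lam * r * Real.exp (-lam * r ^ 2) * r ^ j) (Ioi 0) := by
  have h := integrableOn_rpow_mul_exp_neg_mul_sq hlam (s := (j : ℝ) + 1) (by linarith [(Nat.cast_nonneg j : (0:ℝ) ≤ j)])
  have h' : IntegrableOn (fun x => 2 * lam * (x ^ ((j : ℝ) + 1) * Real.exp (-lam * x ^ 2)))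
    (Ioi 0) := h.const_mul (2 * lam)
  refine h'.congr_fun ?_ measurableSet_Ioi
  intro r hr
  have hr' : 0 < r := hr
  simp only
  rw [Real.rpow_add hr', Real.rpow_one, Real.rpow_natCast]
  ring

lemma integral_term {lam : ℝ} (hlam : 0 < lam) (j : ℕ) :
    ∫ r in Ioi (0 : ℝ), 2 * lam * r * Real.exp (-lam * r ^ 2) * r ^ j
      = lam ^ (-((j : ℝ) / 2)) * Real.Gamma ((j : ℝ) / 2 + 1) := by
  have h := integral_rpow_mul_exp_neg_mul_rpow (p := 2) (q := (j : ℝ) + 1) (b := lam) (by norm_num)
    (by linarith [(Nat.cast_nonneg j : (0:ℝ) ≤ j)]) hlam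
  have h2 : ∫ r in Ioi (0 : ℝ), 2 * lam * r * Real.exp (-lam * r ^ 2) * r ^ j
      = 2 * lam * ∫ x in Ioi (0 : ℝ), x ^ ((j : ℝ) + 1) * Real.exp (-lam * x ^ (2 : ℝ)) := by
    rw [← integral_const_mul]
    refine setIntegral_congr_fun measurableSet_Ioi (fun r hr => ?_)
    have hr' : 0 < r := hr
    rw [Real.rpow_add hr', Real.rpow_one, Real.rpow_natCast, Real.rpow_two]
    ring
  rw [h2, h]
  have e1 : ((j : ℝ) + 1 + 1) / 2 = (j : ℝ) / 2 + 1 := by ring
  have e2 : -((j : ℝ) + 1 + 1) / 2 = -((j : ℝ) / 2) + (-1) := by ring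
  rw [e1, e2, Real.rpow_add hlam, Real.rpow_neg_one]
  field_simp

/-- the Gaussian sum -/
noncomputable def gsum (d : ℕ) (V : ℕ → ℝ) (lam : ℝ) : ℝ :=
  ∑ i ∈ Finset.range (d + 1), (π / lam) ^ (((d - i : ℕ) : ℝ) / 2) * V i

/-- The Gaussian integral of the distance function. -/
theorem lintegral_gauss_infDist_aux {K : Set (EuclideanSpace ℝ (Fin d))} (hK : IsCompact K)
    (hne : K.Nonempty) {V : ℕ → ℝ} (hV : IsSteiner K V) {lam : ℝ} (hlam : 0 < lam) :
    0 ≤ gsum d V lam ∧ ∫⁻ x, ENNReal.ofReal (Real.exp (-lam * Metric.infDist x K ^ 2))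
      = ENNReal.ofReal (gsum d V lam) := by
  set g : ℝ → ℝ := fun r => 2 * lam * r * Real.exp (-lam * r ^ 2) with hg
  have hgc : Continuous g := by rw [hg]; fun_prop
  set P : ℝ → ℝ := fun t => ∑ i ∈ Finset.range (d + 1), kap (d - i) * V i * t ^ (d - i) with hP
  -- step 1
  have h1 : ∀ x : EuclideanSpace ℝ (Fin d),
      ENNReal.ofReal (Real.exp (-lam * Metric.infDist x K ^ 2))
        = ∫⁻ r in Ioi (0 : ℝ), (if Metric.infDist x K ≤ r then 1 else 0) * ENNReal.ofReal (g r) := by
    intro x
    rw [← exp_eq_lintegral hlam Metric.infDist_nonneg]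
    have : ∀ r : ℝ, (if Metric.infDist x K ≤ r then (1 : ENNReal) else 0) * ENNReal.ofReal (g r)
        = (Ici (Metric.infDist x K)).indicator (fun r => ENNReal.ofReal (g r)) r := by
      intro r
      by_cases h : Metric.infDist x K ≤ r
      · rw [if_pos h, one_mul, indicator_of_mem (by exact h)]
      · rw [if_neg h, zero_mul, indicator_of_notMem (by exact h)]
    simp_rw [this]
    rw [setLIntegral_congr (Ioi_ae_eq_Ici (a := Metric.infDist x K)),
      setLIntegral_congr (Ioi_ae_eq_Ici (a := (0 : ℝ))),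
      lintegral_indicator measurableSet_Ici, Measure.restrict_restrict measurableSet_Ici,
      Ici_inter_Ici, sup_eq_left.mpr Metric.infDist_nonneg]
  have hsum : ∀ r, g r * P r = ∑ i ∈ Finset.range (d + 1),
      (kap (d - i) * V i) * (g r * r ^ (d - i)) := by
    intro r
    simp only [hP, Finset.mul_sum]
    refine Finset.sum_congr rfl (fun i _ => by ring)
  have hint : IntegrableOn (fun r => g r * P r) (Ioi 0) := by
    simp_rw [hsum]
    refine integrable_finsetSum _ (fun i _ => ?_)
    exact (integrableOn_term hlam (d - i)).const_mul _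
  have hnn : ∀ r ∈ Ioi (0 : ℝ), 0 ≤ g r * P r := by
    intro r hr
    have hr0 : (0 : ℝ) < r := hr
    refine mul_nonneg (by simp only [hg]; positivity) ?_
    simp only [hP]
    rw [← hV r hr0.le]
    exact ENNReal.toReal_nonneg
  have hval : ∫ r in Ioi (0 : ℝ), g r * P r = gsum d V lam := by
    simp_rw [hsum]
    rw [integral_finsetSum _ (fun i _ => (integrableOn_term hlam (d - i)).const_mul _), gsum]
    refine Finset.sum_congr rfl (fun i _ => ?_)
    rw [integral_const_mul, integral_term hlam, kap]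
    have hG : Real.Gamma (((d - i : ℕ) : ℝ) / 2 + 1) ≠ 0 :=
      (Real.Gamma_pos_of_pos (by positivity)).ne'
    rw [Real.div_rpow pi_pos.le hlam.le, Real.rpow_neg hlam.le]
    field_simp
  refine ⟨by rw [← hval]; exact setIntegral_nonneg measurableSet_Ioi hnn, ?_⟩
  simp_rw [h1]
  -- step 2 : Tonelli
  rw [lintegral_lintegral_swap]
  · have h2 : ∀ r ∈ Ioi (0 : ℝ), ∫⁻ x : EuclideanSpace ℝ (Fin d),
        (if Metric.infDist x K ≤ r then 1 else 0) * ENNReal.ofReal (g r)
          = ENNReal.ofReal (g r * P r) := by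
      intro r hr
      have hr0 : (0 : ℝ) < r := hr
      have hgr : 0 ≤ g r := by simp only [hg]; positivity
      rw [lintegral_mul_const' _ _ ENNReal.ofReal_ne_top]
      have hms : MeasurableSet {x : EuclideanSpace ℝ (Fin d) | Metric.infDist x K ≤ r} :=
        measurableSet_le (Metric.continuous_infDist_pt K).measurable measurable_const
      have h3 : ∫⁻ x : EuclideanSpace ℝ (Fin d), (if Metric.infDist x K ≤ r then 1 else 0)
          = volume (K + Metric.closedBall (0 : EuclideanSpace ℝ (Fin d)) r) := by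
        rw [← setOf_infDist_le hK hne, ← lintegral_indicator_one hms]
        congr 1
      have hfin : volume (K + Metric.closedBall (0 : EuclideanSpace ℝ (Fin d)) r) ≠ ⊤ :=
        (hK.add (isCompact_closedBall _ _)).measure_lt_top.ne
      rw [h3, ← ENNReal.ofReal_toReal hfin, hV r hr0.le, ← ENNReal.ofReal_mul', mul_comm]
      exact hgr
    rw [setLIntegral_congr_fun measurableSet_Ioi h2,
      ← ofReal_integral_eq_lintegral_ofReal hint
      ((ae_restrict_iff' measurableSet_Ioi).mpr (Filter.Eventually.of_forall hnn)), hval]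
  · refine Measurable.aemeasurable ?_
    refine Measurable.mul ?_ ?_
    · refine Measurable.ite ?_ measurable_const measurable_const
      exact measurableSet_le ((Metric.continuous_infDist_pt K).measurable.comp measurable_fst)
        measurable_snd
    · exact (hgc.measurable.comp measurable_snd).ennreal_ofReal

end Pool.Agent.Wills
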